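import Pool.Agent.MP_249f74_an.H53.V3d
import Pool.Agent.MP_249f74_an.H96.Pv

/-!
Cones with a common vertex space of codimension three are confocal.
-/

open Matrix MvPolynomial

namespace Pool.Agent.MP_249f74_an.H53

open H17 (Der)
open H17.Cm (grad hat sp rf tg hat_dot vec_dot hat_add eval_line)
open H74 (GenK cv exists_sep dv_vecMul const_of_kil dv_cv cv_eq_zero)
open H90 (dv dv_apply dv_dot dv_smul)
open H32 (Mir pt dir)
open H65 (Lin)
open H88 (cl subset_cl)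

variable {k C Ω ι : Type} [Field k] [Algebra k ℝ] [Field C] [Algebra k C] [Field Ω] [Algebra C Ω]

/-- Polynomial functions. -/
def Pf (f : Ω → Ω) : Prop := ∃ W : Polynomial Ω, ∀ s, W.eval s = f s

lemma Pf.cof [CharZero Ω] {a w : Ω → Ω} (ha : Pf a) (hw : Pf w) {s0 : Ω} (h0 : a s0 ≠ 0)
    (h : ∀ s, a s ≠ 0 → w s = 0) (s : Ω) : w s = 0 := by
  obtain ⟨A, hA⟩ := ha
  obtain ⟨W, hW⟩ := hw
  have : A * W = 0 := Polynomial.funext fun s => by
    rw [Polynomial.eval_mul, hA, hW, Polynomial.eval_zero, mul_eq_zero, or_iff_not_imp_left]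
    exact h s
  rw [← hW, (mul_eq_zero.1 this).resolve_left fun e => h0 (by simp [← hA, e]), Polynomial.eval_zero]

lemma Pf.sub {a w : Ω → Ω} (ha : Pf a) (hw : Pf w) : Pf fun s => a s - w s := by
  obtain ⟨A, hA⟩ := ha
  obtain ⟨W, hW⟩ := hw
  exact ⟨A - W, fun s => by simp [hA, hW]⟩

lemma pf_ev (H : MvPolynomial (ι ⊕ ι) C) (x v u w : ι → Ω) :
    Pf fun s => H65.ev (x + s • v) (u + s • w) H :=
  ⟨H65.ev (fun i => Polynomial.C (x i) + Polynomial.X * Polynomial.C (v i))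
    (fun i => Polynomial.C (u i) + Polynomial.X * Polynomial.C (w i)) H, fun s => by
      refine (H65.map_ev ((Polynomial.aeval (R := Ω) s).restrictScalars C) _ _ H).trans ?_
      congr 2 <;> ext i <;> simp [mul_comm s]⟩

variable [Fintype ι]

lemma pf_dot (a b c d : ι → Ω) : Pf fun s => (a + s • b) ⬝ᵥ (c + s • d) :=
  ⟨Polynomial.C (a ⬝ᵥ c) + Polynomial.X * Polynomial.C (a ⬝ᵥ d + b ⬝ᵥ c) +
    Polynomial.X ^ 2 * Polynomial.C (b ⬝ᵥ d), fun s => by simp; ring⟩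

variable [DecidableEq ι] [CharZero Ω] {B : Matrix (Fin 3) (Option ι) C}
  {S : Matrix (Option ι) (Fin 3) C} {H : MvPolynomial (ι ⊕ ι) C} {q x : ι → Ω}
  {N M p : Fin 3 → Ω}

omit [DecidableEq ι] [CharZero Ω] in
lemma row_inj (hS : B * S = 1) (h : M ᵥ* B.map (algebraMap C Ω) = 0) : M = 0 := by
  rw [← vecMul_one M, ← Matrix.map_one _ (map_zero (algebraMap C Ω)) (map_one _), ← hS,
    Matrix.map_mul, ← vecMul_vecMul, h, zero_vecMul]

/-- It is enough to consider the lines that meet one fibre. -/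
lemma zh_of (hl : Lin H) (hS : B * S = 1) (hp : p = B.map (algebraMap C Ω) *ᵥ hat q) (p0 : p ≠ 0)
    (M0 : M ≠ 0) (hn : ∀ s : Ω, N ≠ s • M) (hM : M ⬝ᵥ p = 0) (hN : N ⬝ᵥ p = 0)
    (h : ∀ x u (c : Ω), B.map (algebraMap C Ω) *ᵥ hat x = c • p →
      sp (M ᵥ* B.map (algebraMap C Ω)) ⬝ᵥ u = 0 → H65.ev x u H = 0) :
    Zh H (M ᵥ* B.map (algebraMap C Ω)) := fun x u h1 h2 => by
  have : CharZero C := (algebraMap C Ω).charZero
  obtain ⟨v, v1, v2⟩ := exists_sep (T := sp (M ᵥ* B.map (algebraMap C Ω)))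
    (K := sp (N ᵥ* B.map (algebraMap C Ω))) fun s e => hn s (sub_eq_zero.1 (row_inj hS (by
      have e1 : sp ((N - s • M) ᵥ* B.map (algebraMap C Ω)) = 0 := by
        rw [sub_vecMul, smul_vecMul, H17.Cm.sp_sub, e, H17.Cm.sp_smul, sub_self]
      have e2 : (N - s • M) ⬝ᵥ p = 0 := by simp [hM, hN]
      rw [hp, dotProduct_mulVec, dotProduct_comm, hat_dot, e1, dotProduct_zero, add_zero] at e2
      ext (_ | i)
      exacts [e2, congrFun e1 i])))
  have := (pf_dot (sp (N ᵥ* B.map (algebraMap C Ω))) 0 u v).cof (pf_ev H x 0 u v)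
    (s0 := 1 - sp (N ᵥ* B.map (algebraMap C Ω)) ⬝ᵥ u) (by simp [v2]) (fun s hs => by
      have h3 : sp (M ᵥ* B.map (algebraMap C Ω)) ⬝ᵥ (u + s • v) = 0 := by simp [h2, v1]
      rw [smul_zero, add_zero] at hs ⊢
      generalize u + s • v = w at hs h3
      have e : ∀ (K : Fin 3 → Ω) (t : Ω), B.map (algebraMap C Ω) *ᵥ hat (x + t • w) ⬝ᵥ K =
          K ᵥ* B.map (algebraMap C Ω) ⬝ᵥ hat x + t * sp (K ᵥ* B.map (algebraMap C Ω)) ⬝ᵥ w :=
        fun K t => by
          rw [dotProduct_comm, dotProduct_mulVec, hat_add, H17.Cm.vec_smul, dotProduct_add,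
            dotProduct_smul, dotProduct_comm _ (H17.Cm.vec w), vec_dot, dotProduct_comm w, smul_eq_mul]
      obtain ⟨c, hc⟩ := par3 (x := B.map (algebraMap C Ω) *ᵥ hat (x + (-(N ᵥ* B.map
        (algebraMap C Ω) ⬝ᵥ hat x) / sp (N ᵥ* B.map (algebraMap C Ω)) ⬝ᵥ w) • w)) M0 hn p0
        (by rw [e, h1, h3]; simp) (by rw [e, div_mul_cancel₀ _ hs, add_neg_cancel])
        ((dotProduct_comm _ _).trans hM) ((dotProduct_comm _ _).trans hN)
      exact (hl.tr x w _).symm.trans (h _ w c hc h3)) 0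
  simpa using this

/-- The tangent hyperplane is constant along the fibres. -/
lemma along {m : Mir k C ι} (hq : m.On q) (hS : B * S = 1)
    (hN : tvv m.f q = N ᵥ* B.map (algebraMap C Ω)) {c : Ω}
    (hx : B.map (algebraMap C Ω) *ᵥ hat x = c • (B.map (algebraMap C Ω) *ᵥ hat q))
    {w : (ι → Ω) → Ω} (hw : Pf fun s => w (q + s • (x - q)))
    (h : ∀ y (μ : Ω), aeval y m.f = 0 → μ ≠ 0 → grad m.f y = μ • grad m.f q → w y = 0) :
    w x = 0 := by
  have y1 : B.map (algebraMap C Ω) *ᵥ (hat x - c • hat q) = 0 := by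
    rw [mulVec_sub, mulVec_smul, hx, sub_self]
  have η : sp (hat x - c • hat q) - (hat x - c • hat q : Option ι → Ω) none • q = x - q := by
    ext i; simp [hat]; ring
  have y2 : map (algebraMap C Ω) m.f ∣ tg (map (algebraMap C Ω) m.f) ⬝ᵥ
      fun o => MvPolynomial.C ((hat x - c • hat q : Option ι → Ω) o) := by
    generalize hat x - c • hat q = Y at y1
    have e : (fun o => MvPolynomial.C (Y o)) = (((1 - S * B).map (algebraMap C Ω)).map
        (MvPolynomial.C (σ := ι))) *ᵥ fun o => MvPolynomial.C (Y o) := by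
      ext1 o
      have := RingHom.map_mulVec (MvPolynomial.C (σ := ι)) ((1 - S * B).map (algebraMap C Ω)) Y o
      refine Eq.trans ?_ this
      rw [Matrix.map_sub _ (map_sub _), Matrix.map_one _ (map_zero _) (map_one _), sub_mulVec,
        Matrix.map_mul, ← mulVec_mulVec, y1, one_mulVec, mulVec_zero, sub_zero]
    rw [e, dotProduct_mulVec]
    refine Finset.dvd_sum fun j _ => Dvd.dvd.mul_right ?_ _
    have h1 : m.f ∣ (tg m.f ᵥ* (1 - S * B).map MvPolynomial.C) j := (hq _).1 (by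
      have : tvv m.f q ᵥ* (1 - S * B).map (algebraMap C Ω) = 0 := by
        rw [hN, vecMul_vecMul, ← Matrix.map_mul, Matrix.mul_sub, ← Matrix.mul_assoc, hS]
        simp
      refine Eq.trans ?_ (congrFun this j)
      simp [vecMul, dotProduct])
    convert map_dvd (map (algebraMap C Ω)) h1
    have : ∀ o, tg (map (algebraMap C Ω) m.f) o = map (algebraMap C Ω) (tg m.f o) := fun o => by
      cases o <;> simp [tg, pderiv_map]
    simp [vecMul, dotProduct, this]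
  obtain ⟨f1, f2⟩ := H17.Cm.fibre y2 (q := q) (by rw [aeval_map_algebraMap, hq.zero])
  simp only [H17.Cm.grad_map, η] at f1 f2
  obtain ⟨j, hj⟩ := Function.ne_iff.1 hq.grad_ne
  have hj' : grad m.f q j ≠ 0 := hj
  have := Pf.cof (a := fun s => grad m.f (q + s • (x - q)) j) ⟨_, eval_line _ _ _⟩ hw (s0 := 0)
    (by simpa using hj') (fun s hs => h _ (grad m.f (q + s • (x - q)) j / grad m.f q j)
      (by rw [← aeval_map_algebraMap Ω, ← eval_line, f1, Polynomial.eval_zero])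
      (div_ne_zero hs hj') (funext fun i => by
        rw [Pi.smul_apply, smul_eq_mul, div_mul_eq_mul_div, eq_div_iff hj']
        linear_combination f2 s i j)) 1
  simpa using this

variable [IsAlgClosed C]

/-- A plane curve and its dual. -/
structure Dp (C : Type) [Field C] [Algebra C Ω] (N p : Fin 3 → Ω) : Prop where
  ne : N ≠ 0
  dot : N ⬝ᵥ p = 0
  der : ∀ θ : Der C Ω, dv N θ ⬝ᵥ p = 0
  cst : ∀ c : Fin 3 → C, cv Ω c ⬝ᵥ p = 0 → c = 0

omit [IsAlgClosed C] [CharZero Ω] in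
lemma dp_of {m : Mir k C ι} (hq : m.On q) (hS : B * S = 1)
    (hN : tvv m.f q = N ᵥ* B.map (algebraMap C Ω)) :
    Dp C N (B.map (algebraMap C Ω) *ᵥ hat q) where
  ne e := hq.grad_ne (by rw [← sp_tvv, hN, e, zero_vecMul]; rfl)
  dot := by rw [dotProduct_mulVec, ← hN, tvv_hat]
  der θ := by
    have := dv_dot (tvv m.f q) (hat q) θ
    rwa [tvv_hat, map_zero, tvv_dv hq, add_zero, hN, dv_vecMul, ← dotProduct_mulVec, eq_comm] at this
  cst c e := by
    rw [← vecMul_one c, ← hS, ← vecMul_vecMul,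
      no_aff (c := c ᵥ* B) hq m.deg (by rwa [dotProduct_mulVec, cv_vecMul] at e), zero_vecMul]

omit [IsAlgClosed C] [CharZero Ω] in
lemma Dp.nc (h : Dp C N p) (hM : M ⬝ᵥ p = 0) (M0 : M ≠ 0) (μ : Ω) (c : Fin 3 → C) :
    M ≠ μ • cv Ω c := fun e => by
  rw [e, smul_dotProduct, smul_eq_mul, mul_eq_zero] at hM
  exact M0 (hM.elim (fun e1 => by simp [e, e1]) fun e1 => by simp [e, h.cst c e1, cv_eq_zero.2])

lemma Dp.mov (h : Dp C N p) : ∃ θ : Der C Ω, ∀ s : Ω, dv N θ ≠ s • N := by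
  by_contra! hn
  obtain ⟨μ, c, e⟩ := par_const hn
  exact h.nc h.dot h.ne μ c e

omit [IsAlgClosed C] [CharZero Ω] in
lemma Dp.ne_cst (h : Dp C N p) (c : Fin 3 → C) (s : Ω) : p ≠ s • cv Ω c := fun e => by
  have e1 : ∀ w, c ⨯₃ w = 0 := fun w => h.cst _ (by
    rw [e, dotProduct_smul, H74.cv_dot, dotProduct_comm, dot_self_cross]; simp)
  have e2 : c = 0 := by
    have k1 := congrFun (e1 ![1, 0, 0])
    have k2 := congrFun (e1 ![0, 1, 0])
    ext i
    fin_cases i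
    · simpa [cross_apply] using k2 2
    · simpa [cross_apply] using k1 2
    · simpa [cross_apply] using k1 1
  exact one_ne_zero (congrFun (h.cst 1 (by simp [e, e2, cv_eq_zero.2])) 0)

omit [IsAlgClosed C] [CharZero Ω] in
lemma Dp.p0 (h : Dp C N p) : p ≠ 0 := fun e => h.ne_cst 0 0 (by simpa using e)

/-- The normal form of the dual curve. -/
lemma Dp.nf (h : Dp C N p) : ∃ (μ t : Ω) (N' : Fin 3 → Ω) (d : Der C Ω), μ ≠ 0 ∧ N = μ • N' ∧
    (∀ i, N' i ∈ cl C {t}) ∧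
    LinearIndependent Ω ![N', fun i => d (N' i), fun i => d (d (N' i))] ∧
    (fun i => d (N' i)) ⬝ᵥ p = 0 ∧ ∀ s : Ω, (fun i => d (N' i)) ≠ s • N' := by
  obtain ⟨θ, hθ⟩ := h.mov
  have m0 : N 0 ≠ 0 := fun e => by
    have e0 : cv Ω (![1, 0, 0] : Fin 3 → C) ⬝ᵥ N = 0 := by simp [dotProduct, Fin.sum_univ_three, e]
    have e1 := dv_dot (cv Ω (![1, 0, 0] : Fin 3 → C)) N θ
    rw [e0, map_zero, dv_cv, zero_dotProduct, zero_add] at e1
    exact (par3 (u := cv Ω ![1, 0, 0]) (fun e => by simpa using congrFun e 0) (h.ne_cst _) h.ne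
      ((dotProduct_comm _ _).trans e1.symm) (h.der θ) ((dotProduct_comm _ _).trans e0)
      h.dot).elim hθ
  have p2 : p 2 ≠ 0 := fun e => by
    simpa using congrFun (h.cst ![0, 0, 1] (by simp [dotProduct, Fin.sum_univ_three, e])) 2
  obtain ⟨t, w, e⟩ : ∃ t w, N = N 0 • ![1, t, w] := ⟨N 1 / N 0, N 2 / N 0, by
    ext i; fin_cases i <;> simp [mul_div_cancel₀ _ m0]⟩
  generalize N 0 = μ at m0 e
  subst e
  have k1 : ∀ φ : Der C Ω, φ t * p 1 + φ w * p 2 = 0 := fun φ => by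
    have a1 := h.dot
    have a2 := h.der φ
    rw [smul_dotProduct, smul_eq_zero, or_iff_right m0] at a1
    rw [dv_smul, add_dotProduct, smul_dotProduct, a1, smul_zero, zero_add, smul_dotProduct,
      smul_eq_zero, or_iff_right m0] at a2
    simpa [dotProduct, Fin.sum_univ_three] using a2
  have k2 : ∀ φ : Der C Ω, φ t = 0 → φ w = 0 := fun φ e => by simpa [e, p2] using k1 φ
  have t0 : θ t ≠ 0 := fun e => hθ (θ μ / μ) (by
    rw [dv_smul, smul_smul, div_mul_cancel₀ _ m0]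
    ext i; fin_cases i <;> simp [e, k2 θ e])
  obtain ⟨d, hd⟩ : ∃ d : Der C Ω, d t = 1 := ⟨(θ t)⁻¹ • θ, by simp [t0]⟩
  have w2 : d (d w) ≠ 0 := fun e => by
    obtain ⟨r, hr⟩ := const_of_kil (C := C) (x := d w) fun φ => by
      have a1 : (φ - φ t • d) t = 0 := by simp [hd]
      have a2 := k2 ⁅φ - φ t • d, d⁆ (by rw [Derivation.commutator_apply, a1, hd]; simp)
      rw [Derivation.commutator_apply, k2 _ a1] at a2
      simpa [e] using a2
    simpa using congrFun (h.cst ![0, 1, r] (by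
      simpa [dotProduct, Fin.sum_univ_three, hr, hd] using k1 d)) 1
  refine ⟨μ, t, ![1, t, w], d, m0, rfl, fun i => ?_,
    Fintype.linearIndependent_iff.2 fun g hg i => ?_,
    by simpa [dotProduct, Fin.sum_univ_three] using k1 d, fun s e => ?_⟩
  · fin_cases i
    exacts [one_mem _, subset_cl _ rfl, H96.mem_cl_of_kil fun φ hφ => k2 φ (hφ t rfl)]
  · have g0 : g 0 = 0 := by simpa [Fin.sum_univ_three] using congrFun hg 0
    have g1 : g 1 = 0 := by simpa [Fin.sum_univ_three, g0, hd] using congrFun hg 1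
    have g2 : g 2 = 0 := by simpa [Fin.sum_univ_three, g0, g1, w2] using congrFun hg 2
    fin_cases i
    exacts [g0, g1, g2]
  · have g0 : s = 0 := by simpa using (congrFun e 0).symm
    simpa [g0, hd] using congrFun e 1

/-- Tangent hyperplanes. -/
lemma zh_tan {m : Mir k C ι} (hl : Lin H) (ht : H18.Tn m.f H) (hq : m.On q) (hS : B * S = 1)
    (hN : tvv m.f q = N ᵥ* B.map (algebraMap C Ω)) : Zh H (N ᵥ* B.map (algebraMap C Ω)) := by
  have D := dp_of hq hS hN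
  obtain ⟨θ, hθ⟩ := D.mov
  refine zh_of hl hS rfl D.p0 D.ne hθ D.dot (D.der θ) fun x u c hx hu => ?_
  rw [← hN, sp_tvv] at hu
  exact along hq hS hN hx (w := fun y => H65.ev y u H) (by simpa using pf_ev H q (x - q) u 0)
    fun y μ h1 h2 h3 => ht Ω y u h1 (h3 ▸ smul_ne_zero h2 hq.grad_ne) (by simp [h3, hu])

omit [IsAlgClosed C] in
/-- Reflected hyperplanes. -/
lemma zh_rf {m : Mir k C ι} (hl : Lin H) (hi : H18.Iv m.f H) (hq : m.On q) (hS : B * S = 1)
    (hN : tvv m.f q = N ᵥ* B.map (algebraMap C Ω)) {M' : Fin 3 → Ω}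
    (hM : M ⬝ᵥ B.map (algebraMap C Ω) *ᵥ hat q = 0)
    (hM' : M' ⬝ᵥ B.map (algebraMap C Ω) *ᵥ hat q = 0) (M0 : M' ≠ 0) (hn : ∀ s : Ω, N ≠ s • M')
    (e : sp (M' ᵥ* B.map (algebraMap C Ω)) = rf (grad m.f q) (sp (M ᵥ* B.map (algebraMap C Ω))))
    (h : Zh H (M ᵥ* B.map (algebraMap C Ω))) : Zh H (M' ᵥ* B.map (algebraMap C Ω)) := by
  have D := dp_of hq hS hN
  refine zh_of hl hS rfl D.p0 M0 hn hM' D.dot fun x u c hx hu => ?_
  have := along hq hS hN hx (w := fun y => H65.ev y (rf (grad m.f q) u) H - H65.ev y u H)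
    (by simpa using (pf_ev H q (x - q) (rf (grad m.f q) u) 0).sub (pf_ev H q (x - q) u 0))
    fun y μ h1 h2 h3 => by
      rw [sub_eq_zero, ← H17.Cm.smul_rf h2, ← h3]
      exact hi Ω y u h1 (by simpa [h3, h2] using hq.nn)
  rw [← sub_eq_zero.1 this]
  exact h _ _ (by rw [← dotProduct_mulVec, hx, dotProduct_smul, hM, smul_zero])
    (by rw [← H17.Cm.dot_rf_comm, ← e, hu])

/-- Some hyperplane contains a line on which `H` does not vanish. -/
lemma ex_not_zh {m : Mir k C ι} (hq : m.On q) (hS : B * S = 1)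
    (hN : tvv m.f q = N ᵥ* B.map (algebraMap C Ω)) {u : ι → Ω} (hu : H65.ev q u H ≠ 0) :
    ∃ M : Fin 3 → Ω, sp (M ᵥ* B.map (algebraMap C Ω)) ⬝ᵥ sp (M ᵥ* B.map (algebraMap C Ω)) ≠ 0 ∧
      ¬Zh H (M ᵥ* B.map (algebraMap C Ω)) := by
  by_contra! hn
  have D := dp_of hq hS hN
  obtain ⟨θ, hθ⟩ : ∃ θ : Der C Ω, ∀ s : Ω, dv (B.map (algebraMap C Ω) *ᵥ hat q) θ ≠
      s • (B.map (algebraMap C Ω) *ᵥ hat q) := by
    by_contra! h
    obtain ⟨μ, c, e⟩ := par_const h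
    exact D.ne_cst c μ e
  have e : dv (B.map (algebraMap C Ω) *ᵥ hat q) θ =
      B.map (algebraMap C Ω) *ᵥ H17.Cm.vec (dv q θ) := by
    rw [H74.dv_mulVec]
    congr 1
    ext (_ | i) <;> simp [hat, H17.Cm.vec]
  have e1 : N ⬝ᵥ B.map (algebraMap C Ω) *ᵥ H17.Cm.vec (dv q θ) = 0 := by
    rw [dotProduct_mulVec, ← hN, dotProduct_comm, vec_dot, sp_tvv, dotProduct_comm, GenK.tan hq]
  rw [e] at hθ
  generalize dv q θ = v at hθ e1
  have z0 : (B.map (algebraMap C Ω) *ᵥ H17.Cm.vec v) ⨯₃ (B.map (algebraMap C Ω) *ᵥ hat q) ≠ 0 :=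
    fun e => (par_of_cross e D.p0).elim hθ
  obtain ⟨c, hc⟩ := par3 D.p0 hθ z0 D.dot e1 (by rw [dotProduct_comm, dot_cross_self])
    (by rw [dotProduct_comm, dot_self_cross])
  let f : (ι → Ω) → Fin 3 → Ω := fun w =>
    (B.map (algebraMap C Ω) *ᵥ H17.Cm.vec w) ⨯₃ (B.map (algebraMap C Ω) *ᵥ hat q)
  have e2 : ∀ (s : Ω) w, sp (f (v + s • w) ᵥ* B.map (algebraMap C Ω)) =
      sp (f v ᵥ* B.map (algebraMap C Ω)) + s • sp (f w ᵥ* B.map (algebraMap C Ω)) := fun s w => by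
    simp only [f, H17.Cm.vec_add, H17.Cm.vec_smul, mulVec_add, mulVec_smul, map_add, map_smul,
      LinearMap.add_apply, LinearMap.smul_apply, add_vecMul, smul_vecMul, H17.Cm.sp_add,
      H17.Cm.sp_smul]
  have := (pf_dot (sp (f v ᵥ* B.map (algebraMap C Ω))) (sp (f (u - v) ᵥ* B.map (algebraMap C Ω)))
    _ _).cof (pf_ev H q 0 v (u - v)) (s0 := 0) (fun e => hq.nn (by
      rw [zero_smul, add_zero] at e
      rw [← sp_tvv, hN, hc, smul_vecMul, H17.Cm.sp_smul, smul_dotProduct, dotProduct_smul, e]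
      simp)) (fun s hs => by
      rw [← e2] at hs
      rw [smul_zero, add_zero]
      exact hn _ hs _ _ (by rw [← dotProduct_mulVec, dotProduct_comm, dot_cross_self]) (by
        rw [dotProduct_comm, ← vec_dot, dotProduct_comm, ← dotProduct_mulVec, dotProduct_comm,
          dot_self_cross])) 1
  exact hu (by simpa using this)

omit [CharZero Ω] in
theorem dyn [CharZero C] : DYN k C ι := fun m m' B S H hS h1 h2 rk hH => by
  obtain ⟨Ω, _, _, _, l, hl⟩ := H96.Pv.exists_ext C (ι ⊕ ι)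
  have : CharZero Ω := charZero_of_injective_algebraMap (algebraMap C Ω).injective
  have hl := H32.gen_iff.2 hl.1
  have ex : ∀ m : Mir k C ι, ∃ t, m.On (pt l t) := fun m => by
    obtain ⟨t, ht⟩ := Finset.card_pos.1
      (lt_of_lt_of_le two_pos (m.deg.trans (H32.card_pts m hl).ge))
    exact ⟨t, H32.gen_on hl (H32.mem_pts.1 ht).2⟩
  obtain ⟨t, hq⟩ := ex m
  obtain ⟨t', hy⟩ := ex m'
  obtain ⟨N, hN⟩ := h1 Ω _ hq
  obtain ⟨M, hM⟩ := h2 Ω _ hy
  obtain ⟨M0, a1, a2⟩ := ex_not_zh (H := H) hq hS hN (u := dir l) fun e =>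
    hH.ne (hl _ ((H18.ev_pt hH.lin l t).trans e))
  obtain ⟨F, n, F0, hF, hZ⟩ := ex_form a1 a2
  have D := dp_of hq hS hN
  have D' := dp_of hy hS hM
  obtain ⟨μ, τ, N', d, m0, rfl, b1, b2, b3, b4⟩ := D.nf
  have e1 : grad m.f (pt l t) = μ • sp (N' ᵥ* B.map (algebraMap C Ω)) := by
    rw [← sp_tvv, hN, smul_vecMul, H17.Cm.sp_smul]
  have n0 : sp (N' ᵥ* B.map (algebraMap C Ω)) ⬝ᵥ sp (N' ᵥ* B.map (algebraMap C Ω)) ≠ 0 :=
    fun e => hq.nn (by simp [e1, e])
  have n1 : sp (M ᵥ* B.map (algebraMap C Ω)) ⬝ᵥ sp (M ᵥ* B.map (algebraMap C Ω)) ≠ 0 := by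
    rw [← hM, sp_tvv]; exact hy.nn
  have d1 : N' ⬝ᵥ B.map (algebraMap C Ω) *ᵥ hat (pt l t) = 0 := by simpa [m0] using D.dot
  obtain ⟨a, lam, c1, c2, c3, c4⟩ := H22.pcc_root' (e := B * H17.Cm.J ι C * Bᵀ) (by
      rw [Matrix.IsSymm, transpose_mul, transpose_mul, transpose_transpose, H17.Cm.J_symm.eq,
        Matrix.mul_assoc]) rk b1 b2 (by rwa [H22.bf, dot_abs]) F0 hF (fun s K _ hK k0 k1 => by
      simp only [H22.bf, dot_abs] at k0 ⊢
      have k2 : K ⬝ᵥ B.map (algebraMap C Ω) *ᵥ hat (pt l t) = 0 := by simp [hK, d1, b3]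
      generalize hκ : 2 * sp (N' ᵥ* B.map (algebraMap C Ω)) ⬝ᵥ sp (K ᵥ* B.map (algebraMap C Ω)) /
        sp (N' ᵥ* B.map (algebraMap C Ω)) ⬝ᵥ sp (N' ᵥ* B.map (algebraMap C Ω)) = κ
      have k3 : sp ((K - κ • N') ᵥ* B.map (algebraMap C Ω)) =
          rf (grad m.f (pt l t)) (sp (K ᵥ* B.map (algebraMap C Ω))) := by
        rw [e1, H17.Cm.smul_rf m0, rf, hκ, sub_vecMul, smul_vecMul]; rfl
      have k4 : sp ((K - κ • N') ᵥ* B.map (algebraMap C Ω)) ⬝ᵥ
          sp ((K - κ • N') ᵥ* B.map (algebraMap C Ω)) ≠ 0 := by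
        rwa [k3, H17.Cm.rf_dot_rf hq.nn]
      have k5 : (K - κ • N') ⬝ᵥ B.map (algebraMap C Ω) *ᵥ hat (pt l t) = 0 := by simp [k2, d1]
      have k6 : K - κ • N' ≠ 0 := fun e => k4 (by rw [e, zero_vecMul]; exact zero_dotProduct _)
      refine (hZ _ k4).2 (D.nc k5 k6) (zh_rf hH.lin hH.iv hq hS hN k2 k5 k6 (fun r e => ?_) k3
        ((hZ _ k0).1 k1))
      have r0 : r ≠ 0 := fun e1 => D.ne (by rw [e, e1, zero_smul])
      refine b4 (μ / r + κ - s) (funext fun i => ?_)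
      have := congrFun e i
      simp only [hK, Pi.smul_apply, Pi.sub_apply, Pi.add_apply, smul_eq_mul] at this ⊢
      field_simp
      linear_combination -this) (M := M) (by rwa [H22.bf, dot_abs])
    ((hZ _ n1).2 (D'.nc D'.dot D'.ne) (zh_tan hH.lin hH.tn hy hS hM))
  exact ⟨Ω, _, _, ‹_›, ‹_›, a, lam, _, _, _, M, c1, c2, hq, hN, by
    rw [mulVec_smul, smul_dotProduct, dotProduct_smul, show N' ⬝ᵥ _ = 0 from c3]; simp, hy, hM, c4⟩

omit [CharZero Ω] in
/-- Cones with a common vertex space of codimension three. -/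
theorem two [CharZero C] : H18.TWO k C ι := two_of dyn

end Pool.Agent.MP_249f74_an.H53
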