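import Pool.Agent.MP_249f74_an.H53.V3a

/-!
The normals of a real mirror do not lie in a space on which the scalar product has rank one.
-/

open Matrix MvPolynomial

namespace Pool.Agent.MP_249f74_an.H53

open H17 (Der)
open H17.Cm (grad hat sp)
open H74 (GenK cv hs const_of_kil dv_cv cv_eq_zero dv_vecMul)
open H90 (dv dv_apply dv_dot dv_smul)
open H32 (Mir)

variable {k C Ω ι : Type} [Field k] [Algebra k ℝ] [Field C] [Algebra k C] [Field Ω] [Algebra C Ω]

omit [Algebra k ℝ] in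
lemma dvd_of_map {G P : MvPolynomial ι k}
    (h : map (algebraMap k C) G ∣ map (algebraMap k C) P) : G ∣ P := by
  classical
  obtain ⟨π, hπ⟩ := (Algebra.linearMap k C).exists_leftInverse_of_injective
    (LinearMap.ker_eq_bot.2 (algebraMap k C).injective)
  have e : ∀ (a : k) (b : C), π (algebraMap k C a * b) = a * π b := fun a b => by
    rw [← Algebra.smul_def, map_smul, smul_eq_mul]
  have e1 : π 1 = 1 := by simpa using LinearMap.congr_fun hπ 1
  obtain ⟨Q, hQ⟩ := h
  refine ⟨AddMonoidAlgebra.map π.toAddMonoidHom Q, MvPolynomial.ext _ _ fun d => ?_⟩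
  have := congrArg (fun A => π (coeff d A)) hQ
  simp only [coeff_map, coeff_mul, map_sum, e] at this
  rw [← mul_one (algebraMap k C _), e, e1, mul_one] at this
  rw [this, coeff_mul]
  rfl

/-- The values of the polynomials over the real field at a generic point. -/
lemma ex_real [Fintype ι] {m : Mir k C ι} {q : ι → Ω} (hq : m.On q) :
    ∃ (R : Subring Ω) (G : MvPolynomial ι k) (a : C), m.f = a • map (algebraMap k C) G ∧
      (∀ P : MvPolynomial ι k, aeval q (map (algebraMap k C) P) ∈ R) ∧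
      ∀ z : ι → Ω, (∀ i, z i ∈ R) → z ⬝ᵥ z = 0 → z = 0 := by
  obtain ⟨G, a, y, e, hy⟩ := m.real
  have a0 : a ≠ 0 := by rintro rfl; exact m.prime.ne_zero (by simpa using e)
  have h1 : ∀ P, aeval q (map (algebraMap k C) P) = 0 ↔ aeval y P = 0 := fun P => by
    rw [hq, hy, e, smul_eq_C_mul, (a0.isUnit.map MvPolynomial.C).mul_left_dvd]
    exact ⟨dvd_of_map, map_dvd _⟩
  refine ⟨((aeval q : MvPolynomial ι C →ₐ[C] Ω).toRingHom.comp (map (algebraMap k C))).range,
    G, a, e, fun P => ⟨P, rfl⟩, fun z hz h => funext fun i => ?_⟩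
  choose P hP using hz
  have h2 := (h1 (∑ i, P i * P i)).1 (by
    rw [← h, dotProduct, map_sum, map_sum]
    exact Finset.sum_congr rfl fun i _ => by rw [map_mul, map_mul, ← hP]; rfl)
  simp only [map_sum, map_mul] at h2
  rw [Finset.sum_eq_zero_iff_of_nonneg fun i _ => mul_self_nonneg _] at h2
  exact (hP i).symm.trans ((h1 _).2 (mul_self_eq_zero.1 (h2 i (Finset.mem_univ i))))

variable [Fintype ι] [DecidableEq ι] [IsAlgClosed C] [CharZero Ω]

/-- The normal direction is not constant. -/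
lemma not_par {F : MvPolynomial ι C} {q : ι → Ω} (h : GenK F q) (hp : Prime F)
    (h2 : 2 ≤ F.totalDegree) : ∃ θ : Der C Ω, ∀ s : Ω, dv (grad F q) θ ≠ s • grad F q := by
  by_contra! hn
  obtain ⟨μ, c, e⟩ := par_const hn
  have m0 : μ ≠ 0 := fun e1 => h.grad_ne hp (by simp [e, e1])
  obtain ⟨r, hr⟩ := const_of_kil (C := C) (x := cv Ω c ⬝ᵥ q) fun θ => by
    have := h.tan θ
    rw [e, smul_dotProduct, smul_eq_mul] at this
    rw [dv_dot, dv_cv, zero_dotProduct, zero_add, (mul_eq_zero.1 this).resolve_left m0]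
  have := no_aff h h2 (c := fun o => o.elim (-r) c) (by
    rw [dotProduct_comm, H17.Cm.hat_dot, dotProduct_comm]
    exact (add_comm _ _).trans (add_neg_eq_zero.2 hr.symm ▸ by simp [cv]; rfl))
  exact h.grad_ne hp (by
    rw [e, show c = 0 from funext fun i => congrFun this (some i), cv_eq_zero.2 rfl, smul_zero])

/-- Some derivative of the normal spans a non degenerate plane with the normal. -/
theorem ex_gram {m : Mir k C ι} {q : ι → Ω} (hq : m.On q) : ∃ θ : Der C Ω,
    grad m.f q ⬝ᵥ grad m.f q * dv (grad m.f q) θ ⬝ᵥ dv (grad m.f q) θ ≠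
      (grad m.f q ⬝ᵥ dv (grad m.f q) θ) ^ 2 := by
  by_contra! hn
  obtain ⟨R, G, a, e, h1, h2⟩ := ex_real hq
  obtain ⟨θ, hθ⟩ := not_par hq m.prime m.deg
  have a0 : algebraMap C Ω a ≠ 0 := (map_ne_zero _).2 (by
    rintro rfl; exact m.prime.ne_zero (by simpa using e))
  have n0 := hq.nn
  have e1 : grad m.f q = algebraMap C Ω a • grad (map (algebraMap k C) G) q := by
    rw [e, H17.Cm.grad_smul]
  have e2 : hs m.f q = algebraMap C Ω a • hs (map (algebraMap k C) G) q := by
    ext i j; simp [hs, e, Algebra.smul_def]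
  have r1 : ∀ i, grad (map (algebraMap k C) G) q i ∈ R := fun i => by
    simpa only [grad, pderiv_map] using h1 (pderiv i G)
  have r2 : ∀ i j, hs (map (algebraMap k C) G) q i j ∈ R := fun i j => by
    simpa only [hs, pderiv_map, of_apply] using h1 (pderiv j (pderiv i G))
  have r3 : ∀ x z : ι → Ω, (∀ i, x i ∈ R) → (∀ i, z i ∈ R) → x ⬝ᵥ z ∈ R := fun x z hx hz =>
    sum_mem fun i _ => mul_mem (hx i) (hz i)
  have su := fun w => GenK.sur (w := w) hq m.prime
  have ta := GenK.tan hq θ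
  simp only [H74.dv_grad, e2] at hn hθ
  simp only [e1] at hn hθ su ta n0
  generalize grad (map (algebraMap k C) G) q = n at *
  generalize hs (map (algebraMap k C) G) q = H at *
  have n1 : n ⬝ᵥ n ≠ 0 := fun e => n0 (by simp [e])
  have k1 : ∀ i, H *ᵥ ((n ⬝ᵥ n) • Pi.single i 1 - n i • n) ∈ Submodule.span Ω {n} := fun i => by
    obtain ⟨φ, hφ⟩ := su ((n ⬝ᵥ n) • Pi.single i 1 - n i • n) (by simp [mul_comm])
    have k2 := hn φ
    rw [hφ] at k2
    have r4 : ∀ j, (H *ᵥ ((n ⬝ᵥ n) • Pi.single i 1 - n i • n)) j ∈ R := fun j =>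
      r3 _ _ (r2 j) fun l => sub_mem (mul_mem (r3 _ _ r1 r1) (by
        by_cases e : l = i <;> simp [e])) (mul_mem (r1 i) (r1 l))
    simp only [smul_mulVec, smul_dotProduct, dotProduct_smul, smul_eq_mul] at k2
    generalize H *ᵥ ((n ⬝ᵥ n) • Pi.single i 1 - n i • n) = x at k2 r4 ⊢
    have k3 := h2 ((n ⬝ᵥ n) • x - (n ⬝ᵥ x) • n) (fun j =>
      sub_mem (mul_mem (r3 _ _ r1 r1) (r4 j)) (mul_mem (r3 _ _ r1 r4) (r1 j))) (by
        simp only [sub_dotProduct, dotProduct_sub, smul_dotProduct, dotProduct_smul, smul_eq_mul,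
          dotProduct_comm x n]
        refine mul_left_cancel₀ (pow_ne_zero 4 a0) ?_
        linear_combination (n ⬝ᵥ n) * k2)
    rw [← Submodule.smul_mem_iff _ n1, sub_eq_zero.1 k3]
    exact Submodule.smul_mem _ _ (Submodule.mem_span_singleton_self n)
  have k4 : (n ⬝ᵥ n) • dv q θ = ∑ i, dv q θ i • ((n ⬝ᵥ n) • Pi.single i 1 - n i • n) := by
    rw [smul_dotProduct, smul_eq_zero, or_iff_right a0] at ta
    simp only [smul_sub, Finset.sum_sub_distrib, smul_smul (dv q θ _) (n _), ← Finset.sum_smul]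
    rw [show ∑ i, dv q θ i * n i = 0 from (dotProduct_comm _ _).trans ta]
    ext j
    simp [Pi.single_apply, mul_comm]
  have k5 : H *ᵥ dv q θ ∈ Submodule.span Ω {n} := by
    rw [← Submodule.smul_mem_iff _ n1, ← mulVec_smul, k4, mulVec_sum]
    exact sum_mem fun i _ => by rw [mulVec_smul]; exact Submodule.smul_mem _ _ (k1 i)
  obtain ⟨s, hs⟩ := Submodule.mem_span_singleton.1 k5
  exact hθ s (by rw [smul_mulVec, ← hs, smul_comm])

/-- The absolute has rank at least two on a space that contains the tangent hyperplanes. -/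
theorem rk2 {α : Type} [Fintype α] {m : Mir k C ι} {q : ι → Ω} (hq : m.On q)
    {B : Matrix α (Option ι) C} {N : α → Ω} (hN : tvv m.f q = N ᵥ* B.map (algebraMap C Ω))
    (l : α → C) : B * H17.Cm.J ι C * Bᵀ ≠ vecMulVec l l := fun e => by
  obtain ⟨θ, hθ⟩ := ex_gram hq
  have e1 : ∀ x z : α → Ω, sp (x ᵥ* B.map (algebraMap C Ω)) ⬝ᵥ sp (z ᵥ* B.map (algebraMap C Ω)) =
      (x ⬝ᵥ cv Ω l) * (cv Ω l ⬝ᵥ z) := fun x z => by
    rw [← dot_abs, e, show (vecMulVec l l).map (algebraMap C Ω) = vecMulVec (cv Ω l) (cv Ω l) by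
      ext; simp [vecMulVec_apply], vecMulVec_mulVec, dotProduct_smul]
    simp
  have e2 : dv (grad m.f q) θ = sp (dv N θ ᵥ* B.map (algebraMap C Ω)) := by
    rw [← dv_vecMul, ← hN, ← sp_tvv]; rfl
  rw [e2, ← sp_tvv, hN, e1, e1, e1, dotProduct_comm N, dotProduct_comm (dv N θ)] at hθ
  exact hθ (by ring)

end Pool.Agent.MP_249f74_an.H53
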