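import Pool.Agent.MP_249f74_an.H53.Spec

/-!
A branch with integral leading exponent is not ramified.
-/

open Polynomial IntermediateField

namespace Pool.Agent.MP_249f74_an.H53

open H17 (Der)
open Pl

namespace Unq

variable {C K : Type} [Field C] [CharZero C] [Field K] [Algebra C K] {d : Der C K} {P : Pl d}
  {u g h ρ : K} {c e : C}

/-- The order is an integral multiple of the order of `u`. -/
def Nt (P : Pl d) (u g : K) : Prop := ∃ j : ℤ, P.o g = j * P.o u

lemma Nt.div (hg : Nt P u g) (hh : Nt P u h) : Nt P u (g / h) := by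
  by_cases h0 : g / h = 0
  · exact ⟨0, by simp [h0]⟩
  obtain ⟨i, hi⟩ := hg
  obtain ⟨j, hj⟩ := hh
  rw [div_eq_zero_iff, not_or] at h0
  exact ⟨i - j, by rw [o_div h0.1 h0.2, hi, hj]; push_cast; ring⟩

lemma nt_poly (hu : 0 < P.o u) (p : C[X]) : Nt P u (aeval u p) := by
  by_cases h0 : p = 0
  · exact ⟨0, by simp [h0]⟩
  exact ⟨rootMultiplicity 0 p, by
    simpa using (o_fin (P := P) (x := u) (c := 0) (by simpa using hu) h0).2⟩

lemma nt_adj (hu : 0 < P.o u) (hg : g ∈ C⟮u⟯) : Nt P u g := by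
  obtain ⟨r, s, rfl⟩ := (mem_adjoin_simple_iff C g).1 hg
  exact (nt_poly hu r).div (nt_poly hu s)

/-- Approximation by polynomials in `u`. -/
def Ap (P : Pl d) (u g : K) : Prop := ∀ n : ℕ, ∃ p : C[X], P.G (n * P.o u) (g - aeval u p)

lemma Ap.nt (hu : 0 < P.o u) (hg : Ap P u g) : Nt P u g := by
  by_cases h0 : g = 0
  · exact ⟨0, by simp [h0]⟩
  obtain ⟨n, hn⟩ := exists_nat_gt (P.o g / P.o u)
  obtain ⟨p, hp⟩ := hg n
  obtain ⟨j, hj⟩ := nt_poly hu p
  have := (o_add h0 (hp.neg.L ((div_lt_iff₀ hu).1 hn))).2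
  exact ⟨j, by rw [← hj, ← this]; congr 1; ring⟩

lemma Ap.mul (hu : 0 < P.o u) (hg : Ap P u g) (hh : Ap P u h) : Ap P u (g * h) := fun n => by
  obtain ⟨p, hp⟩ := hg n
  obtain ⟨q, hq⟩ := hh n
  obtain ⟨r, hr⟩ := hh 0
  have h0 : P.G 0 h := by
    simpa using (hr.mono (by simp)).add ((G.of_le hu.le).aeval r)
  refine ⟨p * q, ?_⟩
  convert (hp.mul0 h0).add (hq.mul0 ((G.of_le hu.le).aeval p)) using 1
  rw [map_mul]; ring

lemma aeval_sub {s : ℚ} (hg : P.G 0 g) (hh : P.G 0 h) (hs : P.G s (g - h)) (A : C[X]) :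
    P.G s (aeval g A - aeval h A) := by
  have key : ∀ n : ℕ, P.G s (g ^ n - h ^ n) := fun n => by
    induction n with
    | zero => simpa using G.zero
    | succ n ih =>
      convert (ih.mul0 hg).add (hs.mul0 (a := g - h) (b := h ^ n) (by simpa using hh.pow n)) using 1
      ring
  induction A using Polynomial.induction_on' with
  | add p q hp hq => convert hp.add hq using 1; rw [map_add, map_add]; ring
  | monomial n c =>
    convert (key n).mul0 (G.cst c) using 1
    rw [aeval_monomial, aeval_monomial]; ring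

/-- `g = 1 + c ρ + ⋯`. -/
def Tr (P : Pl d) (ρ g : K) (c : C) : Prop := P.R ((g - 1) / ρ) c

lemma Tr.one (hρ : 0 < P.o ρ) (hg : Tr P ρ g c) : P.R g 1 := by
  have := (L.of_lt hρ).mul0 (R.G hg)
  rwa [mul_div_cancel₀ _ (ne_zero hρ.ne'), ← map_one (algebraMap C K)] at this

lemma Tr.mul (hρ : 0 < P.o ρ) (hg : Tr P ρ g c) (hh : Tr P ρ h e) : Tr P ρ (g * h) (c + e) := by
  have := R.add (R.mul hg (hh.one hρ)) hh
  rw [mul_one] at this
  unfold Tr
  convert this using 1
  ring

lemma Tr.pow (hρ : 0 < P.o ρ) (hg : Tr P ρ g c) (n : ℕ) : Tr P ρ (g ^ n) (n * c) := by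
  induction n with
  | zero => simpa [Tr] using R.cst (P := P) 0
  | succ n ih => rw [pow_succ, Nat.cast_succ, add_mul, one_mul]; exact ih.mul hρ hg

lemma Tr.inv (hρ : 0 < P.o ρ) (hg : Tr P ρ g c) : Tr P ρ g⁻¹ (-c) := by
  have h0 := ((hg.one hρ).unit one_ne_zero).1
  have := R.neg (R.div hg (hg.one hρ) one_ne_zero)
  rw [div_one] at this
  unfold Tr
  convert this using 1
  field_simp
  ring

lemma key {v : K} {J m n k : ℕ} {A B : C[X]} (du : d u ≠ 0) (hJ : 0 < J) (hu : 0 < P.o u)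
    (hv : 0 < P.o v) (hk : P.o v = k * P.o u) (hA : A.eval 0 ≠ 0) (hB : B.eval 0 ≠ 0)
    (E : (u * d v / (v * d u)) ^ J * v ^ n * aeval u B = u ^ m * aeval v A) (p : C[X]) :
    Nt P u (v - aeval u p) := by
  by_contra hn
  have e0 : v - aeval u p ≠ 0 := fun h => hn ⟨0, by simp [h]⟩
  have v0 := ne_zero hv.ne'
  rcases lt_trichotomy (P.o (v - aeval u p)) (P.o v) with h | h | h
  · obtain ⟨j, hj⟩ := nt_poly hu p
    have := (o_add e0 (L.of_lt h).neg).2
    rw [show v - aeval u p + -v = -aeval u p by ring, o_neg] at this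
    exact hn ⟨j, this ▸ hj⟩
  · exact hn ⟨k, by rw [h, hk]; simp⟩
  obtain ⟨w0, ow⟩ := o_add v0 (L.of_lt h).neg
  rw [show v + -(v - aeval u p) = aeval u p by ring] at w0 ow
  have mem : ∀ q : C[X], aeval u q ∈ C⟮u⟯ := fun q =>
    algebra_adjoin_le_adjoin C _ (aeval_mem_adjoin_singleton C u)
  have dw : d (aeval u p) = aeval u (derivative p) * d u := by rw [d.map_aeval, smul_eq_mul]
  have mA := mem (A.comp p)
  have mw := mem p
  rw [aeval_comp] at mA
  generalize aeval u p = w at *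
  obtain ⟨ρ, rfl⟩ : ∃ ρ, v = w * (1 + ρ) := ⟨(v - w) / w, by field_simp; ring⟩
  rw [show w * (1 + ρ) - w = w * ρ by ring] at hn e0 h
  have r0 := right_ne_zero_of_mul e0
  have r1 := right_ne_zero_of_mul v0
  rw [P.mul w0 r0, ow] at h
  have hρ : 0 < P.o ρ := by linarith
  have k0 : 0 < (k : ℚ) := (mul_pos_iff_of_pos_right hu).1 (hk ▸ hv)
  have l0 := R_log (d := d) hu.ne' w0
  rw [ow, hk, mul_div_cancel_right₀ _ hu.ne'] at l0
  have k1 : ((k : ℚ) : C) ≠ 0 := Rat.cast_ne_zero.2 k0.ne'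
  have l1 := (l0.unit k1).1
  have t2 : Tr P ρ (1 + ρ) 1 := by simpa [Tr, r0] using R.cst (P := P) 1
  have t1 : Tr P ρ (u * d (w * (1 + ρ)) / (w * (1 + ρ) * d u) / (u * d w / (w * d u)))
      (((P.o ρ / P.o u : ℚ) : C) / (1 * ((k : ℚ) : C))) := by
    have := (R_log (d := d) hu.ne' r0).div ((t2.one hρ).mul l0) (by simpa using k1)
    have u0 := ne_zero hu.ne'
    have dw0 : d w ≠ 0 := fun z => l1 (by simp [z])
    unfold Tr
    convert this using 1
    simp only [Derivation.leibniz, map_add, Derivation.map_one_eq_zero, smul_eq_mul]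
    field_simp
    ring
  obtain ⟨a0, a1⟩ := (R.aeval (R_zero.2 (L.of_lt (ow ▸ hv))) A).unit hA
  have a2 := ((R.aeval (R_zero.2 (L.of_lt hv)) A).unit hA).1
  have b0 := ((R.aeval (R_zero.2 (L.of_lt hu)) B).unit hB).1
  have t3 : Tr P ρ (aeval (w * (1 + ρ)) A / aeval w A) 0 := by
    have := (aeval_sub (G.of_le hv.le) (G.of_le (ow ▸ hv.le)) (G.self _) A).div (aeval w A * ρ)
    rw [show w * (1 + ρ) - w = w * ρ by ring, P.mul w0 r0, P.mul a0 r0, a1, ow] at this
    refine R_zero.2 ?_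
    convert this.L (t := 0) (by linarith) using 1
    field_simp
  have t := ((t1.pow hρ J).mul hρ (t2.pow hρ n)).mul hρ (t3.inv hρ)
  have U : (u * d (w * (1 + ρ)) / (w * (1 + ρ) * d u) / (u * d w / (w * d u))) ^ J * (1 + ρ) ^ n *
      (aeval (w * (1 + ρ)) A / aeval w A)⁻¹
      = u ^ m * aeval w A / (aeval u B * (u * d w / (w * d u)) ^ J * w ^ n) := by
    rw [mul_pow w] at E
    rw [div_pow _ (u * d w / (w * d u))]
    generalize (u * d (w * (1 + ρ)) / (w * (1 + ρ) * d u)) ^ J = z at E ⊢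
    generalize u * d w / (w * d u) = y at l1 ⊢
    generalize aeval (w * (1 + ρ)) A = a at a2 E ⊢
    field_simp
    linear_combination E
  rw [U] at t
  obtain ⟨z0, z1⟩ := R.unit t (by
    have : (0 : ℚ) < J * (P.o ρ / P.o u / k) + n := by positivity
    have := (Rat.cast_ne_zero (α := C)).2 this.ne'
    push_cast at this ⊢
    simpa using this)
  have mu := mem_adjoin_simple_self C u
  obtain ⟨j, hj⟩ := nt_adj hu (sub_mem (div_mem (mul_mem (pow_mem mu m) mA) (mul_mem (mul_mem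
    (mem B) (pow_mem (show u * d w / (w * d u) ∈ C⟮u⟯ by
      rw [dw, ← mul_assoc, mul_div_mul_right _ _ du]
      exact div_mem (mul_mem mu (mem _)) mw) J)) (pow_mem mw n))) (one_mem _))
  rw [o_div (fun z => z0 (by rw [z, zero_div])) r0, hj] at z1
  exact hn ⟨k + j, by rw [P.mul w0 r0, ow, hk]; push_cast; linarith⟩

end Unq

open Unq

theorem unq : StmtUNQ := by
  intro C K _ _ _ _ _ _ d P u v J m n k A B du hJ hu hv hk hA hB E g hg
  have av : Ap P u v := fun n => by
    induction n with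
    | zero => exact ⟨0, by simpa using G.of_le hv.le⟩
    | succ n ih =>
      obtain ⟨p, hp⟩ := ih
      obtain ⟨c, hc⟩ := G.exR (P := P) (a := (v - aeval u p) / u ^ n) (by simpa using hp.div (u ^ n))
      have u0 := pow_ne_zero n (ne_zero hu.ne')
      have h1 : P.L (n * P.o u) (v - aeval u (p + Polynomial.C c * X ^ n)) := by
        convert L.mul hc (G.self (u ^ n)) using 1
        · simp
        · simp only [map_add, map_mul, aeval_C, map_pow, aeval_X]
          field_simp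
          ring
      refine ⟨_, h1.imp id fun h => ?_⟩
      obtain ⟨j, hj⟩ := key du hJ hu hv hk hA hB E (p + Polynomial.C c * X ^ n)
      rw [hj] at h ⊢
      have : (n : ℤ) < j := by exact_mod_cast lt_of_mul_lt_mul_right h hu.le
      exact mul_le_mul_of_nonneg_right (by exact_mod_cast this) hu.le
  have all : ∀ r ∈ Algebra.adjoin C {u, v}, Ap P u r := fun r hr => by
    induction hr using Algebra.adjoin_induction with
    | mem x hx =>
      rcases hx with rfl | rfl
      exacts [fun _ => ⟨X, by simpa using G.zero⟩, av]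
    | algebraMap c => exact fun _ => ⟨Polynomial.C c, by simpa using G.zero⟩
    | add x y _ _ hx hy =>
      intro n
      obtain ⟨p, hp⟩ := hx n
      obtain ⟨q, hq⟩ := hy n
      exact ⟨p + q, by convert hp.add hq using 1; rw [map_add]; ring⟩
    | mul x y _ _ hx hy => exact hx.mul hu hy
  obtain ⟨r, hr, s, hs, rfl⟩ := mem_adjoin_iff_div.1 hg
  exact ((all r hr).nt hu).div ((all s hs).nt hu)

end Pool.Agent.MP_249f74_an.H53
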