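import Pool.Agent.MP_249f74_an.H53.Spec
import Pool.Agent.MP_249f74_an.H17.Frame

/-!
Places from valuation subrings.
-/

open Polynomial IntermediateField

namespace Pool.Agent.MP_249f74_an.H53

open H17 H17.Fra
open H88 (rk cl rk_insert rk_insert_le subset_cl)

namespace Ex

lemma cmp {Γ : Type} [LinearOrderedCommGroupWithZero Γ] {a b t : Γ} (t0 : 0 < t) (t1 : t < 1)
    {e e' : ℕ} {k k' : ℤ} (he : e ≠ 0) (he' : e' ≠ 0) (ha : a ^ e = t ^ k) (hb : b ^ e' = t ^ k') :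
    b ≤ a ↔ (k / e : ℚ) ≤ k' / e' := by
  have h1 : (0 : ℚ) < e := by positivity
  have h2 : (0 : ℚ) < e' := by positivity
  rw [← pow_le_pow_iff_left₀ zero_le zero_le (mul_ne_zero he he'), pow_mul a, mul_comm e,
    pow_mul b, ha, hb, ← zpow_natCast, ← zpow_natCast, ← zpow_mul, ← zpow_mul,
    zpow_le_zpow_iff_right_of_lt_one₀ t0 t1, div_le_div_iff₀ h1 h2]
  exact_mod_cast Iff.rfl

variable {C K : Type} [Field C] [Field K] [Algebra C K]

lemma exch {y u : K} (h : ∀ g, g ∈ cl C {y}) (hu : u ∉ cl C (∅ : Set K)) (g : K) :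
    g ∈ cl C {u} := by
  have h1 := rk_insert hu
  have h2 := rk_insert_le (k := C) (∅ : Set K) y
  rw [insert_empty_eq] at h1 h2
  exact cl_le (mem_cl_of_rk (rk_finite (Set.finite_singleton u)) (fun x _ => h x) (h1 ▸ h2)) (h g)

variable {V : ValuationSubring K} {π : K}

lemma val_sub (hC : ∀ c, algebraMap C K c ∈ V) (π1 : V.valuation π < 1) (q : C[X]) :
    V.valuation (aeval π q - algebraMap C K (q.coeff 0)) < 1 := by
  have h := horner_eq π q 0
  rw [Function.iterate_zero_apply] at h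
  rw [h, add_sub_cancel_right, map_mul, mul_comm]
  exact mul_lt_one_of_lt_of_le π1 ((V.valuation_le_one_iff _).2
    (aeval_val V hC ((V.valuation_le_one_iff _).1 π1.le) _))

lemma val_one {a b : K} (h : V.valuation (a - b) < 1) (hb : V.valuation b = 1) :
    V.valuation a = 1 := by
  have := V.valuation.map_add_eq_of_lt_right (hb ▸ h)
  rwa [sub_add_cancel, hb] at this

lemma val_poly (hC : ∀ c, algebraMap C K c ∈ V) (π1 : V.valuation π < 1) {q : C[X]}
    (hq : q.coeff 0 ≠ 0) : V.valuation (aeval π q) = 1 :=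
  val_one (val_sub hC π1 q) (val_c hC hq)

lemma nf0 {p : C[X]} (hp : p ≠ 0) : ∃ (n : ℕ) (a : C[X]), a.coeff 0 ≠ 0 ∧ p = X ^ n * a := by
  obtain ⟨a, h1, h2⟩ := exists_eq_pow_rootMultiplicity_mul_and_not_dvd p hp 0
  rw [map_zero, sub_zero] at h1 h2
  exact ⟨_, a, by rwa [X_dvd_iff] at h2, h1⟩

lemma nf (π0 : π ≠ 0) {f : K} (hf : f ∈ C⟮π⟯) (f0 : f ≠ 0) : ∃ (m : ℤ) (a b : C[X]),
    a.coeff 0 ≠ 0 ∧ b.coeff 0 ≠ 0 ∧ f = π ^ m * aeval π a / aeval π b := by
  obtain ⟨p, q, rfl⟩ := (mem_adjoin_simple_iff C f).1 hf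
  obtain ⟨n, a, ha, rfl⟩ := nf0 (p := p) fun e => f0 (by simp [e])
  obtain ⟨m, b, hb, rfl⟩ := nf0 (p := q) fun e => f0 (by simp [e])
  refine ⟨n - m, a, b, ha, hb, ?_⟩
  rw [zpow_sub₀ π0, zpow_natCast, zpow_natCast, map_mul, map_mul, map_pow, map_pow, aeval_X,
    mul_div_mul_comm, mul_div_assoc]

lemma disc (hC : ∀ c, algebraMap C K c ∈ V) (π1 : V.valuation π < 1) {m : ℤ} {a b : C[X]}
    (ha : a.coeff 0 ≠ 0) (hb : b.coeff 0 ≠ 0) :
    V.valuation (π ^ m * aeval π a / aeval π b) = V.valuation π ^ m := by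
  rw [map_div₀, map_mul, val_poly hC π1 ha, val_poly hC π1 hb, map_zpow₀, mul_one, div_one]

lemma nfV (hC : ∀ c, algebraMap C K c ∈ V) (π0 : π ≠ 0) (π1 : V.valuation π < 1) {f : K}
    (hf : f ∈ C⟮π⟯) (hV : f ∈ V) : ∃ a b : C[X], b.coeff 0 ≠ 0 ∧ f = aeval π a / aeval π b := by
  by_cases f0 : f = 0
  · exact ⟨0, 1, by simp, by simp [f0]⟩
  obtain ⟨m, a, b, ha, hb, rfl⟩ := nf π0 hf f0
  have m0 : 0 ≤ m := by
    by_contra hn
    have h1 := one_lt_zpow_of_neg₀ (by simpa [zero_lt_iff] using π0) π1 (not_le.1 hn)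
    rw [← disc hC π1 ha hb] at h1
    exact absurd ((V.valuation_le_one_iff _).2 hV) (not_le.2 h1)
  obtain ⟨n, rfl⟩ := Int.eq_ofNat_of_zero_le m0
  exact ⟨X ^ n * a, b, hb, by simp⟩

lemma div_mem' {a b : K} (ha : a ∈ V) (hb : V.valuation b = 1) : a / b ∈ V := by
  rwa [← V.valuation_le_one_iff, map_div₀, hb, div_one, V.valuation_le_one_iff]

lemma frame (hC : ∀ c, algebraMap C K c ∈ V) (π0 : π ≠ 0) (π1 : V.valuation π < 1)
    {δ : Der C K} (hδ : δ π = 1) : Frame V C⟮π⟯ π δ 0 where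
  hC := hC
  πE := mem_adjoin_simple_self C π
  π0 := π0
  π1 := π1
  disc f hf f0 := by
    obtain ⟨m, a, b, ha, hb, rfl⟩ := nf π0 hf f0
    exact ⟨m, disc hC π1 ha hb⟩
  dO f hf hV := by
    obtain ⟨a, b, hb, rfl⟩ := nfV hC π0 π1 hf hV
    have h := aeval_val V hC ((V.valuation_le_one_iff _).1 π1.le)
    have h1 : (aeval π b)⁻¹ ∈ V := by simpa using div_mem' V.one_mem (val_poly hC π1 hb)
    rw [δ.leibniz_div, δ.map_aeval, δ.map_aeval, hδ]
    simp only [smul_eq_mul, mul_one]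
    exact mul_mem (pow_mem h1 2) (sub_mem (mul_mem (h _) (h _)) (mul_mem (h _) (h _)))
  dπ := by rw [hδ, map_one]
  mon f _ := by simp

lemma resE (hC : ∀ c, algebraMap C K c ∈ V) (π0 : π ≠ 0) (π1 : V.valuation π < 1) {f : K}
    (hf : f ∈ C⟮π⟯) (hV : f ∈ V) : ∃ c, V.valuation (f - algebraMap C K c) < 1 := by
  obtain ⟨a, b, hb, rfl⟩ := nfV hC π0 π1 hf hV
  have h1 := val_poly hC π1 hb
  have h2 : aeval π b ≠ 0 := fun e => by simp [e] at h1
  have h3 := val_sub hC π1 (a - Polynomial.C (a.coeff 0 / b.coeff 0) * b)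
  refine ⟨a.coeff 0 / b.coeff 0, ?_⟩
  rw [coeff_sub, coeff_C_mul, div_mul_cancel₀ _ hb, sub_self, map_zero, sub_zero, map_sub,
    map_mul, aeval_C] at h3
  rwa [div_sub' h2, map_div₀, h1, div_one, mul_comm]

lemma resV [IsAlgClosed C] (hC : ∀ c, algebraMap C K c ∈ V) (π0 : π ≠ 0)
    (π1 : V.valuation π < 1) {g : K} (hg : IsAlgebraic C⟮π⟯ g) (hV : g ∈ V) :
    ∃ c, V.valuation (g - algebraMap C K c) < 1 := by
  by_contra hn
  push Not at hn
  have h1 : ∀ c, V.valuation (g - algebraMap C K c) = 1 := fun c =>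
    le_antisymm ((V.valuation_le_one_iff _).2 (sub_mem hV (hC c))) (hn c)
  obtain ⟨Q, p1, i, p2⟩ := prim_poly (V := V) hg
  choose c hc using fun j => resE hC π0 π1 (OO_mem (Q.coeff j)).1 (OO_mem (Q.coeff j)).2
  have hi : i ∈ Finset.range (Q.natDegree + 1) := Finset.mem_range.2 (Nat.lt_succ_of_le
    (le_natDegree_of_ne_zero fun z => by simp [z] at p2))
  set q : C[X] := ∑ j ∈ Finset.range (Q.natDegree + 1), monomial j (c j) with hq
  have q0 : q ≠ 0 := fun e => by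
    have h2 : q.coeff i = c i := by
      rw [hq, finsetSum_coeff, Finset.sum_eq_single_of_mem i hi fun j _ h => by
        rw [coeff_monomial, if_neg h], coeff_monomial, if_pos rfl]
    have h3 := hc i
    rw [← h2, e, coeff_zero, map_zero, sub_zero, p2] at h3
    exact lt_irrefl _ h3
  have h2 : V.valuation (aeval g q) = 1 := by
    rw [(IsAlgClosed.splits q).eq_prod_roots, map_mul, map_mul, aeval_C,
      val_c hC (leadingCoeff_ne_zero.2 q0), one_mul, map_multiset_prod, map_multiset_prod,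
      Multiset.map_map, Multiset.map_map]
    exact Multiset.prod_eq_one fun x hx => by
      obtain ⟨r, -, rfl⟩ := Multiset.mem_map.1 hx
      simpa using h1 r
  have h3 : -aeval g q = ∑ j ∈ Finset.range (Q.natDegree + 1),
      (algebraMap (OO V C⟮π⟯) K (Q.coeff j) - algebraMap C K (c j)) * g ^ j := by
    rw [aeval_def, eval₂_eq_sum_range] at p1
    simp only [sub_mul, Finset.sum_sub_distrib, p1, hq, map_sum, aeval_monomial, zero_sub]
  rw [← V.valuation.map_neg, h3] at h2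
  refine (V.valuation.map_sum_lt one_ne_zero fun j _ => ?_).ne h2
  rw [map_mul]
  exact mul_lt_one_of_lt_of_le (hc j) ((V.valuation_le_one_iff _).2 (pow_mem hV j))

lemma place [CharZero C] [IsAlgClosed C] [CharZero K] (d : Der C K)
    (hC : ∀ c, algebraMap C K c ∈ V) (π0 : π ≠ 0) (π1 : V.valuation π < 1) (hd : d π ≠ 0)
    (ha : ∀ g : K, IsAlgebraic C⟮π⟯ g) : ∃ P : Pl d, ∀ g, P.G 0 g ↔ g ∈ V := by
  classical
  have hδ : ((d π)⁻¹ • d) π = 1 := by simp [hd]
  have fr := frame hC π0 π1 hδ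
  choose e k he hk using fun (g : K) (g0 : g ≠ 0) => val_pow fr (ha g) g0
  let o : K → ℚ := fun g => if h : g = 0 then 0 else k g h / e g h
  have o0 : o 0 = 0 := dif_pos rfl
  have o1 : ∀ {g} (h : g ≠ 0), o g = k g h / e g h := fun h => dif_neg h
  have le : ∀ {g h}, g ≠ 0 → h ≠ 0 → (V.valuation h ≤ V.valuation g ↔ o g ≤ o h) := fun g0 h0 => by
    rw [o1 g0, o1 h0]; exact cmp (vπ_pos fr) π1 (he _ _) (he _ _) (hk _ _) (hk _ _)
  have eq : ∀ {g} {n : ℕ} {m : ℤ}, g ≠ 0 → n ≠ 0 → V.valuation g ^ n = V.valuation π ^ m →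
      o g = m / n := fun g0 n0 h => by
    rw [o1 g0]
    exact le_antisymm ((cmp (vπ_pos fr) π1 (he _ _) n0 (hk _ _) h).1 le_rfl)
      ((cmp (vπ_pos fr) π1 n0 (he _ _) h (hk _ _)).1 le_rfl)
  have cst : ∀ c, o (algebraMap C K c) = 0 := fun c => by
    by_cases h : c = 0
    · rw [h, map_zero, o0]
    · simpa using eq (n := 1) (m := 0) ((_root_.map_ne_zero _).2 h) one_ne_zero (by simp [val_c hC h])
  have one : o 1 = 0 := by simpa using cst 1
  have pos : ∀ {g}, V.valuation g < 1 → g = 0 ∨ 0 < o g := fun {g} h =>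
    or_iff_not_imp_left.2 fun g0 => by
      rw [← one, ← not_le, ← le g0 one_ne_zero, map_one, not_le]; exact h
  have mem : ∀ g, (g = 0 ∨ 0 ≤ o g) ↔ g ∈ V := fun g => by
    by_cases g0 : g = 0
    · simp [g0]
    · rw [← one, ← le one_ne_zero g0, map_one, V.valuation_le_one_iff, or_iff_right g0]
  have lg : ∀ {g}, g ≠ 0 → V.valuation (π * ((d π)⁻¹ * d g) / g - algebraMap C K (o g : C)) < 1 :=
    fun {g} g0 => by
      have h := Fra.log fr (mem_cl_iff.2 (ha g)) g0 (hk g g0)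
      have h1 : (e g g0 : K) ≠ 0 := Nat.cast_ne_zero.2 (he g g0)
      rw [hδ, mul_one, Derivation.smul_apply, smul_eq_mul] at h
      rw [o1 g0, map_ratCast, Rat.cast_div, Rat.cast_intCast, Rat.cast_natCast, sub_div' h1,
        map_div₀, val_n hC (he g g0), div_one, mul_comm]
      exact h
  refine ⟨⟨o, fun {a b} a0 b0 => ?_, fun {a b} a0 b0 h => ?_, cst, fun {g} h => ?_,
    fun {u g} hu g0 => pos ?_⟩, mem⟩
  · have h1 : (e a a0 : ℚ) ≠ 0 := Nat.cast_ne_zero.2 (he a a0)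
    have h2 : (e b b0 : ℚ) ≠ 0 := Nat.cast_ne_zero.2 (he b b0)
    rw [eq (n := e a a0 * e b b0) (m := k a a0 * e b b0 + k b b0 * e a a0) (mul_ne_zero a0 b0)
      (mul_ne_zero (he _ _) (he _ _)) ?_, o1 a0, o1 b0]
    · push_cast; field_simp
    · rw [map_mul, mul_pow, pow_mul, hk, mul_comm (e a a0), pow_mul, hk,
        zpow_add₀ (vπ_pos fr).ne', zpow_mul, zpow_mul, zpow_natCast, zpow_natCast]
  · rcases le_max_iff.1 (V.valuation.map_add a b) with h1 | h1
    · exact (min_le_left _ _).trans ((le a0 h).1 h1)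
    · exact (min_le_right _ _).trans ((le b0 h).1 h1)
  · obtain ⟨c, hc⟩ := resV hC π0 π1 (ha g) ((mem g).1 (Or.inr h.ge))
    exact ⟨c, pos hc⟩
  · have u0 : u ≠ 0 := fun z => hu (z ▸ o0)
    have b0 : (o u : C) ≠ 0 := Rat.cast_ne_zero.2 hu
    have h1 := lg g0
    have h2 := lg u0
    have h3 := val_one h2 (val_c hC b0)
    have h4 : d u ≠ 0 := fun z => by simp [z] at h3
    have h5 : algebraMap C K (o u : C) ≠ 0 := (_root_.map_ne_zero _).2 b0
    have h6 := V.valuation.map_sub_lt h1 (map_mul V.valuation _ _ ▸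
      mul_lt_one_of_lt_of_le h2 ((V.valuation_le_one_iff _).2 (hC (o g / o u : C))))
    have h7 : u * d g / (g * d u) - algebraMap C K ((o g / o u : ℚ) : C) =
        (π * ((d π)⁻¹ * d g) / g - algebraMap C K (o g : C) -
          (π * ((d π)⁻¹ * d u) / u - algebraMap C K (o u : C)) * algebraMap C K (o g / o u : C)) /
          (π * ((d π)⁻¹ * d u) / u) := by
      rw [Rat.cast_div, map_div₀]
      field_simp
      ring
    rwa [h7, map_div₀, h3, div_one]

end Ex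

open Ex

theorem ex : StmtEX := by
  intro C K _ _ _ _ _ _ d y hy h
  have h1 : ∀ g, g ∈ cl C {y} := fun g => cl_adjoin (C := C) {y} ▸ mem_cl_iff.2 (h g)
  have cst : ∀ g, d g = 0 → ∃ c, g = algebraMap C K c := fun g hg => by
    by_cases h2 : g ∈ cl C (∅ : Set K)
    · obtain ⟨c, hc⟩ := IntermediateField.mem_bot.1 (mem_bot_of_cl h2)
      exact ⟨c, hc.symm⟩
    · exact absurd (kill_cl (S := {g}) (by simpa using hg) (exch h1 h2 y)) hy
  have alg : ∀ u, d u ≠ 0 → ∀ g : K, IsAlgebraic C⟮u⟯ g := fun u hu g =>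
    mem_cl_iff.1 ((cl_adjoin (C := C) {u}).symm ▸
      exch h1 (fun e => hu (kill_cl (S := ∅) (by simp) e)) g)
  refine ⟨cst, alg, fun S g hg => int_of_val fun V hV => by_contra fun hn => ?_⟩
  have hC : ∀ c, algebraMap C K c ∈ V := fun c => hV ⟨_, S.algebraMap_mem c⟩
  have π0 : g⁻¹ ≠ 0 := inv_ne_zero fun e => hn (e ▸ V.zero_mem)
  have π1 : V.valuation g⁻¹ < 1 := by
    rw [← V.valuation_le_one_iff, not_le] at hn
    rw [map_inv₀]
    exact inv_lt_one_of_one_lt₀ hn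
  have hd : d g⁻¹ ≠ 0 := fun e => by
    obtain ⟨c, hc⟩ := cst _ e
    rw [hc, val_c hC fun z => π0 (by rw [hc, z, map_zero])] at π1
    exact lt_irrefl _ π1
  obtain ⟨P, hP⟩ := place d hC π0 π1 hd (alg _ hd)
  exact hn ((hP g).1 (hg P fun r hr => (hP r).2 (hV ⟨r, hr⟩)))

end Pool.Agent.MP_249f74_an.H53
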