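import Pool.Agent.MP_249f74_an.H53.Spec

/-!
Bounded ramification at infinity, and curves with two parametrizations by roots.
-/

open Polynomial IntermediateField

namespace Pool.Agent.MP_249f74_an.H53

open H17 (Der)

namespace Aff

variable {C K : Type} [Field C] [CharZero C] [Field K] [Algebra C K] {d : Der C K} {P : Pl d}
  {x g : K}

lemma ordE (h : P.o x < 0) (hg : g ∈ C⟮x⟯) : ∃ j : ℤ, P.o g = j * P.o x := by
  obtain ⟨r, s, rfl⟩ := (mem_adjoin_simple_iff C g).1 hg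
  by_cases hr : r = 0
  · exact ⟨0, by simp [hr]⟩
  by_cases hs : s = 0
  · exact ⟨0, by simp [hs]⟩
  obtain ⟨r1, r2⟩ := Pl.o_inf h hr
  obtain ⟨s1, s2⟩ := Pl.o_inf h hs
  exact ⟨r.natDegree - s.natDegree, by rw [Pl.o_div r1 s1, r2, s2]; push_cast; ring⟩

/-- In a vanishing sum the least order is attained twice. -/
lemma two {S : Finset ℕ} {f : ℕ → K} (h : ∑ i ∈ S, f i = 0) {k : ℕ} (hk : k ∈ S) (h0 : f k ≠ 0) :
    ∃ i ∈ S, ∃ j ∈ S, i ≠ j ∧ f i ≠ 0 ∧ f j ≠ 0 ∧ P.o (f i) = P.o (f j) := by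
  classical
  obtain ⟨i, hi, hm⟩ := (S.filter fun i => f i ≠ 0).exists_min_image (fun i => P.o (f i))
    ⟨k, Finset.mem_filter.2 ⟨hk, h0⟩⟩
  obtain ⟨i1, i2⟩ := Finset.mem_filter.1 hi
  by_contra hn
  refine (Pl.o_add (P := P) i2 (Pl.L.sum (S := S.erase i) (f := f) fun j hj => ?_)).1
    (by rwa [Finset.add_sum_erase _ _ i1])
  obtain ⟨j1, j2⟩ := Finset.mem_erase.1 hj
  by_cases c : f j = 0
  · exact Or.inl c
  exact Or.inr ((hm j (Finset.mem_filter.2 ⟨j2, c⟩)).lt_of_ne fun e =>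
    hn ⟨i, i1, j, j2, j1.symm, i2, c, e⟩)

omit [CharZero C] in
lemma poly [IsAlgClosed C] {s u : K} (hs : d s ≠ 0) (hu : u ∈ C⟮s⟯) {n : ℕ} (hn : n ≠ 0)
    {Q : C[X]} (h : u ^ n = aeval s Q) : ∃ R : C[X], u = aeval s R := by
  obtain ⟨r, q, rfl⟩ := (mem_adjoin_simple_iff C u).1 hu
  by_cases hq : aeval s q = 0
  · exact ⟨0, by simp [hq]⟩
  obtain ⟨R, rfl⟩ := (IsIntegrallyClosed.pow_dvd_pow_iff hn).1 (show q ^ n ∣ r ^ n from
    ⟨Q, aeval_inj hs (by rw [map_mul, map_pow, map_pow, ← h, ← mul_pow, mul_div_cancel₀ _ hq])⟩)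
  exact ⟨R, by rw [map_mul]; field_simp⟩

omit [CharZero C] in
lemma aeval_mem (s : K) (q : C[X]) : aeval s q ∈ C⟮s⟯ :=
  (mem_adjoin_simple_iff C _).2 ⟨q, 1, by simp⟩

end Aff

theorem den : StmtDEN := by
  intro C K _ _ _ _ _ _ d x y h hx
  have := adjoin.finiteDimensional (h.alg x hx y).isIntegral
  refine ⟨(Module.finrank C⟮x⟯ C⟮x⟯⟮y⟯).factorial, Nat.factorial_pos _, fun P hP g hg => ?_⟩
  by_cases g0 : g = 0
  · exact ⟨0, by simp [g0]⟩
  rw [← adjoin_simple_adjoin_simple] at hg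
  have h1 := minpoly.natDegree_le (A := C⟮x⟯) (⟨g, hg⟩ : C⟮x⟯⟮y⟯)
  rw [IntermediateField.minpoly_eq] at h1
  have h2 := minpoly.aeval C⟮x⟯ g
  have h3 := minpoly.monic (h.alg x hx g).isIntegral
  rw [aeval_eq_sum_range] at h2
  obtain ⟨i, hi, j, hj, e, i0, j0, k⟩ := Aff.two (P := P) h2 (Finset.self_mem_range_succ _)
    (by rw [h3.coeff_natDegree, one_smul]; exact pow_ne_zero _ g0)
  rw [Algebra.smul_def] at i0 j0 k
  rw [Algebra.smul_def, P.mul (left_ne_zero_of_mul i0) (pow_ne_zero _ g0),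
    P.mul (left_ne_zero_of_mul j0) (pow_ne_zero _ g0), Pl.o_pow, Pl.o_pow] at k
  obtain ⟨a, ha⟩ := Aff.ordE hP ((minpoly C⟮x⟯ g).coeff i).2
  obtain ⟨b, hb⟩ := Aff.ordE hP ((minpoly C⟮x⟯ g).coeff j).2
  rw [Finset.mem_range] at hi hj
  obtain ⟨c, hc⟩ : ((i : ℤ) - j) ∣ (Module.finrank C⟮x⟯ C⟮x⟯⟮y⟯).factorial :=
    Int.natAbs_dvd.1 (Int.natCast_dvd_natCast.2 (Nat.dvd_factorial (by omega)
      (by simp only at h1; omega)))
  have hc' : ((Module.finrank C⟮x⟯ C⟮x⟯⟮y⟯).factorial : ℚ) = (i - j) * c := by exact_mod_cast hc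
  refine ⟨c * (b - a), ?_⟩
  rw [hc']
  push_cast
  change P.o ((minpoly C⟮x⟯ g).coeff i : K) + _ = P.o ((minpoly C⟮x⟯ g).coeff j : K) + _ at k
  rw [ha, hb] at k
  linear_combination c * k

theorem aff : StmtAFF := by
  intro C K _ _ _ _ _ _ d x y t s a b n m p q _ hx ht hs e1 e2 hp e3 e4
  have e1' : x = aeval t (X ^ n + Polynomial.C a) := by simp [← e1]
  have e3' : y = aeval s (X ^ m + Polynomial.C b) := by simp [← e3]
  have n0 : n ≠ 0 := fun e => hx (by simp [e1', e])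
  have dt : d t ≠ 0 := fun e => hx (by rw [e1', d.map_aeval, e, smul_zero])
  have ds : d s ≠ 0 := fun e => hx (by rw [e4, d.map_aeval, e, smul_zero])
  by_cases m0 : m = 0
  · exact Or.inl (Con.line (a := 0) (b := 1 + b) (by simp [e3', m0]))
  have l : ∀ (u : K) (f g : C[X]), x = aeval u f → y = aeval u g → C⟮x, y⟯ ≤ C⟮u⟯ :=
    fun u f g h1 h2 => adjoin_le_iff.2 (by
      rintro _ (rfl | rfl)
      exacts [h1 ▸ Aff.aeval_mem u f, h2 ▸ Aff.aeval_mem u g])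
  obtain ⟨R, hR⟩ := Aff.poly ds (l s _ _ e4 e3' ht) n0 (Q := q - Polynomial.C a)
    (by simp [← e1, ← e4])
  obtain ⟨S, hS⟩ := Aff.poly dt (l t _ _ e1' e2 hs) m0 (Q := p - Polynomial.C b)
    (by simp [← e3, ← e2])
  have h1 : R.comp S = X := aeval_inj dt (by rw [aeval_comp, ← hS, ← hR, aeval_X])
  have h2 : S.natDegree = 1 := Nat.eq_one_of_mul_eq_one_left
    (by rw [← natDegree_comp, h1, natDegree_X])
  have h3 : p - Polynomial.C b = S ^ m := aeval_inj dt (by simp [← hS, ← e3, ← e2])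
  obtain rfl : n = m := by
    rw [← hp, ← natDegree_sub_C (a := b), h3, natDegree_pow, h2, mul_one]
  obtain ⟨α, α0, β, rfl⟩ := natDegree_eq_one.1 h2
  have a0 : algebraMap C K α ≠ 0 := by simpa using α0
  simp only [map_add, map_mul, aeval_C, aeval_X] at hS
  by_cases β0 : β = 0
  · refine Or.inl (Con.line (a := α ^ n) (b := b - α ^ n * a) ?_)
    rw [hS, β0, map_zero, add_zero, mul_pow, ← e1] at e3
    rw [map_sub, map_mul, map_pow]
    linear_combination e3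
  have b0 : algebraMap C K β ≠ 0 := by simpa using β0
  refine Or.inr ⟨-(algebraMap C K α * t) / algebraMap C K β, (-β / α) ^ n, (-β) ^ n,
    pow_ne_zero _ (div_ne_zero (neg_ne_zero.2 β0) α0), pow_ne_zero _ (neg_ne_zero.2 β0), ?_, ?_⟩
  · rw [map_pow, ← mul_pow, ← sub_eq_iff_eq_add', e1, map_div₀, map_neg]
    congr 1
    field_simp
  · rw [map_pow, ← mul_pow, ← sub_eq_iff_eq_add', e3, hS, map_neg]
    congr 1
    field_simp
    ring

end Pool.Agent.MP_249f74_an.H53
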