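import Pool.Agent.MP_249f74_an.H53.Spec

/-!
Explicit conics.
-/

open Polynomial IntermediateField

namespace Pool.Agent.MP_249f74_an.H53

open H17 (Der)

namespace Con31

variable {C K : Type} [Field C] [Field K] [Algebra C K]

lemma mult_le {B : C[X]} (hB : B ≠ 0) (a : C) : rootMultiplicity a B ≤ B.natDegree := by
  simpa using natDegree_le_of_dvd (pow_rootMultiplicity_dvd B a) hB

lemma eq_of_dvd {B q : C[X]} {J : ℕ} (hB : B ≠ 0) (hd : B.natDegree ≤ J) (hq : q.Monic)
    (hJ : q.natDegree = J) (h : q ∣ B) : B.coeff J ≠ 0 ∧ B = Polynomial.C (B.coeff J) * q := by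
  have h1 : B.natDegree = J := le_antisymm hd (hJ ▸ natDegree_le_of_dvd h hB)
  have h2 : B.coeff J = B.leadingCoeff := by rw [leadingCoeff, h1]
  rw [h2]
  exact ⟨leadingCoeff_ne_zero.2 hB,
    eq_leadingCoeff_mul_of_monic_of_dvd_of_natDegree_le hq h (by rw [h1, hJ])⟩

lemma pm_one {r : ℚ} {J : ℕ} (hJ : 0 < J) (h : r ^ J = (-1) ^ J) : r = 1 ∨ r = -1 := by
  have h1 : |r| ^ J = 1 := by rw [← abs_pow, h, abs_pow, abs_neg, abs_one, one_pow]
  exact (abs_eq zero_le_one).1 ((pow_eq_one_iff_of_nonneg (abs_nonneg r) hJ.ne').1 h1)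

variable [CharZero C] [IsAlgClosed C] [CharZero K] {d : Der C K} {x y : K} {J : ℕ} {A B : C[X]}

omit [IsAlgClosed C] in
lemma full (hF : Fld d) (h : Eq0 d x y J A B) {a b : C} (ha : J ≤ rootMultiplicity a B)
    (hb : J ≤ rootMultiplicity b A) (P : Pl d) (hu : P.o (x - algebraMap C K a) ≠ 0) :
    ∃ r : ℚ, (r = 1 ∨ r = -1) ∧ P.o (y - algebraMap C K b) = r * P.o (x - algebraMap C K a) ∧
      (x - algebraMap C K a) * d y = r * ((y - algebraMap C K b) * d x) := by
  obtain ⟨b0, hB⟩ := eq_of_dvd h.B0 h.dB ((monic_X_sub_C a).pow J) (by simp)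
    ((le_rootMultiplicity_iff h.B0).1 ha)
  obtain ⟨a0, hA⟩ := eq_of_dvd h.A0 h.dA ((monic_X_sub_C b).pow J) (by simp)
    ((le_rootMultiplicity_iff h.A0).1 hb)
  have u0 := Pl.ne_zero hu
  have v0 : y - algebraMap C K b ≠ 0 := fun e => h.dy (by rw [sub_eq_zero.1 e, d.map_algebraMap])
  have h1 := h.lam (u := x - algebraMap C K a) (v := y - algebraMap C K b) (by simp) (by simp) v0
  have h2 := Pl.R_log hu v0
  have hdx := h.dx
  rw [hB, hA, h.top] at h1
  simp only [map_mul, map_pow, map_sub, aeval_C, aeval_X, map_neg, map_one, d.map_algebraMap,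
    sub_zero] at h1 h2
  generalize x - algebraMap C K a = u at *
  generalize y - algebraMap C K b = v at *
  have a1 : algebraMap C K (A.coeff J) ≠ 0 := by simpa using a0
  have h3 : (u * d y / (v * d x)) ^ J = algebraMap C K ((-1) ^ J) := by
    have e : ((-1 : K) ^ J) * (-1) ^ J = 1 := by rw [← mul_pow]; simp
    refine mul_left_cancel₀ (mul_ne_zero (mul_ne_zero a1 (pow_ne_zero J u0)) (pow_ne_zero J v0)) ?_
    rw [map_pow, map_neg, map_one]
    linear_combination (-1) ^ J * h1 -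
      algebraMap C K (A.coeff J) * u ^ J * v ^ J * (u * d y / (v * d x)) ^ J * e
  obtain ⟨ζ, hζ⟩ := hF.root h.J0.ne' h3
  have h4 : ζ = ((P.o v / P.o u : ℚ) : C) := (hζ ▸ Pl.R.cst ζ : P.R _ ζ).unique h2
  refine ⟨P.o v / P.o u, pm_one h.J0 ?_, by field_simp, ?_⟩
  · rw [hζ, ← map_pow, h4] at h3
    exact_mod_cast (algebraMap C K).injective h3
  · rw [h4, map_ratCast] at hζ
    rw [← hζ]
    field_simp

omit [CharZero K] in
lemma side (h : Eq0 d x y J A B) (P : Pl d) (h1 : P.o y < 0) (h2 : P.o y < P.o x) :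
    (∃ a, 0 < P.o (x - algebraMap C K a) ∧ J ≤ rootMultiplicity a B ∧ A.natDegree = J) ∨
      (B.natDegree < A.natDegree ∧ A.natDegree < J) := by
  have dA : (A.natDegree : ℚ) ≤ J := by exact_mod_cast h.dA
  rcases le_or_gt 0 (P.o x) with h3 | h3
  · obtain ⟨a, ha⟩ := Pl.ex_pt h.dx h3
    have h4 := h.ord P (a := a) (b := 0) ha.ne' (by simpa using h1.ne)
    rw [(Pl.o_fin ha h.B0).2, (Pl.o_inf h1 h.A0).2, map_zero, sub_zero] at h4
    have h5 : (rootMultiplicity a B : ℚ) ≤ J := by exact_mod_cast (mult_le h.B0 a).trans h.dB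
    refine Or.inl ⟨a, ha, ?_, ?_⟩
    · have : (J : ℚ) ≤ rootMultiplicity a B := by nlinarith
      exact_mod_cast this
    · have : (J : ℚ) ≤ A.natDegree := by nlinarith
      exact le_antisymm h.dA (by exact_mod_cast this)
  · have h4 := h.ord P (a := 0) (b := 0) (by simpa using h3.ne) (by simpa using h1.ne)
    rw [(Pl.o_inf h3 h.B0).2, (Pl.o_inf h1 h.A0).2, map_zero, sub_zero, sub_zero] at h4
    have h5 : A.natDegree < J := by
      refine lt_of_le_of_ne h.dA fun e => ?_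
      have x0 := Pl.ne_zero h3.ne
      have y0 := Pl.ne_zero h1.ne
      have h6 := ((Pl.R_inf h3 h.dB).mul ((Pl.R_log h3.ne y0).pow J))
      have h7 := h.lam rfl rfl y0
      have h8 : aeval x B / x ^ J * (x * d y / (y * d x)) ^ J = aeval y A / y ^ J := by
        rw [div_mul_eq_mul_div, div_eq_div_iff (pow_ne_zero _ x0) (pow_ne_zero _ y0), h7]
      rw [h8] at h6
      have h9 := h6.unique (Pl.R_inf h1 h.dA)
      have a0 : A.coeff J ≠ 0 := e ▸ leadingCoeff_ne_zero.2 h.A0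
      rw [h.top] at h9
      have e2 : ((-1 : C) ^ J) * (-1) ^ J = 1 := by rw [← mul_pow]; simp
      have h10 : ((P.o y / P.o x : ℚ) : C) ^ J = (-1) ^ J :=
        mul_left_cancel₀ a0 (by
          linear_combination (-1) ^ J * h9 - A.coeff J * ((P.o y / P.o x : ℚ) : C) ^ J * e2)
      have h11 := pm_one (r := P.o y / P.o x) h.J0 (by exact_mod_cast h10)
      rw [div_eq_iff h3.ne, div_eq_iff h3.ne] at h11
      rcases h11 with h11 | h11 <;> linarith
    have h6 : (A.natDegree : ℚ) < J := by exact_mod_cast h5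
    have : (B.natDegree : ℚ) < A.natDegree := by nlinarith
    exact Or.inr ⟨by exact_mod_cast this, h5⟩

omit [CharZero C] [IsAlgClosed C] [CharZero K] in
lemma two (hB : B ≠ 0) (hd : B.natDegree ≤ J) (h : Two J B) :
    ∃ a1 a2 : C, a1 ≠ a2 ∧ J = 2 * (J / 2) ∧ B.coeff J ≠ 0 ∧
      B = Polynomial.C (B.coeff J) * ((X - Polynomial.C a1) * (X - Polynomial.C a2)) ^ (J / 2) := by
  obtain ⟨a1, a2, h0, h1, h2⟩ := h
  have h3 := ((isCoprime_X_sub_C_of_isUnit_sub (sub_ne_zero.2 h0).isUnit).pow).mul_dvd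
    (pow_rootMultiplicity_dvd B a1) (pow_rootMultiplicity_dvd B a2)
  have h4 := natDegree_le_of_dvd h3 hB
  rw [((monic_X_sub_C a1).pow _).natDegree_mul ((monic_X_sub_C a2).pow _)] at h4
  simp only [natDegree_pow, natDegree_X_sub_C, mul_one] at h4
  have e1 : rootMultiplicity a1 B = J / 2 := by omega
  have e2 : rootMultiplicity a2 B = J / 2 := by omega
  rw [e1, e2, ← mul_pow] at h3
  refine ⟨a1, a2, h0, by omega, eq_of_dvd hB hd (((monic_X_sub_C a1).mul (monic_X_sub_C a2)).pow _)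
    ?_ h3⟩
  rw [natDegree_pow, (monic_X_sub_C a1).natDegree_mul (monic_X_sub_C a2)]
  simp only [natDegree_X_sub_C]
  omega

omit [IsAlgClosed C] [CharZero K] in
lemma R_q {P : Pl d} (h : P.o x < 0) (a1 a2 : C) :
    P.R ((x - algebraMap C K a1) * (x - algebraMap C K a2) / x ^ 2) 1 := by
  have hm := (monic_X_sub_C a1).mul (monic_X_sub_C a2)
  have hd : ((X - Polynomial.C a1) * (X - Polynomial.C a2)).natDegree = 2 := by
    rw [(monic_X_sub_C a1).natDegree_mul (monic_X_sub_C a2)]; simp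
  have := Pl.R_inf h hd.le
  rw [← hd, hm.coeff_natDegree, hd] at this
  simpa using this

end Con31

open Con31

theorem circ : StmtCIRC := by
  rintro C K _ _ _ _ _ _ d x y J A B hF h ⟨P, h1, h2⟩ ⟨Q, h3, h4⟩
  rcases side h P h1 h2 with ⟨a, ha, ha1, ha2⟩ | h5 <;>
    rcases side h.symm Q h3 h4 with ⟨b, hb, hb1, hb2⟩ | h6
  · obtain ⟨r, hr, e1, e2⟩ := full hF h ha1 hb1 P ha.ne'
    rw [Pl.o_sub_inf h1] at e1
    obtain rfl : r = -1 := hr.resolve_left fun e => by rw [e] at e1; linarith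
    obtain ⟨k, hk⟩ := hF.cst ((x - algebraMap C K a) * (y - algebraMap C K b)) (by
      simp only [d.leibniz, map_sub, d.map_algebraMap, sub_zero, smul_eq_mul]
      push_cast at e2
      linear_combination e2)
    refine ⟨0, 1, 0, -b, -a, a * b - k, by simp, ?_⟩
    simp only [map_zero, map_one, map_neg, map_sub, map_mul]
    linear_combination hk
  all_goals omega

theorem pos : StmtPOS := by
  intro C K _ _ _ _ _ _ d x y J A B a hF h hn ha
  obtain ⟨P, hP⟩ := hF.ex_fin h.dx a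
  obtain ⟨b, hb⟩ := hn.ex_pt h.dy hP
  have h1 := h.nu P hP hb
  rw [le_antisymm ((mult_le h.B0 a).trans h.dB) ha, sub_self, zero_mul] at h1
  have h2 : (J : ℚ) = rootMultiplicity b A :=
    sub_eq_zero.1 ((mul_eq_zero.1 h1.symm).resolve_right hb.ne')
  obtain ⟨r, hr, e1, e2⟩ := full hF h ha (b := b) (by exact_mod_cast h2.le) P hP.ne'
  obtain rfl : r = 1 := hr.resolve_right fun e => by rw [e] at e1; linarith
  have u0 := Pl.ne_zero hP.ne'
  obtain ⟨k, hk⟩ := hF.cst ((y - algebraMap C K b) / (x - algebraMap C K a)) (by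
    rw [d.leibniz_div]
    simp only [map_sub, d.map_algebraMap, sub_zero, smul_eq_mul]
    push_cast at e2
    rw [e2]; ring)
  rw [div_eq_iff u0] at hk
  exact Con.line (a := k) (b := b - k * a) (by rw [map_sub, map_mul]; linear_combination hk)

theorem tt : StmtTT := by
  intro C K _ _ _ _ _ _ d x y J A B hF h hn hA hB
  obtain ⟨a1, a2, -, hJ, b0, eB⟩ := two h.B0 h.dB hB
  obtain ⟨b1, b2, hb, -, -, eA⟩ := two h.A0 h.dA hA
  have hx := h.dx
  have hy := h.dy
  have e0 := h.e0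
  have ht : A.coeff J = B.coeff J := by rw [h.top, hJ, pow_mul]; simp
  have hm : J / 2 ≠ 0 := by have := h.J0; omega
  rw [eB, eA, ht] at e0
  generalize J / 2 = m at *
  subst hJ
  simp only [map_mul, map_pow, map_sub, aeval_C, aeval_X] at e0
  have v0 : ∀ b, y - algebraMap C K b ≠ 0 := fun b e =>
    hy (by rw [sub_eq_zero.1 e, d.map_algebraMap])
  have q0 := mul_ne_zero (v0 b1) (v0 b2)
  have b3 : algebraMap C K (B.coeff (2 * m)) ≠ 0 := by simpa using b0
  obtain ⟨ζ, hζ⟩ := hF.root (g := (x - algebraMap C K a1) * (x - algebraMap C K a2) * d y ^ 2 /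
    ((y - algebraMap C K b1) * (y - algebraMap C K b2) * d x ^ 2)) hm (c := 1) (by
      rw [map_one, div_pow, div_eq_one_iff_eq (pow_ne_zero _ (mul_ne_zero q0 (pow_ne_zero _ hx))),
        mul_pow _ (d y ^ 2), mul_pow _ (d x ^ 2), ← pow_mul, ← pow_mul]
      exact mul_left_cancel₀ b3 (by linear_combination e0))
  obtain ⟨P, hP⟩ := hF.ex_inf hx
  have hQ := hn P (Or.inl hP)
  have x0 := Pl.ne_zero hP.ne
  have y0 := Pl.ne_zero (hQ ▸ hP).ne
  have h1 := ((R_q hP a1 a2).mul ((Pl.R_log hP.ne y0).pow 2)).div (R_q (hQ ▸ hP) b1 b2) one_ne_zero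
  have h2 : (x - algebraMap C K a1) * (x - algebraMap C K a2) / x ^ 2 * (x * d y / (y * d x)) ^ 2 /
      ((y - algebraMap C K b1) * (y - algebraMap C K b2) / y ^ 2) = algebraMap C K ζ := by
    have := v0 b1
    have := v0 b2
    rw [← hζ]; field_simp
  rw [h2, ← hQ, div_self hP.ne] at h1
  obtain rfl : ζ = 1 := by simpa using (Pl.R.cst ζ).unique h1
  rw [map_one, div_eq_one_iff_eq (mul_ne_zero q0 (pow_ne_zero _ hx))] at hζ
  obtain ⟨w, hw⟩ : ∃ w, d x = w * d y := ⟨d x / d y, by field_simp⟩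
  have w0 : w ≠ 0 := fun e => hx (by rw [hw, e, zero_mul])
  have h3 : (x - algebraMap C K a1) * (x - algebraMap C K a2) =
      w * w * ((y - algebraMap C K b1) * (y - algebraMap C K b2)) :=
    mul_right_cancel₀ (pow_ne_zero 2 hy) (by rw [hζ, hw]; ring)
  have h4 := congrArg d h3
  simp only [d.leibniz, map_sub, d.map_algebraMap, sub_zero, smul_eq_mul] at h4
  obtain ⟨k, hk⟩ := hF.cst ((x - algebraMap C K a1 + (x - algebraMap C K a2)) *
    (y - algebraMap C K b1 + (y - algebraMap C K b2)) -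
      algebraMap C K 4 * (w * ((y - algebraMap C K b1) * (y - algebraMap C K b2)))) (by
    simp only [d.leibniz, map_sub, map_add, d.map_algebraMap, sub_zero, smul_eq_mul]
    refine mul_left_cancel₀ w0 ?_
    rw [hw] at h4 ⊢
    rw [map_ofNat]
    linear_combination 2 * h4)
  refine ⟨4 * (b1 - b2) ^ 2, -8 * k, 4 * (a1 - a2) ^ 2, -4 * (b1 - b2) ^ 2 * (a1 + a2) +
    4 * k * (b1 + b2), -4 * (a1 - a2) ^ 2 * (b1 + b2) + 4 * k * (a1 + a2),
    (b1 - b2) ^ 2 * (a1 + a2) ^ 2 + (a1 - a2) ^ 2 * (b1 + b2) ^ 2 - 2 * k * (a1 + a2) * (b1 + b2) +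
      k ^ 2 - (a1 - a2) ^ 2 * (b1 - b2) ^ 2, fun e => hb ?_, ?_⟩
  · simpa [sub_eq_zero] using e.1
  · simp only [map_mul, map_add, map_sub, map_pow, map_neg, map_ofNat] at hk ⊢
    rw [← hk]
    linear_combination (-16 * ((y - algebraMap C K b1) * (y - algebraMap C K b2))) * h3

end Pool.Agent.MP_249f74_an.H53
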