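import Pool.Agent.MP_249f74_an.H53.Spec

/-!
Orders in the second equation at a finite place.
-/

open Polynomial

namespace Pool.Agent.MP_249f74_an.H53

open H17 (Der)

namespace Loc

variable {C K : Type} [Field C] [CharZero C] [IsAlgClosed C] [Field K] [Algebra C K]
  {d : Der C K} {P : Pl d} {x : K} {a : C} {B : C[X]}

lemma nat_of_int {p q : ℚ} (hp : 0 < p) (hq : 0 < q) {i : ℤ} (h : q = i * p) :
    ∃ k : ℕ, q = k * p := by
  have h1 : (0 : ℚ) < i := by
    by_contra h2
    nlinarith [not_lt.1 h2]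
  obtain ⟨k, rfl⟩ := Int.eq_ofNat_of_zero_le (a := i) (by exact_mod_cast h1.le)
  exact ⟨k, by simpa using h⟩

omit [IsAlgClosed C] in
/-- The residue of the logarithmic derivative of a polynomial. -/
lemma res (hx : d x ≠ 0) (hu : 0 < P.o (x - algebraMap C K a)) (hB : B ≠ 0) :
    P.R ((x - algebraMap C K a) * aeval x (derivative B) / aeval x B)
      ((rootMultiplicity a B : ℚ) : C) := by
  obtain ⟨h1, h2⟩ := Pl.o_fin hu hB
  have h3 := Pl.R_log hu.ne' h1
  rw [h2, mul_div_cancel_right₀ _ hu.ne', d.map_aeval] at h3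
  convert h3 using 1
  simp only [map_sub, d.map_algebraMap, sub_zero, smul_eq_mul]
  field_simp

omit [IsAlgClosed C] in
/-- The order of a quotient of polynomials. -/
lemma ord (hu : 0 < P.o (x - algebraMap C K a)) (hB : B ≠ 0) {F : C[X]} (hF : F ≠ 0) :
    (x - algebraMap C K a) ^ 2 * aeval x F / aeval x B ≠ 0 ∧
      P.o ((x - algebraMap C K a) ^ 2 * aeval x F / aeval x B) =
        ((2 + rootMultiplicity a F - rootMultiplicity a B : ℤ) : ℚ) *
          P.o (x - algebraMap C K a) := by
  obtain ⟨h1, h2⟩ := Pl.o_fin hu hB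
  obtain ⟨h3, h4⟩ := Pl.o_fin hu hF
  have h5 : (x - algebraMap C K a) ^ 2 ≠ 0 := pow_ne_zero _ (Pl.ne_zero hu.ne')
  refine ⟨div_ne_zero (mul_ne_zero h5 h3) h1, ?_⟩
  rw [Pl.o_div (mul_ne_zero h5 h3) h1, P.mul h5 h3, Pl.o_pow, h2, h4]
  push_cast
  ring

omit [IsAlgClosed C] in
lemma ord' (hu : 0 < P.o (x - algebraMap C K a)) (hB : B ≠ 0) (F : C[X])
    (h : (x - algebraMap C K a) ^ 2 * aeval x F / aeval x B ≠ 0) :
    ∃ i : ℤ, P.o ((x - algebraMap C K a) ^ 2 * aeval x F / aeval x B) =
      i * P.o (x - algebraMap C K a) :=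
  ⟨_, (ord hu hB fun e => h (by simp [e])).2⟩

omit [IsAlgClosed C] in
/-- Poles of order at least two, through orders. -/
lemma pole (hx : d x ≠ 0) (hu : 0 < P.o (x - algebraMap C K a)) (hB : B ≠ 0) (B1 : C[X]) (c : C) :
    Pole B B1 a ↔ ¬ P.L 0 ((x - algebraMap C K a) ^ 2 *
      aeval x (B1 - Polynomial.C c * derivative B) / aeval x B) := by
  have h1 : P.L 0 ((x - algebraMap C K a) * ((x - algebraMap C K a) * aeval x (derivative B) /
      aeval x B) * algebraMap C K c) :=
    ((Pl.L.of_lt hu).mul0 (res hx hu hB).G).mul0 (Pl.G.cst c)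
  have h2 : (x - algebraMap C K a) ^ 2 * aeval x (B1 - Polynomial.C c * derivative B) / aeval x B =
      (x - algebraMap C K a) ^ 2 * aeval x B1 / aeval x B - (x - algebraMap C K a) *
        ((x - algebraMap C K a) * aeval x (derivative B) / aeval x B) * algebraMap C K c := by
    simp only [map_sub, map_mul, aeval_C]
    ring
  have h3 : (X - Polynomial.C a) ^ (rootMultiplicity a B - 1) ∣ B1 ↔
      P.L 0 ((x - algebraMap C K a) ^ 2 * aeval x B1 / aeval x B) := by
    by_cases h0 : B1 = 0
    · simp [h0, Pl.L.zero]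
    obtain ⟨h4, h5⟩ := ord hu hB h0
    rw [← le_rootMultiplicity_iff h0, Pl.L, or_iff_right h4, h5, mul_pos_iff_of_pos_right hu,
      Int.cast_pos]
    omega
  rw [Pole, h3, h2]
  exact not_congr ⟨fun h => h.sub h1, fun h => by simpa using h.add h1⟩

end Loc

open Loc in
theorem loc : StmtLOC := by
  intro C K _ _ _ _ _ _ d x y J A A1 A2 B B1 B2 P a b h hu hv
  have hB := (Pl.o_fin hu h.B0).1
  have hA := (Pl.o_fin hv h.A0).1
  have hbt := res h.dx hu h.B0
  have hat := res h.dy hv h.A0
  have hnu := h.toEq0.nu P hu hv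
  have pB := pole h.dx hu h.B0 B1 b
  have pA := pole h.dy hv h.A0 A1 a
  have oB := ord' hu h.B0 (B1 - Polynomial.C b * derivative B)
  have oA := ord' hv h.A0 (A1 - Polynomial.C a * derivative A)
  have u0 := Pl.ne_zero hu.ne'
  have v0 := Pl.ne_zero hv.ne'
  have hl := Pl.R_log hu.ne' v0
  have hE : (x - algebraMap C K a) ^ 2 * aeval x (B1 - Polynomial.C b * derivative B) / aeval x B -
      ((x - algebraMap C K a) * d (y - algebraMap C K b) /
        ((y - algebraMap C K b) * d (x - algebraMap C K a))) ^ 2 *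
      ((y - algebraMap C K b) ^ 2 * aeval y (A1 - Polynomial.C a * derivative A) / aeval y A) =
      (x - algebraMap C K a) * (y - algebraMap C K b) *
        ((x - algebraMap C K a) * aeval x (derivative B) / aeval x B -
          ((x - algebraMap C K a) * d (y - algebraMap C K b) /
            ((y - algebraMap C K b) * d (x - algebraMap C K a))) ^ 2 *
          ((y - algebraMap C K b) * aeval y (derivative A) / aeval y A)) := by
    have hx := h.dx
    simp only [map_sub, map_mul, aeval_C, d.map_algebraMap, sub_zero]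
    field_simp
    linear_combination h.e1
  have hr := hbt.sub ((hl.pow 2).mul hat)
  have r0 : 0 < P.o (y - algebraMap C K b) / P.o (x - algebraMap C K a) := div_pos hv hu
  obtain ⟨l0, l1⟩ := (hl.pow 2).unit (pow_ne_zero _ (by exact_mod_cast r0.ne'))
  have lG := (hl.pow 2).G
  generalize (x - algebraMap C K a) ^ 2 * aeval x (B1 - Polynomial.C b * derivative B) /
    aeval x B = β at *
  generalize (y - algebraMap C K b) ^ 2 * aeval y (A1 - Polynomial.C a * derivative A) /
    aeval y A = α at *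
  generalize (x - algebraMap C K a) * aeval x (derivative B) / aeval x B -
    ((x - algebraMap C K a) * d (y - algebraMap C K b) /
      ((y - algebraMap C K b) * d (x - algebraMap C K a))) ^ 2 *
    ((y - algebraMap C K b) * aeval y (derivative A) / aeval y A) = W at hE hr
  clear hl hbt hat
  generalize ((x - algebraMap C K a) * d (y - algebraMap C K b) /
    ((y - algebraMap C K b) * d (x - algebraMap C K a))) ^ 2 = l at *
  generalize x - algebraMap C K a = u at *
  generalize y - algebraMap C K b = v at *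
  have hT : P.L 0 (u * v * W) := ((Pl.L.of_lt hu).mul0 (Pl.G.of_le hv.le)).mul0 hr.G
  have hαβ : P.L 0 β ↔ P.L 0 α := by
    refine ⟨fun h1 => ?_, fun h1 => ?_⟩
    · have h2 := (h1.sub hT).div l
      rw [← hE, l1, sub_zero] at h2
      convert h2 using 1
      field_simp
      ring
    · have h2 := hT.add (h1.mul0 lG)
      rw [← hE] at h2
      convert h2 using 1
      ring
  refine ⟨by rw [pB, pA, hαβ], fun hp => ?_⟩
  have Lβ : P.L 0 β := not_not.1 fun e => hp (pB.2 e)
  have Lα := hαβ.1 Lβ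
  by_cases huv : P.o v = P.o u
  · exact ⟨1, Or.inl (by simpa using huv)⟩
  have hne : ((rootMultiplicity a B : ℚ) - (P.o v / P.o u) ^ 2 * rootMultiplicity b A : ℚ) ≠ 0 := by
    have hJ : (0 : ℚ) < J := by exact_mod_cast h.J0
    have h1 : ((rootMultiplicity a B : ℚ) - (P.o v / P.o u) ^ 2 * rootMultiplicity b A) * P.o u ^ 2 =
        (P.o u - P.o v) * (J * P.o u + P.o v * rootMultiplicity b A) := by
      field_simp
      linear_combination (-P.o u) * hnu
    intro e
    rw [e, zero_mul] at h1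
    exact mul_ne_zero (sub_ne_zero.2 (Ne.symm huv)) (by positivity) h1.symm
  obtain ⟨W0, W1⟩ := hr.unit (by exact_mod_cast hne)
  have T0 : u * v * W ≠ 0 := mul_ne_zero (mul_ne_zero u0 v0) W0
  have oT : P.o (β - l * α) = P.o u + P.o v := by
    rw [hE, P.mul (mul_ne_zero u0 v0) W0, P.mul u0 v0, W1, add_zero]
  have left : ∀ i : ℤ, P.o u + P.o v = i * P.o u →
      ∃ k : ℕ, P.o v = k * P.o u ∨ P.o u = k * P.o v := fun i e =>
    (nat_of_int hu hv (i := i - 1) (by push_cast; linarith)).imp fun _ => Or.inl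
  have right : ∀ j : ℤ, P.o u + P.o v = j * P.o v →
      ∃ k : ℕ, P.o v = k * P.o u ∨ P.o u = k * P.o v := fun j e =>
    (nat_of_int hv hu (i := j - 1) (by push_cast; linarith)).imp fun _ => Or.inr
  by_cases α0 : α = 0
  · rw [α0, mul_zero, sub_zero] at oT hE
    obtain ⟨i, hi⟩ := oB (hE ▸ T0)
    exact left i (oT ▸ hi)
  obtain ⟨j, hj⟩ := oA α0
  have ol : P.o (-(l * α)) = j * P.o v := by rw [Pl.o_neg, P.mul l0 α0, l1, hj, zero_add]
  have lα : -(l * α) ≠ 0 := neg_ne_zero.2 (mul_ne_zero l0 α0)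
  by_cases β0 : β = 0
  · rw [β0, zero_sub] at oT
    exact right j (oT ▸ ol)
  obtain ⟨i, hi⟩ := oB β0
  rcases lt_trichotomy (P.o β) (P.o (-(l * α))) with h1 | h1 | h1
  · have := (Pl.o_add β0 (Pl.L.of_lt h1)).2
    rw [← sub_eq_add_neg, oT, hi] at this
    exact left i this
  · have h2 := ((Pl.G.self β).add (Pl.G.of_le h1.le)).le (by rwa [← sub_eq_add_neg, hE])
    rw [← sub_eq_add_neg, oT] at h2
    have i0 : (0 : ℚ) < i := (mul_pos_iff_of_pos_right hu).1 (hi ▸ Lβ.lt β0)
    have j0 : (0 : ℚ) < j := (mul_pos_iff_of_pos_right hv).1 (hj ▸ Lα.lt α0)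
    rw [hi] at h1 h2
    rw [ol] at h1
    by_cases i1 : i = 1
    · exact (nat_of_int hv hu (i := j) (by simpa [i1] using h1)).imp fun _ => Or.inr
    by_cases j1 : j = 1
    · exact (nat_of_int hu hv (i := i) (by simpa [j1] using h1.symm)).imp fun _ => Or.inl
    have i2 : (2 : ℚ) ≤ i := by
      have : 0 < i := by exact_mod_cast i0
      exact_mod_cast (by omega : 2 ≤ i)
    have j2 : (2 : ℚ) ≤ j := by
      have : 0 < j := by exact_mod_cast j0
      exact_mod_cast (by omega : 2 ≤ j)
    exact absurd (le_antisymm (by nlinarith) (by nlinarith)) huv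
  · have := (Pl.o_add lα (Pl.L.of_lt h1)).2
    rw [add_comm, ← sub_eq_add_neg, oT, ol] at this
    exact right j this

end Pool.Agent.MP_249f74_an.H53
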