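import Pool.Agent.MP_249f74_an.H53.Spec

/-!
Points at infinity of the axes, through places.
-/

open Polynomial IntermediateField

namespace Pool.Agent.MP_249f74_an.H53

open H17 (Der)
open H96 (NC1)

namespace Nc

variable {C K : Type} [Field C] [Field K] [Algebra C K]

lemma coeff_int (E : IntermediateField C K) (S : Subalgebra C K) (hS : S ≤ E.toSubalgebra)
    {y : K} (hy : IsIntegral S y) (i : ℕ) :
    IsIntegral E y ∧ IsIntegral S (((minpoly E y).coeff i : E) : K) := by
  obtain ⟨f, hf, h0⟩ := hy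
  let φ : S →+* E := (Subalgebra.inclusion hS).toRingHom
  have hφ : (algebraMap E K).comp φ = algebraMap S K := RingHom.ext fun _ => rfl
  have h1 : aeval y (f.map φ) = 0 := by rw [aeval_def, eval₂_map, hφ, h0]
  have hi : IsIntegral E y := ⟨f.map φ, hf.map φ, h1⟩
  refine ⟨hi, ?_⟩
  have h2 := map_dvd (mapRingHom (algebraMap E K)) (minpoly.dvd E y h1)
  rw [coe_mapRingHom, Polynomial.map_map, hφ] at h2
  have := isIntegral_coeff_of_dvd f _ hf ((minpoly.monic hi).map _) h2 i
  rwa [coeff_map] at this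

variable [CharZero C] {d : Der C K}

lemma G_int {P : Pl d} {S : Subalgebra C K} (hS : ∀ r ∈ S, P.G 0 r) {g : K}
    (hg : IsIntegral S g) : P.G 0 g := by
  obtain ⟨f, hf, h0⟩ := hg
  refine Pl.G.of_le (not_lt.1 fun h => ?_)
  have g0 := Pl.ne_zero h.ne
  rw [← aeval_def, aeval_eq_sum_range, Finset.sum_range_succ, hf.coeff_natDegree, one_smul,
    add_eq_zero_iff_neg_eq] at h0
  have h1 : P.L (f.natDegree * P.o g) (g ^ f.natDegree) := by
    conv_rhs => rw [← h0]
    refine (Pl.L.sum fun i hi => ?_).neg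
    have h2 := ((Pl.G.self (P := P) g).pow i).mul0 (hS _ (f.coeff i).2)
    have h3 : (i : ℚ) < f.natDegree := by exact_mod_cast Finset.mem_range.1 hi
    rw [Algebra.smul_def, mul_comm _ (g ^ i)]
    exact h2.L (mul_lt_mul_of_neg_right h3 h)
  simpa using h1.lt (pow_ne_zero _ g0)

lemma G_adj {P : Pl d} {x : K} (hx : P.G 0 x) : ∀ r ∈ Algebra.adjoin C {x}, P.G 0 r := by
  intro r hr
  rw [Algebra.adjoin_singleton_eq_range_aeval] at hr
  obtain ⟨p, rfl⟩ := hr
  exact hx.aeval p

lemma poly [IsAlgClosed C] (h : Fld d) {x g : K} (hx : d x ≠ 0) (hg : g ∈ C⟮x⟯)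
    (h0 : ∀ P : Pl d, P.G 0 x → P.G 0 g) : ∃ p : C[X], g = aeval x p := by
  obtain ⟨r, s, rfl⟩ := (mem_adjoin_simple_iff C g).1 hg
  by_cases r0 : r = 0
  · exact ⟨0, by simp [r0]⟩
  by_cases s0 : s = 0
  · exact ⟨0, by simp [s0]⟩
  have hs : aeval x s ≠ 0 := fun e => s0 (aeval_inj hx (by simpa using e))
  have : s ∣ r := by
    classical
    refine (IsAlgClosed.splits s).dvd_of_roots_le_roots s0 (Multiset.le_iff_count.2 fun c => ?_)
    obtain ⟨P, hP⟩ := h.ex_fin hx c
    have h1 : P.G 0 x := by simpa using (Pl.G.of_le hP.le).add (Pl.G.cst c)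
    have h2 := Pl.G_zero_iff.1 (h0 P h1)
    rw [Pl.o_div (Pl.o_fin hP r0).1 hs, (Pl.o_fin hP r0).2, (Pl.o_fin hP s0).2, ← sub_mul] at h2
    have h3 := nonneg_of_mul_nonneg_left h2 hP
    rw [count_roots, count_roots]
    exact_mod_cast sub_nonneg.1 h3
  obtain ⟨p, rfl⟩ := this
  exact ⟨p, by rw [map_mul, mul_div_cancel_left₀ _ hs]⟩

end Nc

open Nc in
theorem nc : StmtNC := by
  intro C K _ _ _ _ _ _ d x y h hx hy
  have x0 : x ≠ 0 := fun e => hx (by simp [e])
  have y0 : y ≠ 0 := fun e => hy (by simp [e])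
  constructor
  · rintro ⟨N, hN⟩ P hP
    refine not_lt.1 fun h1 => ?_
    have h2 : P.L (N * P.o y) (y ^ N) := by
      generalize y ^ N = g at hN
      induction hN using Submodule.span_induction with
      | mem f hf =>
        obtain ⟨i, j, h2, h3, rfl⟩ := hf
        refine (((Pl.G.self x).pow i).mul ((Pl.G.self y).pow j)).L ?_
        have h4 : (i : ℚ) + j ≤ N := by exact_mod_cast h2
        have h5 : (j : ℚ) < N := by exact_mod_cast h3
        rcases Nat.eq_zero_or_pos i with rfl | h6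
        · simp only [Nat.cast_zero, zero_mul, zero_add]; nlinarith
        · have h7 : (0 : ℚ) < i := by exact_mod_cast h6
          nlinarith
      | zero => exact Pl.L.zero
      | add _ _ _ _ ha hb => exact ha.add hb
      | smul c _ _ ha => rw [Algebra.smul_def, mul_comm (algebraMap C K c)]; exact ha.mul0 (Pl.G.cst c)
    simpa using h2.lt (pow_ne_zero _ y0)
  · intro H
    have hE : x ∈ C⟮x⟯ := mem_adjoin_simple_self C x
    have i1 := h.int (Algebra.adjoin C {x}) y fun P hP => Pl.G.of_le (not_lt.1 fun h1 => by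
      have := Pl.G_zero_iff.1 (hP x (Algebra.self_mem_adjoin_singleton C x))
      linarith [H P h1])
    have i2 := h.int (Algebra.adjoin C {x⁻¹}) (x⁻¹ * y) fun P hP => Pl.G.of_le (by
      have := Pl.G_zero_iff.1 (hP _ (Algebra.self_mem_adjoin_singleton C x⁻¹))
      rw [P.mul (inv_ne_zero x0) y0]
      rw [Pl.o_inv] at this ⊢
      rcases lt_or_ge (P.o y) 0 with h1 | h1
      · linarith [H P h1]
      · linarith)
    have c1 := coeff_int C⟮x⟯ _ (Algebra.adjoin_le (by simp)) i1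
    have c2 := coeff_int C⟮x⟯ _ (Algebra.adjoin_le (by simpa using hE)) i2
    have hi := (c1 0).1
    let r : C⟮x⟯ := ⟨x⁻¹, inv_mem hE⟩
    have r0 : r ≠ 0 := fun e => inv_ne_zero x0 (congrArg Subtype.val e)
    have hm : minpoly C⟮x⟯ (x⁻¹ * y) = (minpoly C⟮x⟯ y).scaleRoots r :=
      IsIntegrallyClosed.minpoly_smul r0 hi
    have h0 := minpoly.aeval C⟮x⟯ y
    rw [aeval_eq_sum_range, Finset.sum_range_succ, (minpoly.monic hi).coeff_natDegree, one_smul,
      add_eq_zero_iff_neg_eq] at h0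
    obtain ⟨P, hP⟩ := h.ex_inf hx
    refine ⟨(minpoly C⟮x⟯ y).natDegree, ?_⟩
    rw [← h0]
    refine neg_mem (Submodule.sum_mem _ fun j hj => ?_)
    have hj' := Finset.mem_range.1 hj
    obtain ⟨p, hp⟩ := poly h hx ((minpoly C⟮x⟯ y).coeff j).2
      fun P hP => G_int (G_adj hP) (c1 j).2
    have h1 := G_int (P := P) (G_adj (Pl.G.of_le (by simpa using hP.le))) (c2 j).2
    rw [hm, coeff_scaleRoots, MulMemClass.coe_mul, SubmonoidClass.coe_pow, hp] at h1
    rw [IntermediateField.smul_def, smul_eq_mul, hp]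
    by_cases p0 : p = 0
    · simp [p0]
    have h2 := Pl.G_zero_iff.1 h1
    rw [P.mul (Pl.o_inf hP p0).1 (pow_ne_zero _ (inv_ne_zero x0)), (Pl.o_inf hP p0).2, Pl.o_pow,
      Pl.o_inv, Nat.cast_sub hj'.le] at h2
    have h3 : (p.natDegree : ℚ) + j ≤ (minpoly C⟮x⟯ y).natDegree := by nlinarith
    have h4 : p.natDegree + j ≤ (minpoly C⟮x⟯ y).natDegree := by exact_mod_cast h3
    rw [aeval_eq_sum_range, Finset.sum_mul]
    refine Submodule.sum_mem _ fun i hi => ?_
    rw [smul_mul_assoc]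
    exact Submodule.smul_mem _ _ (Submodule.subset_span
      ⟨i, j, by have := Finset.mem_range.1 hi; omega, hj', rfl⟩)

end Pool.Agent.MP_249f74_an.H53
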