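import Pool.Agent.MP_249f74_an.H53.Spec

/-!
Ramification over one finite point only: the Euler operator.
-/

open Polynomial IntermediateField

namespace Pool.Agent.MP_249f74_an.H53

open H17 (Der St mem_St)

namespace Par

variable {C K : Type} [Field C] [CharZero C] [Field K] [CharZero K] [Algebra C K]

omit [CharZero C] in
lemma stab (δ : Der C K) {x y : K} (hx : δ x ∈ C⟮x, y⟯) (hy : IsAlgebraic C⟮x⟯ y) :
    ∀ g ∈ C⟮x, y⟯, δ g ∈ C⟮x, y⟯ := by
  have x1 : x ∈ C⟮x, y⟯ := subset_adjoin _ _ (by simp)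
  have y1 : y ∈ C⟮x, y⟯ := subset_adjoin _ _ (by simp)
  have h1 : C⟮x⟯ ≤ St δ C⟮x, y⟯ := adjoin_simple_le_iff.2 (mem_St.2 ⟨x1, hx⟩)
  have h2 : δ y ∈ C⟮x, y⟯ := by
    obtain ⟨p, -, p1, p2, p3⟩ := H17.exists_simple (E := St δ C⟮x, y⟯)
      (H17.cl_mono h1 (H17.mem_cl_iff.2 hy))
    have := H17.der_eval δ p y
    rw [p2, map_zero, eq_comm, add_comm, ← eq_neg_iff_add_eq_zero, mul_comm,
      ← eq_div_iff p3] at this
    rw [this]
    refine div_mem (neg_mem (sum_mem fun i _ => mul_mem (p1 i).2 (pow_mem y1 _))) ?_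
    rw [eval_eq_sum_range]
    exact sum_mem fun i _ => mul_mem (by
      rw [coeff_derivative]; exact mul_mem (p1 _).1 (add_mem (_root_.natCast_mem _ _) (one_mem _)))
      (pow_mem y1 _)
  have h3 : C⟮x, y⟯ ≤ St δ C⟮x, y⟯ := adjoin_le_iff.2 (by
    rintro z (rfl | rfl)
    · exact mem_St.2 ⟨x1, hx⟩
    · exact mem_St.2 ⟨y1, h2⟩)
  exact fun g hg => (h3 hg).2

/-- The Euler operator. -/
noncomputable def th (d : Der C K) (u : K) : Der C K := (u / d u) • d

omit [CharZero C] [CharZero K] in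
lemma th_apply (d : Der C K) (u g : K) : th d u g = u / d u * d g := rfl

variable {d : Der C K} {P : Pl d} {u g : K}

omit [CharZero C] [CharZero K] in
lemma th_eq (hg : g ≠ 0) : th d u g = g * (u * d g / (g * d u)) := by
  rw [th_apply]
  by_cases h : d u = 0
  · simp [h]
  · field_simp

omit [CharZero K] in
lemma th_G (hu : P.o u ≠ 0) {s : ℚ} (h : P.G s g) : P.G s (th d u g) := by
  by_cases hg : g = 0
  · rw [hg, map_zero]; exact Pl.G.zero
  · rw [th_eq hg]
    exact h.mul0 (Pl.R_log hu hg).G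

omit [CharZero K] in
lemma th_L (hu : P.o u ≠ 0) {s : ℚ} (h : P.G (s * P.o u) g) :
    P.L (s * P.o u) (th d u g - algebraMap C K (s : C) * g) := by
  by_cases hg : g = 0
  · rw [hg, map_zero, mul_zero, sub_zero]; exact Pl.L.zero
  have e : th d u g - algebraMap C K (s : C) * g =
      (u * d g / (g * d u) - algebraMap C K (s : C)) * g := by
    rw [th_eq hg]; ring
  rw [e]
  rcases (h.le hg).eq_or_lt with h1 | h1
  · have h2 := Pl.R_log hu hg
    rw [← h1, mul_div_cancel_right₀ _ hu] at h2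
    simpa using Pl.L.mul h2 h
  · rw [mul_comm _ g]
    exact (Pl.L.of_lt h1).mul0 ((Pl.R_log hu hg).G.sub (Pl.G.cst _))

omit [CharZero K] in
lemma th_fin {v : K} (hu : P.G 0 u) (hv : 0 < P.o v) (e : d v = d u) (h : P.G 0 g)
    (hg : ∀ c : C, ∃ j : ℤ, P.o (g - algebraMap C K c) = j * P.o v) : P.G 0 (th d u g) := by
  obtain ⟨c, hc⟩ := h.exR
  obtain ⟨j, hj⟩ := hg c
  have e1 : d (g - algebraMap C K c) = d g := by simp
  by_cases h0 : g - algebraMap C K c = 0
  · rw [th_apply, ← e1, h0, map_zero, mul_zero]; exact Pl.G.zero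
  have h1 := Pl.L.lt hc h0
  have h2 : (1 : ℚ) ≤ j := by
    have : (0 : ℚ) < j := by
      rw [hj] at h1
      exact (mul_pos_iff_of_pos_right hv).1 h1
    exact_mod_cast this
  have v0 : v ≠ 0 := Pl.ne_zero hv.ne'
  have e2 : th d u g = u * (v * d (g - algebraMap C K c) / ((g - algebraMap C K c) * d v)) *
      ((g - algebraMap C K c) / v) := by
    rw [th_apply, e1, e]
    by_cases h : d u = 0
    · simp [h]
    · field_simp
  rw [e2]
  refine (hu.mul0 (Pl.R_log hv.ne' h0).G).mul0 (Pl.G.of_le ?_)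
  rw [Pl.o_div h0 v0, hj]
  nlinarith

/-- The iterated shifted Euler operators. -/
noncomputable def hs (d : Der C K) (u y : K) (N : ℕ) : ℕ → K
  | 0 => y
  | j + 1 => th d u (hs d u y N j) -
      algebraMap C K (((((N : ℚ) - j) / N : ℚ)) : C) * hs d u y N j

/-- The span of the small powers of `t` that lie in `F`. -/
def Sp (F : IntermediateField C K) (t : K) (j : ℕ) : Submodule C K :=
  Submodule.span C {w | ∃ i < j, t ^ i ∈ F ∧ w = t ^ i}

omit [CharZero C] [CharZero K] in
lemma Sp_le {F : IntermediateField C K} {t : K} {j : ℕ} {w : K} (h : w ∈ Sp F t j) : w ∈ F := by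
  have : Sp F t j ≤ F.toSubalgebra.toSubmodule := Submodule.span_le.2 (by
    rintro _ ⟨i, -, hi, rfl⟩
    exact hi)
  exact this h

omit [CharZero C] in
lemma th_pow {t : K} {N : ℕ} (hN : 0 < N) (hu : d u ≠ 0) (e : t ^ N = u) (i : ℕ) :
    th d u (t ^ i) = (i : K) / N * t ^ i := by
  have t0 : t ≠ 0 := by
    rintro rfl
    rw [zero_pow hN.ne'] at e
    exact hu (by rw [← e, map_zero])
  have N0 : (N : K) ≠ 0 := by exact_mod_cast hN.ne'
  have h1 : d u = N * t ^ (N - 1) * d t := by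
    rw [← e, d.leibniz_pow]; simp [mul_assoc]
  have h2 : d t ≠ 0 := fun h => hu (by rw [h1, h, mul_zero])
  have h3 : u = t ^ (N - 1) * t := by rw [← e, pow_sub_one_mul hN.ne']
  rw [th_apply, d.leibniz_pow, h1]
  rcases i with _ | i
  · simp
  · rw [h3]
    simp only [smul_eq_mul, nsmul_eq_mul, Nat.add_sub_cancel]
    field_simp
    ring

lemma Sp_step (hd : Fld d) {F : IntermediateField C K} {t : K} {N : ℕ} (hN : 0 < N) (hu : d u ≠ 0)
    (e : t ^ N = u) {j : ℕ} (hg : g ∈ F)
    (h : th d u g - algebraMap C K (((j : ℚ) / N : ℚ) : C) * g ∈ Sp F t j) : g ∈ Sp F t (j + 1) := by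
  have N0 : (N : K) ≠ 0 := by exact_mod_cast hN.ne'
  have u0 : u ≠ 0 := fun h => hu (by rw [h, map_zero])
  have t0 : t ≠ 0 := by
    rintro rfl
    rw [zero_pow hN.ne'] at e
    exact u0 e.symm
  have ec : algebraMap C K (((j : ℚ) / N : ℚ) : C) = (j : K) / N := by simp
  rw [ec] at h
  have key : ∀ w ∈ Sp F t j, ∃ q ∈ Sp F t j, th d u q - (j : K) / N * q = w := by
    intro w hw
    induction hw using Submodule.span_induction with
    | mem w hw =>
      obtain ⟨i, hi, h1, rfl⟩ := hw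
      refine ⟨((N : C) / ((i : C) - j)) • t ^ i,
        Submodule.smul_mem _ _ (Submodule.subset_span ⟨i, hi, h1, rfl⟩), ?_⟩
      have : (i : K) - j ≠ 0 := sub_ne_zero.2 (by exact_mod_cast hi.ne)
      rw [Derivation.map_smul, th_pow hN hu e, Algebra.smul_def, Algebra.smul_def]
      simp only [map_div₀, map_sub, map_natCast]
      field_simp
    | zero => exact ⟨0, zero_mem _, by simp⟩
    | add a b _ _ ha hb =>
      obtain ⟨p, p1, rfl⟩ := ha
      obtain ⟨q, q1, rfl⟩ := hb
      exact ⟨p + q, add_mem p1 q1, by rw [map_add]; ring⟩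
    | smul c a _ ha =>
      obtain ⟨p, p1, rfl⟩ := ha
      exact ⟨c • p, Submodule.smul_mem _ _ p1, by
        rw [Derivation.map_smul, smul_sub, mul_smul_comm]⟩
  obtain ⟨q, q1, q2⟩ := key _ h
  have mono : Sp F t j ≤ Sp F t (j + 1) := Submodule.span_mono (by
    rintro _ ⟨i, hi, h1, rfl⟩
    exact ⟨i, by omega, h1, rfl⟩)
  have h1 : th d u ((g - q) / t ^ j) = 0 := by
    rw [Derivation.leibniz_div, th_pow hN hu e, map_sub]
    simp only [smul_eq_mul]
    have : th d u g - th d u q = (j : K) / N * (g - q) := by linear_combination -q2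
    rw [this]
    ring
  have h2 : d ((g - q) / t ^ j) = 0 := by
    rw [th_apply] at h1
    exact (mul_eq_zero.1 h1).resolve_left (div_ne_zero u0 hu)
  obtain ⟨c, hc⟩ := hd.cst _ h2
  have h3 : g = q + c • t ^ j := by
    rw [Algebra.smul_def, ← hc]
    field_simp
    ring
  by_cases c0 : c = 0
  · rw [h3, c0, zero_smul, add_zero]
    exact mono q1
  · have h4 : t ^ j ∈ F := by
      have : t ^ j = (g - q) / algebraMap C K c := by
        have : algebraMap C K c ≠ 0 := by simpa using c0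
        rw [h3, Algebra.smul_def]
        field_simp
        ring
      rw [this]
      exact div_mem (sub_mem hg (Sp_le q1)) (F.algebraMap_mem c)
    rw [h3]
    exact add_mem (mono q1) (Submodule.smul_mem _ _
      (Submodule.subset_span ⟨j, by omega, h4, rfl⟩))

end Par

open Par in
theorem par : StmtPAR := by
  intro C K _ _ _ _ _ _ _ d x y a N hd hx hy hn hN hinf hfin
  set u := x - algebraMap C K a with hu
  have du : d u = d x := by simp [hu]
  have du0 : d u ≠ 0 := du ▸ hx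
  have u0 : u ≠ 0 := fun h => du0 (by rw [h, map_zero])
  have x1 : x ∈ C⟮x, y⟯ := subset_adjoin _ _ (by simp)
  have y1 : y ∈ C⟮x, y⟯ := subset_adjoin _ _ (by simp)
  have u1 : u ∈ C⟮x, y⟯ := sub_mem x1 (IntermediateField.algebraMap_mem _ a)
  have N0 : (0 : ℚ) < N := by exact_mod_cast hN
  have st : ∀ g ∈ C⟮x, y⟯, th d u g ∈ C⟮x, y⟯ := stab _ (by
    rw [th_apply, du, div_mul_cancel₀ _ hx]; exact u1) (hd.alg x hx y)
  have hF : ∀ j, hs d u y N j ∈ C⟮x, y⟯ := fun j => by
    induction j with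
    | zero => exact y1
    | succ j ih => exact sub_mem (st _ ih) (mul_mem (IntermediateField.algebraMap_mem _ _) ih)
  have h1 : ∀ P : Pl d, 0 ≤ P.o x → ∀ j, P.G 0 (hs d u y N j) := fun P hP j => by
    induction j with
    | zero =>
      refine Pl.G.of_le (not_lt.1 fun h => ?_)
      have := hn P (Or.inr h)
      change P.o y < 0 at h
      linarith
    | succ j ih =>
      refine Pl.G.sub ?_ ((Pl.G.cst _).mul0 ih)
      obtain ⟨c, hc⟩ := Pl.ex_pt hx hP
      by_cases h : c = a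
      · subst h
        exact th_G hc.ne' ih
      · exact th_fin ((Pl.G.of_le hP).sub (Pl.G.cst a)) hc (by simp [hu]) ih fun e =>
          hfin P c h hc _ (sub_mem (hF j) (IntermediateField.algebraMap_mem _ e))
  have h2 : ∀ P : Pl d, P.o x < 0 → ∀ j : ℕ,
      P.G (((N : ℚ) - j) / N * P.o u) (hs d u y N j) := fun P hP j => by
    have ou : P.o u = P.o x := Pl.o_sub_inf hP a
    induction j with
    | zero =>
      refine Pl.G.of_le ?_
      change _ ≤ P.o y
      rw [ou, ← hn P (Or.inl hP)]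
      simp [N0.ne']
    | succ j ih =>
      have h := th_L (by rw [ou]; exact hP.ne) ih
      change P.L _ (hs d u y N (j + 1)) at h
      by_cases h0 : hs d u y N (j + 1) = 0
      · exact Or.inl h0
      obtain ⟨i, hi⟩ := hinf P hP _ (hF (j + 1))
      have h3 := h.lt h0
      rw [ou, div_mul_eq_mul_div, div_lt_iff₀ N0, mul_comm _ (N : ℚ), hi] at h3
      have h4 : (i : ℚ) < N - j := lt_of_mul_lt_mul_of_nonpos_right h3 hP.le
      have h5 : i + 1 ≤ (N : ℤ) - j := by exact_mod_cast h4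
      have h6 : (i : ℚ) + 1 ≤ N - j := by exact_mod_cast h5
      refine Pl.G.of_le ?_
      rw [ou, div_mul_eq_mul_div, div_le_iff₀ N0, mul_comm _ (N : ℚ), hi]
      push_cast
      nlinarith
  have h3 : ∀ P : Pl d, P.o x < 0 → P.L 0 (hs d u y N (N + 1)) := fun P hP => by
    refine (h2 P hP (N + 1)).L ?_
    rw [Pl.o_sub_inf hP a]
    refine mul_pos_of_neg_of_neg (div_neg_of_neg_of_pos ?_ N0) hP
    push_cast
    linarith
  obtain ⟨P, hP⟩ := hd.ex_inf hx
  have h4 : hs d u y N (N + 1) = 0 := by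
    obtain ⟨c, hc⟩ := hd.const (g := hs d u y N (N + 1)) fun Q =>
      (le_or_gt 0 (Q.o x)).elim (fun h => h1 Q h _) fun h => (h3 Q h).G
    have := h3 P hP
    rw [hc] at this ⊢
    refine this.resolve_right ?_
    rw [P.cst]
    exact lt_irrefl _
  obtain ⟨t, ht⟩ := IsAlgClosed.exists_pow_nat_eq u hN
  have t0 : t ≠ 0 := by
    rintro rfl
    rw [zero_pow hN.ne'] at ht
    exact u0 ht.symm
  have h5 : ∀ k j, j + k = N + 1 → hs d u y N j ∈ Sp C⟮x, y⟯ t k := fun k => by
    induction k with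
    | zero =>
      intro j hj
      rw [show j = N + 1 by omega, h4]
      exact zero_mem _
    | succ k ih =>
      intro j hj
      refine Sp_step hd hN du0 ht (hF j) ?_
      have := ih (j + 1) (by omega)
      rw [hs] at this
      have e : (N : ℚ) - j = k := by
        have : N = j + k := by omega
        rw [this]
        push_cast
        ring
      rwa [e] at this
  have h6 : y ∈ Sp C⟮x, y⟯ t (N + 1) := h5 (N + 1) 0 (by omega)
  classical
  have ex : ∃ i, 0 < i ∧ t ^ i ∈ C⟮x, y⟯ := ⟨N, hN, ht ▸ u1⟩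
  obtain ⟨g0, g1⟩ := Nat.find_spec ex
  have h7 : ∀ i, t ^ i ∈ C⟮x, y⟯ → Nat.find ex ∣ i := fun i hi => by
    rw [Nat.dvd_iff_mod_eq_zero]
    by_contra h
    refine Nat.find_min ex (Nat.mod_lt i g0) ⟨Nat.pos_of_ne_zero h, ?_⟩
    have : t ^ (i % Nat.find ex) = t ^ i / (t ^ Nat.find ex) ^ (i / Nat.find ex) := by
      rw [eq_div_iff (pow_ne_zero _ (pow_ne_zero _ t0)), ← pow_mul, ← pow_add, Nat.mod_add_div]
    rw [this]
    exact div_mem hi (pow_mem g1 _)
  obtain ⟨n, hn'⟩ := h7 N (ht ▸ u1)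
  have h8 : ∀ w ∈ Sp C⟮x, y⟯ t (N + 1), ∃ p : C[X], w = aeval (t ^ Nat.find ex) p := by
    intro w hw
    induction hw using Submodule.span_induction with
    | mem w hw =>
      obtain ⟨i, -, hi, rfl⟩ := hw
      obtain ⟨k, rfl⟩ := h7 i hi
      exact ⟨X ^ k, by simp [pow_mul]⟩
    | zero => exact ⟨0, by simp⟩
    | add a b _ _ ha hb =>
      obtain ⟨p, rfl⟩ := ha
      obtain ⟨q, rfl⟩ := hb
      exact ⟨p + q, by simp⟩
    | smul c a _ ha =>
      obtain ⟨p, rfl⟩ := ha
      exact ⟨c • p, by simp⟩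
  obtain ⟨p, hp⟩ := h8 y h6
  have e1 : u = (t ^ Nat.find ex) ^ n := by rw [← pow_mul, ← hn', ht]
  have n0 : 0 < n := Nat.pos_of_ne_zero fun h => by rw [h] at hn'; omega
  refine ⟨_, g1, n, p, by rw [hn']; exact Nat.le_mul_of_pos_left n g0, ?_, e1, hp⟩
  have p0 : p ≠ 0 := by
    rintro rfl
    exact hy (by rw [hp]; simp)
  have o1 : P.o x = n * P.o (t ^ Nat.find ex) := by rw [← Pl.o_sub_inf hP a, ← Pl.o_pow, ← e1]
  have n1 : (0 : ℚ) < n := by exact_mod_cast n0
  have o2 : P.o (t ^ Nat.find ex) < 0 := by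
    by_contra h
    have := mul_nonneg n1.le (not_lt.1 h)
    linarith
  have o3 := (Pl.o_inf o2 p0).2
  rw [← hp, ← hn P (Or.inl hP), o1] at o3
  exact_mod_cast (mul_right_cancel₀ o2.ne o3).symm

end Pool.Agent.MP_249f74_an.H53
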