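import Pool.Agent.MP_249f74_an.H53.Spec

/-!
A finite totally invariant set: the curve is a line or both top coefficients have two roots of
half multiplicity.
-/

open Polynomial

namespace Pool.Agent.MP_249f74_an.H53

open H17 (Der)

namespace PiA

variable {C : Type} [Field C]

section Poly

lemma mpow (p : C[X]) (n : ℕ) (a : C) :
    rootMultiplicity a (p ^ n) = n * rootMultiplicity a p := by
  classical
  rw [← count_roots, roots_pow, Multiset.count_nsmul, count_roots]

lemma exm {μ : C → ℕ} (h : (Function.support μ).Finite) :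
    ∃ p : C[X], p ≠ 0 ∧ ∀ a, rootMultiplicity a p = μ a := by
  classical
  refine ⟨((Finsupp.toMultiset (Finsupp.ofSupportFinite μ h)).map fun a => X - Polynomial.C a).prod,
    (monic_multiset_prod_of_monic _ _ fun a _ => monic_X_sub_C a).ne_zero, fun a => ?_⟩
  rw [← count_roots, roots_multiset_prod_X_sub_C, Finsupp.count_toMultiset]
  rfl

variable [IsAlgClosed C] {p q F B : C[X]}

omit [IsAlgClosed C] in
lemma rle (h : ∀ a, rootMultiplicity a p ≤ rootMultiplicity a q) : p.roots ≤ q.roots := by
  classical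
  exact Multiset.le_iff_count.2 fun a => by rw [count_roots, count_roots]; exact h a

lemma degle (h : ∀ a, rootMultiplicity a p ≤ rootMultiplicity a q) :
    p.natDegree ≤ q.natDegree := by
  rw [(IsAlgClosed.splits p).natDegree_eq_card_roots,
    (IsAlgClosed.splits q).natDegree_eq_card_roots]
  exact Multiset.card_le_card (rle h)

lemma eqm (h : ∀ a, rootMultiplicity a p ≤ rootMultiplicity a q)
    (hd : q.natDegree ≤ p.natDegree) (a : C) : rootMultiplicity a p = rootMultiplicity a q := by
  classical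
  rw [(IsAlgClosed.splits p).natDegree_eq_card_roots,
    (IsAlgClosed.splits q).natDegree_eq_card_roots] at hd
  rw [← count_roots, ← count_roots, Multiset.eq_of_le_of_card_le (rle h) hd]

lemma exr (h : 0 < p.natDegree) : ∃ a, p.IsRoot a :=
  IsAlgClosed.exists_root p (natDegree_pos_iff_degree_pos.1 h).ne'

/-- The local degree of `F` at `a`. -/
noncomputable def em (F : C[X]) (a : C) : ℕ := rootMultiplicity a (F - Polynomial.C (F.eval a))

omit [IsAlgClosed C] in
lemma sub0 (h : 0 < F.natDegree) (w : C) : F - Polynomial.C w ≠ 0 := fun e => by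
  have := natDegree_sub_C (p := F) (a := w)
  rw [e, natDegree_zero] at this
  omega

omit [IsAlgClosed C] in
lemma em_pos (h : 0 < F.natDegree) (a : C) : 0 < em F a :=
  (rootMultiplicity_pos (sub0 h _)).2 (by simp)

omit [IsAlgClosed C] in
lemma m_eq {a w : C} (h : F.eval a = w) : rootMultiplicity a (F - Polynomial.C w) = em F a := by
  rw [em, h]

omit [IsAlgClosed C] in
lemma m_ne {a w : C} (h : F.eval a ≠ w) : rootMultiplicity a (F - Polynomial.C w) = 0 :=
  rootMultiplicity_eq_zero (by simpa [sub_eq_zero] using h)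

lemma ex_val (h : 0 < F.natDegree) (w : C) : ∃ a, F.eval a = w := by
  obtain ⟨a, ha⟩ := exr (p := F - Polynomial.C w) (by rwa [natDegree_sub_C])
  exact ⟨a, by simpa [sub_eq_zero] using ha⟩

variable [CharZero C]

omit [IsAlgClosed C] in
lemma m_der (F : C[X]) (a : C) : rootMultiplicity a (derivative F) = em F a - 1 := by
  have := derivative_rootMultiplicity_of_root (p := F - Polynomial.C (F.eval a)) (t := a) (by simp)
  simpa [em] using this

omit [IsAlgClosed C] in
lemma der0 (h : 0 < F.natDegree) : derivative F ≠ 0 := fun e => by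
  have := derivative_eq_zero.1 e
  omega

/-- Two critical values with small cone angles. -/
lemma two {J : ℕ} {w1 w2 : C} (J0 : 0 < J) (B0 : B ≠ 0) (dB : B.natDegree ≤ J)
    (mB : ∀ a, rootMultiplicity a B < J) (hF : 0 < F.natDegree) (hw : w1 ≠ w2)
    (h : ∀ a, F.eval a = w1 ∨ F.eval a = w2 → 2 * (J - rootMultiplicity a B) ≤ J * em F a) :
    Two J B := by
  have p0 := mul_ne_zero (sub0 hF w1) (sub0 hF w2)
  have q0 := mul_ne_zero (pow_ne_zero J (der0 hF)) B0
  have hp : ∀ a, rootMultiplicity a (((F - Polynomial.C w1) * (F - Polynomial.C w2)) ^ J) =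
      J * (rootMultiplicity a (F - Polynomial.C w1) + rootMultiplicity a (F - Polynomial.C w2)) :=
    fun a => by rw [mpow, rootMultiplicity_mul p0]
  have hq : ∀ a, rootMultiplicity a ((derivative F ^ J * B) ^ 2) =
      2 * (J * (em F a - 1) + rootMultiplicity a B) :=
    fun a => by rw [mpow, rootMultiplicity_mul q0, mpow, m_der]
  have hs : ∀ a, (F.eval a = w1 ∨ F.eval a = w2) ∧ rootMultiplicity a (F - Polynomial.C w1) +
      rootMultiplicity a (F - Polynomial.C w2) = em F a ∨ rootMultiplicity a (F - Polynomial.C w1) +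
      rootMultiplicity a (F - Polynomial.C w2) = 0 := fun a => by
    by_cases h1 : F.eval a = w1
    · exact Or.inl ⟨Or.inl h1, by rw [m_eq h1, m_ne (h1 ▸ hw), add_zero]⟩
    by_cases h2 : F.eval a = w2
    · exact Or.inl ⟨Or.inr h2, by rw [m_eq h2, m_ne h1, zero_add]⟩
    · exact Or.inr (by rw [m_ne h1, m_ne h2])
  have hle : ∀ a, rootMultiplicity a (((F - Polynomial.C w1) * (F - Polynomial.C w2)) ^ J) ≤
      rootMultiplicity a ((derivative F ^ J * B) ^ 2) := fun a => by
    rw [hp, hq]
    rcases hs a with ⟨h1, h2⟩ | h2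
    · obtain ⟨e, he⟩ := Nat.exists_eq_add_one_of_ne_zero (em_pos hF a).ne'
      have h3 := h a h1
      have h4 := mB a
      rw [h2]
      rw [he] at h3 ⊢
      rw [Nat.add_sub_cancel, mul_add, mul_one] at *
      omega
    · simp [h2]
  obtain ⟨f, hf⟩ := Nat.exists_eq_add_one_of_ne_zero hF.ne'
  have d1 : (((F - Polynomial.C w1) * (F - Polynomial.C w2)) ^ J).natDegree =
      2 * (J * f) + 2 * J := by
    rw [natDegree_pow, natDegree_mul (sub0 hF w1) (sub0 hF w2), natDegree_sub_C, natDegree_sub_C,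
      hf]
    ring
  have d2 : ((derivative F ^ J * B) ^ 2).natDegree = 2 * (J * f) + 2 * B.natDegree := by
    rw [natDegree_pow, natDegree_mul (pow_ne_zero J (der0 hF)) B0, natDegree_pow,
      natDegree_derivative, hf, Nat.add_sub_cancel]
    ring
  have d3 := degle hle
  have he := eqm hle (by omega)
  have half : ∀ a, B.IsRoot a → J ≤ 2 * rootMultiplicity a B := fun a ha => by
    have h1 := (rootMultiplicity_pos B0).2 ha
    have h2 := he a
    rw [hp, hq] at h2
    rcases hs a with ⟨-, h3⟩ | h3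
    · obtain ⟨e, he⟩ := Nat.exists_eq_add_one_of_ne_zero (em_pos hF a).ne'
      rw [h3, he, Nat.add_sub_cancel, mul_add, mul_one] at h2
      rcases e with _ | e
      · omega
      · rw [mul_add J e] at h2
        omega
    · rw [h3] at h2
      omega
  obtain ⟨a, ha⟩ := exr (p := B) (by omega)
  by_contra hn
  have h1 : ∀ b, rootMultiplicity b B ≤
      rootMultiplicity b ((X - Polynomial.C a) ^ rootMultiplicity a B) := fun b => by
    by_cases hb : b = a
    · rw [hb, rootMultiplicity_X_sub_C_pow]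
    · rw [rootMultiplicity_eq_zero fun h => hn ⟨a, b, Ne.symm hb, half a ha, half b h⟩]
      exact Nat.zero_le _
  have h2 := degle h1
  have h3 := mB a
  rw [natDegree_pow, natDegree_X_sub_C] at h2
  omega

/-- At most one critical value: a pure power. -/
lemma pure {w : C} (hF : 0 < F.natDegree) (h : ∀ a, 2 ≤ em F a → F.eval a = w) :
    ∃ a c : C, c ≠ 0 ∧ F - Polynomial.C w = Polynomial.C c * (X - Polynomial.C a) ^ F.natDegree := by
  classical
  obtain ⟨a, ha⟩ := ex_val hF w
  have h1 : ∀ b, F.eval b = w → b = a := fun b hb => by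
    by_contra hn
    have x0 := mul_ne_zero (X_sub_C_ne_zero a) (X_sub_C_ne_zero b)
    have h2 : ∀ t, rootMultiplicity t (derivative F * ((X - Polynomial.C a) * (X - Polynomial.C b)))
        ≤ rootMultiplicity t (F - Polynomial.C w) := fun t => by
      rw [rootMultiplicity_mul (mul_ne_zero (der0 hF) x0), rootMultiplicity_mul x0, m_der,
        rootMultiplicity_X_sub_C, rootMultiplicity_X_sub_C]
      have h3 := em_pos hF t
      by_cases ht : F.eval t = w
      · rw [m_eq ht]
        split_ifs with h4 h5 <;> first | omega | exact absurd (h5.symm.trans h4) hn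
      · have h4 : ¬ 2 ≤ em F t := fun e => ht (h t e)
        rw [if_neg fun e : t = a => ht (e ▸ ha), if_neg fun e : t = b => ht (e ▸ hb)]
        omega
    have h3 := degle h2
    rw [natDegree_mul (der0 hF) x0, natDegree_mul (X_sub_C_ne_zero a) (X_sub_C_ne_zero b),
      natDegree_derivative, natDegree_X_sub_C, natDegree_X_sub_C, natDegree_sub_C] at h3
    omega
  have h2 : (F - Polynomial.C w).roots = Multiset.replicate F.natDegree a :=
    Multiset.eq_replicate.2 ⟨by
      rw [← (IsAlgClosed.splits _).natDegree_eq_card_roots, natDegree_sub_C],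
      fun b hb => h1 b (by simpa [sub_eq_zero] using isRoot_of_mem_roots hb)⟩
  refine ⟨a, _, leadingCoeff_ne_zero.2 (sub0 hF w), ?_⟩
  conv_lhs => rw [(IsAlgClosed.splits (F - Polynomial.C w)).eq_prod_roots, h2]
  simp

end Poly

variable [CharZero C] [IsAlgClosed C] {K : Type} [Field K] [Algebra C K] {d : Der C K} {x y : K}

lemma unit0 (hf : Fld d) (hx : d x ≠ 0) (hy : d y ≠ 0) (hn : NCP d x y) {F G : C[X]} (F0 : F ≠ 0)
    (G0 : G ≠ 0) (hd : F.natDegree ≤ G.natDegree)
    (h : ∀ (P : Pl d) (a b : C), 0 < P.o (x - algebraMap C K a) → 0 < P.o (y - algebraMap C K b) →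
      rootMultiplicity a F * P.o (x - algebraMap C K a) =
        rootMultiplicity b G * P.o (y - algebraMap C K b)) :
    F.natDegree = G.natDegree ∧ ∃ c : C, c ≠ 0 ∧ aeval x F = algebraMap C K c * aeval y G := by
  have hF : aeval x F ≠ 0 := fun e => F0 (aeval_inj hx (by simpa using e))
  have hG : aeval y G ≠ 0 := fun e => G0 (aeval_inj hy (by simpa using e))
  have hi : ∀ P : Pl d, P.o x < 0 →
      P.o (aeval x F / aeval y G) = ((F.natDegree : ℚ) - G.natDegree) * P.o x := fun P hP => by
    have h1 := hn P (Or.inl hP)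
    rw [Pl.o_div hF hG, (Pl.o_inf hP F0).2, (Pl.o_inf (h1 ▸ hP) G0).2, ← h1]
    ring
  obtain ⟨c, hc⟩ := hf.const (g := aeval x F / aeval y G) fun P => Pl.G.of_le (by
    rcases lt_or_ge (P.o x) 0 with hP | hP
    · have : (F.natDegree : ℚ) ≤ G.natDegree := by exact_mod_cast hd
      rw [hi P hP]
      nlinarith
    · obtain ⟨a, ha⟩ := Pl.ex_pt hx hP
      obtain ⟨b, hb⟩ := hn.ex_pt hy ha
      rw [Pl.o_div hF hG, (Pl.o_fin ha F0).2, (Pl.o_fin hb G0).2, h P a b ha hb, sub_self])
  obtain ⟨P, hP⟩ := hf.ex_inf hx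
  have h1 := hi P hP
  rw [hc, P.cst] at h1
  refine ⟨by exact_mod_cast sub_eq_zero.1 ((mul_eq_zero.1 h1.symm).resolve_right hP.ne), c,
    fun e => div_ne_zero hF hG (by simp [hc, e]), (div_eq_iff hG).1 hc⟩

/-- Proportional multiplicities come from a common function. -/
lemma unit (hf : Fld d) (hx : d x ≠ 0) (hy : d y ≠ 0) (hn : NCP d x y) {μ ν : C → ℕ}
    (hμ : (Function.support μ).Finite) (hν : (Function.support ν).Finite) {a0 : C} (h0 : μ a0 ≠ 0)
    (h : ∀ (P : Pl d) (a b : C), 0 < P.o (x - algebraMap C K a) → 0 < P.o (y - algebraMap C K b) →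
      μ a * P.o (x - algebraMap C K a) = ν b * P.o (y - algebraMap C K b)) :
    ∃ F G : C[X], (0 < F.natDegree ∧ G.natDegree = F.natDegree ∧ aeval x F = aeval y G) ∧
      (∀ a, rootMultiplicity a F = μ a) ∧ ∀ b, rootMultiplicity b G = ν b := by
  obtain ⟨F, F0, hF⟩ := exm hμ
  obtain ⟨G, G0, hG⟩ := exm hν
  have h1 : F.natDegree = G.natDegree ∧
      ∃ c : C, c ≠ 0 ∧ aeval x F = algebraMap C K c * aeval y G := by
    rcases le_total F.natDegree G.natDegree with hd | hd
    · exact unit0 hf hx hy hn F0 G0 hd fun P a b ha hb => by rw [hF, hG, h P a b ha hb]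
    · obtain ⟨h1, c, c0, hc⟩ := unit0 hf hy hx hn.symm G0 F0 hd fun P b a hb ha => by
        rw [hF, hG, h P a b ha hb]
      have : algebraMap C K c ≠ 0 := by simpa using c0
      exact ⟨h1.symm, c⁻¹, inv_ne_zero c0, by rw [hc, map_inv₀, inv_mul_cancel_left₀ this]⟩
  obtain ⟨h1, c, c0, hc⟩ := h1
  have h2 : Polynomial.C c * G ≠ 0 := mul_ne_zero (by simpa using c0) G0
  refine ⟨F, Polynomial.C c * G, ⟨?_, by rw [natDegree_C_mul c0, h1], by simpa using hc⟩, hF,
    fun b => by rw [rootMultiplicity_mul h2, rootMultiplicity_C, zero_add, hG]⟩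
  exact natDegree_pos_iff_degree_pos.2 (degree_pos_of_root F0
    ((rootMultiplicity_pos F0).1 (by rw [hF]; exact Nat.pos_of_ne_zero h0)))

omit [IsAlgClosed C] in
/-- Values and local degrees of a common function at a finite place. -/
lemma loc {F G : C[X]} (hF : 0 < F.natDegree) (hG : 0 < G.natDegree) (e : aeval x F = aeval y G)
    {P : Pl d} {a b : C} (ha : 0 < P.o (x - algebraMap C K a))
    (hb : 0 < P.o (y - algebraMap C K b)) : F.eval a = G.eval b ∧
      em F a * P.o (x - algebraMap C K a) = em G b * P.o (y - algebraMap C K b) := by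
  have h1 : F.eval a = G.eval b :=
    (Pl.R.aeval (P := P) (Or.inr ha) F).unique (e ▸ Pl.R.aeval (P := P) (Or.inr hb) G)
  refine ⟨h1, ?_⟩
  rw [em, em, ← (Pl.o_fin ha (sub0 hF _)).2, ← (Pl.o_fin hb (sub0 hG _)).2, h1]
  simp [e]

omit [CharZero C] [IsAlgClosed C] in
lemma fin_val {F : C[X]} (hF : 0 < F.natDegree) (w : C) : {a | F.eval a = w}.Finite :=
  (finite_setOfPred_isRoot (sub0 hF w)).subset fun a ha => by simpa [sub_eq_zero] using ha

lemma arith {n e n1 e1 J : ℕ} (h1 : 0 < e1) (h : n * e1 = n1 * e) (h2 : 2 * n1 ≤ J * e1) :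
    2 * n ≤ J * e := by
  refine Nat.le_of_mul_le_mul_right (c := e1) ?_ h1
  nlinarith [Nat.mul_le_mul_right e h2]

end PiA

open PiA in
theorem pi : StmtPI := by
  classical
  intro C K _ _ _ _ _ _ d x y J A B S T hf h hn mB mA fS fT ⟨a0, ha0⟩ hi
  have nu : ∀ (P : Pl d) (a b : C), 0 < P.o (x - algebraMap C K a) →
      0 < P.o (y - algebraMap C K b) →
      ((J - rootMultiplicity a B : ℕ) : ℚ) * P.o (x - algebraMap C K a) =
        ((J - rootMultiplicity b A : ℕ) : ℚ) * P.o (y - algebraMap C K b) := fun P a b ha hb => by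
    rw [Nat.cast_sub (mB a).le, Nat.cast_sub (mA b).le]
    exact h.nu P ha hb
  have ex : ∃ n, ∃ F G : C[X], F.natDegree = n ∧
      0 < F.natDegree ∧ G.natDegree = F.natDegree ∧ aeval x F = aeval y G := by
    obtain ⟨F, G, h1, -⟩ := unit hf h.dx h.dy hn
      (μ := fun a => if a ∈ S then J - rootMultiplicity a B else 0)
      (ν := fun b => if b ∈ T then J - rootMultiplicity b A else 0)
      (fS.subset fun a ha => by_contra fun e => ha (if_neg e))
      (fT.subset fun a ha => by_contra fun e => ha (if_neg e)) (a0 := a0)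
      (by have := mB a0; simp only [if_pos ha0]; omega) fun P a b ha hb => by
        by_cases h1 : a ∈ S
        · simp only [if_pos h1, if_pos ((hi P a b ha hb).1 h1)]
          exact nu P a b ha hb
        · simp [if_neg h1, if_neg fun e => h1 ((hi P a b ha hb).2 e)]
    exact ⟨_, F, G, rfl, h1⟩
  obtain ⟨F, G, hm, hF, hd, e⟩ := Nat.find_spec ex
  have hG : 0 < G.natDegree := hd ▸ hF
  have fib : ∀ w a1, F.eval a1 = w → (∀ a, F.eval a = w →
      (J - rootMultiplicity a B) * em F a1 = (J - rootMultiplicity a1 B) * em F a) ∧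
      ∀ b, G.eval b = w →
      (J - rootMultiplicity b A) * em F a1 = (J - rootMultiplicity a1 B) * em G b := by
    intro w a1 h1
    obtain ⟨F', G', ⟨h2, h3, h4⟩, h5, h6⟩ := unit hf h.dx h.dy hn
      (μ := fun a => if F.eval a = w ∧ (J - rootMultiplicity a B) * em F a1 =
        (J - rootMultiplicity a1 B) * em F a then em F a else 0)
      (ν := fun b => if G.eval b = w ∧ (J - rootMultiplicity b A) * em F a1 =
        (J - rootMultiplicity a1 B) * em G b then em G b else 0)
      ((fin_val hF w).subset fun a ha => by_contra fun e => ha (if_neg fun t => e t.1))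
      ((fin_val hG w).subset fun a ha => by_contra fun e => ha (if_neg fun t => e t.1)) (a0 := a1)
      (by simpa [h1] using (em_pos hF a1).ne') fun P a b ha hb => by
        obtain ⟨h2, h3⟩ := loc hF hG e ha hb
        have h4 := nu P a b ha hb
        have h5 : (J - rootMultiplicity a B) * em F a1 = (J - rootMultiplicity a1 B) * em F a ↔
            (J - rootMultiplicity b A) * em F a1 = (J - rootMultiplicity a1 B) * em G b := by
          rw [← Nat.cast_inj (R := ℚ), ← Nat.cast_inj (R := ℚ) (n := _ * em G b)]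
          simp only [Nat.cast_mul]
          constructor <;> intro h5
          · refine mul_right_cancel₀ hb.ne' ?_
            linear_combination P.o (x - algebraMap C K a) * h5 - (em F a1 : ℚ) * h4 +
              ((J - rootMultiplicity a1 B : ℕ) : ℚ) * h3
          · refine mul_right_cancel₀ ha.ne' ?_
            linear_combination P.o (y - algebraMap C K b) * h5 + (em F a1 : ℚ) * h4 -
              ((J - rootMultiplicity a1 B : ℕ) : ℚ) * h3
        simp only [h2, h5]
        split_ifs
        · exact h3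
        · simp
    have h7 : F.natDegree ≤ F'.natDegree := hm ▸ Nat.find_min' ex ⟨F', G', rfl, h2, h3, h4⟩
    constructor
    · intro a ha
      have := eqm (p := F') (q := F - Polynomial.C w) (fun t => by
        rw [h5]
        split_ifs with h8
        exacts [(m_eq h8.1).ge, Nat.zero_le _]) (by rwa [natDegree_sub_C]) a
      rw [h5, m_eq ha] at this
      by_contra h8
      rw [if_neg fun t => h8 t.2] at this
      exact (em_pos hF a).ne this
    · intro b hb
      have := eqm (p := G') (q := G - Polynomial.C w) (fun t => by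
        rw [h6]
        split_ifs with h8
        exacts [(m_eq h8.1).ge, Nat.zero_le _]) (by rwa [natDegree_sub_C, hd, h3]) b
      rw [h6, m_eq hb] at this
      by_contra h8
      rw [if_neg fun t => h8 t.2] at this
      exact (em_pos hG b).ne this
  let Cr : C → Prop := fun w => (∃ a, F.eval a = w ∧ 2 ≤ em F a) ∨ ∃ b, G.eval b = w ∧ 2 ≤ em G b
  have cr : ∀ w, Cr w → (∀ a, F.eval a = w → 2 * (J - rootMultiplicity a B) ≤ J * em F a) ∧
      ∀ b, G.eval b = w → 2 * (J - rootMultiplicity b A) ≤ J * em G b := fun w hw => by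
    obtain ⟨a1, h1⟩ := ex_val hF w
    obtain ⟨h2, h3⟩ := fib w a1 h1
    have h4 : 2 * (J - rootMultiplicity a1 B) ≤ J * em F a1 := by
      rcases hw with ⟨a, h4, h5⟩ | ⟨b, h4, h5⟩
      · have h6 := Nat.mul_le_mul_right (em F a1) (Nat.sub_le J (rootMultiplicity a B))
        have h7 := Nat.mul_le_mul_left (J - rootMultiplicity a1 B) h5
        have := h2 a h4
        omega
      · have h6 := Nat.mul_le_mul_right (em F a1) (Nat.sub_le J (rootMultiplicity b A))
        have h7 := Nat.mul_le_mul_left (J - rootMultiplicity a1 B) h5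
        have := h3 b h4
        omega
    exact ⟨fun a ha => arith (em_pos hF a1) (h2 a ha) h4,
      fun b hb => arith (em_pos hF a1) (h3 b hb) h4⟩
  by_cases h2 : ∃ w1 w2, w1 ≠ w2 ∧ Cr w1 ∧ Cr w2
  · obtain ⟨w1, w2, hw, h1, h2⟩ := h2
    exact Or.inr ⟨two h.J0 h.A0 h.dA mA hG hw fun b hb =>
      hb.elim ((cr w1 h1).2 b) ((cr w2 h2).2 b), two h.J0 h.B0 h.dB mB hF hw fun a ha =>
      ha.elim ((cr w1 h1).1 a) ((cr w2 h2).1 a)⟩
  have h3 : ∃ w, ∀ w', Cr w' → w' = w := by
    by_cases h3 : ∃ w, Cr w
    · obtain ⟨w, hw⟩ := h3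
      exact ⟨w, fun w' hw' => by_contra fun e => h2 ⟨w', w, e, hw', hw⟩⟩
    · exact ⟨0, fun w hw => absurd ⟨w, hw⟩ h3⟩
  obtain ⟨w, hw⟩ := h3
  obtain ⟨a, α, α0, ha⟩ := pure hF (w := w) fun a ha => hw _ (Or.inl ⟨a, rfl, ha⟩)
  obtain ⟨b, β, β0, hb⟩ := pure hG (w := w) fun b hb => hw _ (Or.inr ⟨b, rfl, hb⟩)
  have h4 := congrArg (aeval x) ha
  have h5 := congrArg (aeval y) hb
  simp only [map_sub, map_mul, map_pow, aeval_C, aeval_X] at h4 h5
  have u0 : x - algebraMap C K a ≠ 0 := fun t => h.dx (by rw [sub_eq_zero.1 t, d.map_algebraMap])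
  have β1 : algebraMap C K β ≠ 0 := by simpa using β0
  obtain ⟨c, hc⟩ := hf.root (g := (y - algebraMap C K b) / (x - algebraMap C K a)) hF.ne'
    (c := α / β) (by
      rw [div_pow, map_div₀, div_eq_div_iff (pow_ne_zero _ u0) β1, ← h4, e, h5, hd, mul_comm])
  refine Or.inl (Con.line (a := c) (b := b - c * a) ?_)
  rw [div_eq_iff u0] at hc
  rw [map_sub, map_mul]
  linear_combination hc

end Pool.Agent.MP_249f74_an.H53
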