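import Pool.Agent.MP_249f74_an.H53.Spec

/-! The curves `x = a + c T ^ n`, `y = b + e (T - 1) ^ n`. -/

open Polynomial

namespace Pool.Agent.MP_249f74_an.H53

namespace Pow

variable {k : Type} [Field k] [CharZero k]

/-- The polynomial `a + c X ^ n`. -/
noncomputable def P (a c : k) (n : ℕ) : k[X] := C a + C c * X ^ n

/-- The shift `X ↦ X - 1`. -/
noncomputable def sg : k[X] →ₐ[k] k[X] := aeval (X - 1)

omit [CharZero k] in
@[simp] lemma sg_X : sg (X : k[X]) = X - 1 := aeval_X _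

omit [CharZero k] in
@[simp] lemma sg_C (a : k) : sg (C a) = C a := aeval_C _ _

omit [CharZero k] in
lemma sg_eq (f : k[X]) : sg f = taylor (-1) f := by
  rw [taylor_apply, map_neg, C_1, ← sub_eq_add_neg, comp_eq_aeval]; rfl

omit [CharZero k] in
lemma aeval_sg {K : Type} [Field K] [Algebra k K] (T : K) (f : k[X]) :
    aeval T (sg f) = aeval (T - 1) f := by
  rw [sg, ← comp_eq_aeval, aeval_comp]; simp

omit [CharZero k] in
lemma dP (a c : k) (m : ℕ) {ν : k} (h : ν = m + 1) :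
    derivative (P a c (m + 1)) = C c * C ν * X ^ m := by
  simp [P, h, derivative_X_pow_succ, mul_assoc]

omit [CharZero k] in
lemma xd (N : ℕ) {μ : k} (h : μ = N) : X * derivative (X ^ N : k[X]) = C μ * X ^ N := by
  rcases N with _ | N
  · simp [h]
  · rw [derivative_X_pow_succ, h]; push_cast; ring

omit [CharZero k] in
lemma tay {g : k[X]} {M : ℕ} (h : g.natDegree ≤ M + 1) :
    (sg g).coeff M = g.coeff M - (M + 1) * g.coeff (M + 1) := by
  have h1 : (hasseDeriv M g).natDegree < 2 := (natDegree_hasseDeriv_le g M).trans_lt (by omega)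
  rw [sg_eq, taylor_coeff, eval_eq_sum_range' h1, Finset.sum_range_succ, Finset.sum_range_one,
    hasseDeriv_coeff, hasseDeriv_coeff, add_comm 1 M]
  simp [sub_eq_add_neg]

omit [CharZero k] in
lemma cg {n N i j : ℕ} (hn : 0 < n) {a c : k} {f G : k[X]}
    (h : X ^ i * G.comp (P a c n) = X ^ N * f) (hj : f.coeff j ≠ 0) : ∃ t, j + N = i + n * t := by
  have e : G.comp (P a c n) = expand k n (G.comp (C a + C c * X)) := by
    rw [expand_eq_comp_X_pow, comp_assoc]; simp [P]
  rw [← coeff_X_pow_mul f N j, ← h, coeff_X_pow_mul', e, coeff_expand hn] at hj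
  split_ifs at hj with h1 h2
  · obtain ⟨t, ht⟩ := h2
    exact ⟨t, by omega⟩
  · exact absurd rfl hj
  · exact absurd rfl hj

lemma lg {m : ℕ} {f g : k[X]} (hf : ∀ j, f.coeff (j + 1) ≠ 0 → f.coeff j = 0)
    (hg : ∀ j, g.coeff (j + 1) ≠ 0 → g.coeff j = 0) (h : ∀ j, m ≤ j → (f - sg g).coeff j = 0) :
    f.natDegree ≤ m ∧ g.natDegree ≤ m := by
  by_contra hn
  obtain ⟨M, hM⟩ : ∃ M, max f.natDegree g.natDegree = M + 1 :=
    ⟨max f.natDegree g.natDegree - 1, by omega⟩
  have h1 := h (M + 1) (by omega)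
  have h2 := h M (by omega)
  rw [coeff_sub, tay (by omega), coeff_eq_zero_of_natDegree_lt (show g.natDegree < M + 1 + 1 by
    omega), mul_zero, sub_zero, sub_eq_zero] at h1
  rw [coeff_sub, tay (by omega)] at h2
  have h3 : g.coeff (M + 1) ≠ 0 := by
    rcases le_total f.natDegree g.natDegree with e | e
    · rw [max_eq_right e] at hM
      rw [← hM]
      exact leadingCoeff_ne_zero.2 fun e' => by simp [e'] at hM
    · rw [max_eq_left e] at hM
      rw [← h1, ← hM]
      exact leadingCoeff_ne_zero.2 fun e' => by simp [e'] at hM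
  rw [hf M (h1 ▸ h3), hg M h3] at h2
  have h4 : (M + 1 : k) ≠ 0 := by exact_mod_cast M.succ_ne_zero
  exact mul_ne_zero h4 h3 (by linear_combination h2)

lemma key {n N i m : ℕ} (hn : 2 ≤ n) {a c b e : k} {F G H : k[X]}
    (h : X ^ i * F.comp (P a c n) * (X - 1) ^ N - sg (X ^ i * G.comp (P b e n)) * X ^ N =
      X ^ N * (X - 1) ^ N * H) (hH : ∀ j, m ≤ j → H.coeff j = 0) :
    ∃ f g, X ^ i * F.comp (P a c n) = X ^ N * f ∧ X ^ i * G.comp (P b e n) = X ^ N * g ∧
      f - sg g = H ∧ (∀ j, f.coeff j ≠ 0 → j ≤ m ∧ ∃ t, j + N = i + n * t) ∧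
      ∀ j, g.coeff j ≠ 0 → j ≤ m ∧ ∃ t, j + N = i + n * t := by
  have hc : IsCoprime (X : k[X]) (X - 1) := ⟨1, -1, by ring⟩
  obtain ⟨f, hf⟩ : X ^ N ∣ X ^ i * F.comp (P a c n) :=
    (hc.pow (m := N) (n := N)).dvd_of_dvd_mul_right
      ⟨(X - 1) ^ N * H + sg (X ^ i * G.comp (P b e n)), by linear_combination h⟩
  obtain ⟨g, hg⟩ : X ^ N ∣ X ^ i * G.comp (P b e n) := by
    obtain ⟨g, hg⟩ : (X - 1) ^ N ∣ sg (X ^ i * G.comp (P b e n)) :=
      (hc.symm.pow (m := N) (n := N)).dvd_of_dvd_mul_right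
        ⟨X ^ i * F.comp (P a c n) - X ^ N * H, by linear_combination -h⟩
    refine ⟨taylor 1 g, ?_⟩
    have := congrArg (taylor (1 : k)) hg
    rw [sg_eq, taylor_taylor, add_neg_cancel, taylor_zero, taylor_mul, taylor_pow] at this
    simpa using this
  have e : f - sg g = H := by
    rw [hf, hg, map_mul, map_pow, sg_X] at h
    refine mul_left_cancel₀ (a := (X : k[X]) ^ N * (X - 1) ^ N)
      (mul_ne_zero (pow_ne_zero _ X_ne_zero) (pow_ne_zero _ (X_sub_C_ne_zero 1))) ?_
    linear_combination h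
  have gap : ∀ {a c : k} {f F : k[X]}, X ^ i * F.comp (P a c n) = X ^ N * f →
      ∀ j, f.coeff (j + 1) ≠ 0 → f.coeff j = 0 := fun hf j h1 => by
    by_contra h2
    obtain ⟨s, hs⟩ := cg (by omega) hf h1
    obtain ⟨t, ht⟩ := cg (by omega) hf h2
    have : n ∣ 1 := (Nat.dvd_add_right (Dvd.intro t rfl)).1 ⟨s, by omega⟩
    have := Nat.le_of_dvd one_pos this
    omega
  obtain ⟨d1, d2⟩ := lg (gap hf) (gap hg) (e ▸ hH)
  exact ⟨f, g, hf, hg, e, fun j hj => ⟨(le_natDegree_of_ne_zero hj).trans d1, cg (by omega) hf hj⟩,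
    fun j hj => ⟨(le_natDegree_of_ne_zero hj).trans d2, cg (by omega) hg hj⟩⟩

omit [CharZero k] in
lemma two {f : k[X]} {m s : ℕ}
    (h : ∀ j, f.coeff j ≠ 0 → j ≤ 2 * m + 4 ∧ ∃ t, j + (m + 3) * s = 2 * m + 4 + (m + 3) * t) :
    ∃ α γ, f = C α * X ^ (2 * m + 4) + C γ * X ^ (m + 1) := by
  refine ⟨f.coeff (2 * m + 4), f.coeff (m + 1), ext fun j => ?_⟩
  simp only [coeff_add, coeff_C_mul, coeff_X_pow]
  split_ifs with h1 h2 h2
  · omega
  · simp [h1]
  · simp [h2]
  · by_contra h3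
    obtain ⟨h4, t, ht⟩ := h j (by simpa using h3)
    obtain ⟨r, hr⟩ : m + 3 ∣ j + 2 :=
      (Nat.dvd_add_left (Dvd.intro s rfl)).1 ⟨t + 2, by linarith⟩
    rcases r with _ | _ | _ | r
    · omega
    · omega
    · omega
    · nlinarith

omit [CharZero k] in
lemma three {f : k[X]} {s : ℕ} (h : ∀ j, f.coeff j ≠ 0 → j ≤ 8 ∧ ∃ t, j + 3 * s = 8 + 3 * t) :
    ∃ α β γ, f = C α * X ^ 8 + C β * X ^ 5 + C γ * X ^ 2 := by
  refine ⟨f.coeff 8, f.coeff 5, f.coeff 2, ext fun j => ?_⟩
  simp only [coeff_add, coeff_C_mul, coeff_X_pow]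
  split_ifs with h1 h2 h3 h3 h2 h3 h3 <;> try omega
  · simp [h1]
  · simp [h2]
  · simp [h3]
  · by_contra h4
    obtain ⟨h5, t, ht⟩ := h j (by simpa using h4)
    omega

omit [CharZero k] in
lemma s1 {a c ρ ν μ : k} {m N : ℕ} (hν : ν = m + 3) (hμ : μ = N) {B : k[X]}
    (h : B.comp (P a c (m + 3)) = C ρ * X ^ N) :
    (C c * C ν * X ^ (m + 2)) ^ 2 * (derivative B).comp (P a c (m + 3)) =
      X ^ N * (C ρ * C μ * C c * C ν * X ^ (m + 1)) := by
  have h1 := congrArg derivative h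
  rw [derivative_comp, dP a c (m + 2) (ν := ν) (by rw [hν]; push_cast; ring), derivative_C_mul]
    at h1
  linear_combination (C c * C ν * X ^ (m + 2)) * h1 + C c * C ν * X ^ (m + 1) * C ρ * xd N hμ

omit [CharZero k] in
lemma dd {a c ν μ : k} {N : ℕ} (hν : ν = 3) (hμ : μ = N) {G f : k[X]}
    (h : (C c * C ν * X ^ 2) ^ 2 * G.comp (P a c 3) = X ^ N * f) :
    (C c * C ν * X ^ 2) ^ 4 * (derivative G).comp (P a c 3) =
      X ^ N * (C c * C ν * X * ((C μ - 4) * f + X * derivative f)) := by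
  have h1 := congrArg derivative h
  have h2 : derivative ((C c * C ν * X ^ 2) ^ 2 : k[X]) = 4 * (C c * C ν) ^ 2 * X ^ 3 := by
    simp only [pow_two, derivative_mul, derivative_C, derivative_X]; ring
  rw [derivative_mul, derivative_mul, derivative_comp,
    dP a c 2 (ν := ν) (by rw [hν]; norm_num), h2] at h1
  linear_combination (C c * C ν * X ^ 2) * h1 - 4 * C c * C ν * X * h +
    C c * C ν * X * f * xd N hμ

lemma big {m : ℕ} {α γ α' γ' κ : k}
    (h : C α * X ^ (2 * (m + 1) + 4) + C γ * X ^ (m + 1 + 1) -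
      sg (C α' * X ^ (2 * (m + 1) + 4) + C γ' * X ^ (m + 1 + 1)) =
        C κ * X ^ (m + 1 + 1) * (X - 1) ^ (m + 1 + 1) * (1 - 2 * X)) : κ = 0 := by
  simp only [map_add, map_mul, map_pow, sg_C, sg_X] at h
  have h1 := congrArg (eval 1) h
  have h2 := congrArg (fun f => eval 1 (derivative f)) h
  simp [derivative_pow] at h1 h2
  have h3 : (m + 4 : k) ≠ 0 := by exact_mod_cast (m + 3).succ_ne_zero
  have ha : α = 0 := (mul_eq_zero.1 (show α * (m + 4) = 0 by
    linear_combination h2 - (m + 2) * h1)).resolve_right h3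
  have hg : γ = 0 := by linear_combination h1 - ha
  have h4 : -(C α' * (X - 1) ^ (m + 4) + C γ') = C κ * X ^ (m + 2) * (1 - 2 * X) := by
    refine mul_left_cancel₀ (a := ((X : k[X]) - 1) ^ (m + 2))
      (pow_ne_zero _ (X_sub_C_ne_zero 1)) ?_
    rw [ha, hg, C_0] at h
    linear_combination h
  have h5 := congrArg (fun f => eval 1 (derivative f)) h4
  simp [derivative_pow] at h5
  exact (mul_eq_zero.1 (show κ * (m + 4) = 0 by linear_combination h5)).resolve_right h3

lemma core {a b c e ρ ν μ : k} {m s : ℕ} (hν : ν = m + 3) (hμ : μ = ((m + 3) * s : ℕ))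
    {A A1 A2 B B1 B2 : k[X]} (hB : B.comp (P a c (m + 3)) = C ρ * X ^ ((m + 3) * s))
    (hA : A.comp (P b e (m + 3)) = C ρ * X ^ ((m + 3) * s))
    (E1 : (C c * C ν * X ^ (m + 2)) ^ 2 * (B1.comp (P a c (m + 3)) -
        (C b + C e * (X - 1) ^ (m + 3)) * (derivative B).comp (P a c (m + 3))) *
          (X - 1) ^ ((m + 3) * s) =
      (C e * C ν * (X - 1) ^ (m + 2)) ^ 2 * (sg (A1.comp (P b e (m + 3))) -
        (C a + C c * X ^ (m + 3)) * sg ((derivative A).comp (P b e (m + 3)))) * X ^ ((m + 3) * s))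
    (E2 : (C c * C ν * X ^ (m + 2)) ^ 4 * (2 * B2.comp (P a c (m + 3)) -
        2 * (C b + C e * (X - 1) ^ (m + 3)) * (derivative B1).comp (P a c (m + 3)) +
        (C b + C e * (X - 1) ^ (m + 3)) ^ 2 * (derivative (derivative B)).comp (P a c (m + 3))) *
          (X - 1) ^ ((m + 3) * s) =
      (C e * C ν * (X - 1) ^ (m + 2)) ^ 4 * (2 * sg (A2.comp (P b e (m + 3))) -
        2 * (C a + C c * X ^ (m + 3)) * sg ((derivative A1).comp (P b e (m + 3))) +
        (C a + C c * X ^ (m + 3)) ^ 2 * sg ((derivative (derivative A)).comp (P b e (m + 3)))) *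
          X ^ ((m + 3) * s)) : ρ * μ * ν * c * e = 0 := by
  have b0 := s1 hν hμ hB
  have a0 := s1 hν hμ hA
  have a0' := congrArg sg a0
  simp only [map_mul, map_pow, sg_C, sg_X] at a0'
  obtain ⟨f, g, hf, hg, h1, sf, sg'⟩ := key (n := m + 3) (N := (m + 3) * s) (i := 2 * m + 4)
    (m := 2 * m + 4) (by omega) (a := a) (c := c) (b := b) (e := e)
    (F := (C c * C ν) ^ 2 * (B1 - C b * derivative B))
    (G := (C e * C ν) ^ 2 * (A1 - C a * derivative A))
    (H := C (ρ * μ * ν * c * e) * X ^ (m + 1) * (X - 1) ^ (m + 1) * (1 - 2 * X))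
    (by
      simp only [mul_comp, sub_comp, pow_comp, C_comp, map_mul, map_sub, map_pow, sg_C, sg_X]
      linear_combination E1 + C e * (X - 1) ^ (m + 3) * (X - 1) ^ ((m + 3) * s) * b0 -
        C c * X ^ (m + 3) * X ^ ((m + 3) * s) * a0')
    (fun j hj => coeff_eq_zero_of_natDegree_lt (lt_of_le_of_lt (b := 2 * m + 3)
      (by compute_degree; omega) (by omega)))
  obtain ⟨α, γ, rfl⟩ := two sf
  obtain ⟨α', γ', rfl⟩ := two sg'
  rcases m with _ | m
  swap
  · exact big h1
  simp only [zero_add, mul_zero, Nat.cast_zero] at *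
  have v1 := fun t : k => congrArg (eval t) h1
  simp only [map_add, map_mul, map_pow, sg_C, sg_X, eval_add, eval_sub, eval_mul, eval_pow, eval_C,
    eval_X, eval_one, eval_ofNat] at v1
  obtain ⟨z, rfl⟩ : ∃ z, α' = -z := ⟨-α', by ring⟩
  have hz : 2 * z = ρ * μ * ν * c * e := by
    linear_combination (1 / 24) * v1 (-2) - (1 / 12) * v1 (-1) + (1 / 12) * v1 1 - (1 / 24) * v1 2
  obtain rfl : α = -z := by
    linear_combination (1 / 24) * v1 (-2) - (1 / 6) * v1 (-1) + (1 / 4) * v1 0 - (1 / 6) * v1 1 +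
      (1 / 24) * v1 2
  obtain rfl : γ' = -z := by linear_combination v1 0
  obtain rfl : z = γ := by linear_combination -v1 1
  have b1 := dd (a := a) (c := c) (G := B1 - C b * derivative B)
    (f := C (-z) * X ^ 4 + C z * X ^ 1) hν hμ (by
      simp only [mul_comp, sub_comp, pow_comp, C_comp] at hf ⊢
      linear_combination hf)
  have a1 := congrArg sg (dd (a := b) (c := e) (G := A1 - C a * derivative A)
    (f := C (-z) * X ^ 4 + C (-z) * X ^ 1) hν hμ (by
      simp only [mul_comp, sub_comp, pow_comp, C_comp] at hg ⊢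
      linear_combination hg))
  have b2 := dd hν hμ b0
  have a2 := congrArg sg (dd hν hμ a0)
  simp only [derivative_mul, derivative_C, derivative_X_pow,
    zero_mul, zero_add, mul_comp, sub_comp, C_comp, map_mul, map_sub, map_add, map_pow, map_neg,
    map_ofNat, map_one, sg_C, sg_X, Nat.cast_ofNat, Nat.cast_one, map_zero, neg_zero,
    Nat.add_one_sub_one, pow_zero] at a1 b1 a2 b2
  obtain ⟨f, g, -, -, h2, sf, sg'⟩ := key (n := 3) (N := 3 * s) (i := 8)
    (m := 8) (by omega) (a := a) (c := c) (b := b) (e := e)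
    (F := (C c * C ν) ^ 4 * (B2 + B2 - (C b + C b) * derivative B1 +
      C b ^ 2 * derivative (derivative B)))
    (G := (C e * C ν) ^ 4 * (A2 + A2 - (C a + C a) * derivative A1 +
      C a ^ 2 * derivative (derivative A)))
    (H := 2 * C c * C e * C ν * C z * (-C μ * X ^ 3 * (X - 1) ^ 3 * (2 * X - 1) +
        (C μ - 3) * X ^ 2 * (X - 1) ^ 2 * (2 * X - 1)) +
      C ρ * C μ * (C μ - 3) * C c ^ 2 * C e ^ 2 * C ν ^ 2 * X ^ 2 * (X - 1) ^ 2 *
        (4 * X ^ 3 - 6 * X ^ 2 + 4 * X - 1))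
    (by
      simp only [mul_comp, sub_comp, add_comp, pow_comp, C_comp, map_mul, map_sub, map_add,
        map_pow, sg_C, sg_X]
      linear_combination E2 + 2 * (C e * (X - 1) ^ 3) * (X - 1) ^ (3 * s) * b1 -
        (C e * (X - 1) ^ 3) ^ 2 * (X - 1) ^ (3 * s) * b2 -
        2 * (C c * X ^ 3) * X ^ (3 * s) * a1 + (C c * X ^ 3) ^ 2 * X ^ (3 * s) * a2)
    (fun j hj => coeff_eq_zero_of_natDegree_lt (lt_of_le_of_lt (b := 7)
      (by compute_degree) (by omega)))
  obtain ⟨a8, a5, a2, rfl⟩ := three sf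
  obtain ⟨b8, b5, b2, rfl⟩ := three sg'
  have v2 := fun t : k => congrArg (eval t) h2
  simp only [map_add, map_mul, map_pow, sg_C, sg_X, eval_add, eval_sub, eval_mul, eval_pow, eval_C,
    eval_X, eval_one, eval_ofNat, eval_neg] at v2
  have h3 : (ρ * μ * ν * c * e) * (ν * c * e) = 0 := by
    linear_combination (1 / 36) * (-(1 / 288) * v2 (-4) + (11 / 480) * v2 (-3) -
      (7 / 480) * v2 (-2) - (467 / 1440) * v2 (-1) + (91 / 96) * v2 0 - (33 / 32) * v2 1 +
      (697 / 1440) * v2 2 - (43 / 480) * v2 3 + (1 / 120) * v2 4) +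
      (1 / 2) * (1 - μ) * (ν * c * e) * hz
  rcases mul_eq_zero.1 h3 with h4 | h4
  · exact h4
  · linear_combination ρ * μ * h4

end Pow

open _root_.Pool.Agent.MP_249f74_an.H53.Pow in
theorem pow : StmtPOW := by
  intro k K _ _ _ _ _ _ d x y T J n A A1 A2 B B1 B2 a b c e h hc he hx hy
  have hx' : aeval T (P a c n) = x := by simp [P, hx]
  have hy' : aeval (T - 1) (P b e n) = y := by simp [P, hy]
  have dx : d x = aeval T (derivative (P a c n)) * d T := by
    rw [← hx', d.map_aeval, smul_eq_mul]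
  have dy : d y = aeval (T - 1) (derivative (P b e n)) * d T := by
    rw [← hy', d.map_aeval, smul_eq_mul, map_sub, d.map_one_eq_zero, sub_zero]
  have dT : d T ≠ 0 := fun h0 => h.dx (by rw [dx, h0, mul_zero])
  have hc' : algebraMap k K c ≠ 0 := by simpa using hc
  rcases n with _ | _ | _ | m
  · exact absurd (by simp [dx, P]) h.dx
  · refine Con.line (a := e / c) (b := b - e - e / c * a) ?_
    simp only [map_sub, map_mul, map_div₀]
    rw [hx, hy]
    field_simp
    ring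
  · refine ⟨e ^ 2, -(2 * c * e), c ^ 2, 2 * e * (c * b + c * e - e * a) - 4 * c * e ^ 2,
      -(2 * c * (c * b + c * e - e * a)), (c * b + c * e - e * a) ^ 2 + 4 * c * e ^ 2 * a,
      fun h0 => he (pow_eq_zero_iff two_ne_zero |>.1 h0.1), ?_⟩
    simp only [map_sub, map_add, map_mul, map_pow, map_neg, map_ofNat]
    rw [hx, hy]
    ring
  exfalso
  obtain ⟨ν, hν⟩ : ∃ ν : k, ν = m + 3 := ⟨_, rfl⟩
  have ν0 : ν ≠ 0 := by rw [hν]; exact_mod_cast (m + 2).succ_ne_zero
  have ν0' : algebraMap k K ν ≠ 0 := by simpa using ν0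
  change aeval T (P a c (m + 3)) = x at hx'
  change aeval (T - 1) (P b e (m + 3)) = y at hy'
  change x = _ + _ * T ^ (m + 3) at hx
  change y = _ + _ * (T - 1) ^ (m + 3) at hy
  rw [dP _ _ (m + 2) (ν := ν) (by rw [hν]; push_cast; ring)] at dx dy
  simp only [map_mul, map_pow, aeval_C, aeval_X] at dx dy
  have cx : ∀ G : k[X], aeval T (G.comp (P a c (m + 3))) = aeval x G := fun G => by
    rw [aeval_comp, hx']
  have cy : ∀ G : k[X], aeval T (sg (G.comp (P b e (m + 3)))) = aeval y G := fun G => by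
    rw [aeval_sg, aeval_comp, hy']
  have e0 := h.e0
  have e1 := h.e1
  have e2 := h.e2
  rw [dx, dy] at e0 e1 e2
  obtain ⟨f, g, hf, hg, h1, sf, sg'⟩ := key (n := m + 3) (N := (m + 2) * J) (i := 0) (m := 0)
    (by omega) (a := a) (c := c) (b := b) (e := e) (F := C e ^ J * B) (G := C c ^ J * A) (H := 0)
    (by
      refine aeval_inj dT ?_
      simp only [pow_zero, one_mul, mul_zero, map_zero, map_sub, map_mul, map_pow, cx, cy, aeval_X,
        aeval_C, map_one]
      refine mul_left_cancel₀ (pow_ne_zero J (mul_ne_zero ν0' dT)) ?_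
      simp only [mul_pow, ← pow_mul] at e0 ⊢
      linear_combination e0) fun _ _ => rfl
  have B0 : aeval x (C e ^ J * B) ≠ 0 := fun h0 =>
    mul_ne_zero (pow_ne_zero J (C_ne_zero.2 he)) h.B0 (aeval_inj h.dx (h0.trans (map_zero _).symm))
  obtain ⟨ρ, rfl⟩ : ∃ ρ, f = C ρ := ⟨_, eq_C_of_natDegree_le_zero
    (natDegree_le_iff_coeff_eq_zero.2 fun j hj => by_contra fun h0 => hj.not_ge (sf j h0).1)⟩
  obtain ⟨ρ', rfl⟩ : ∃ ρ, g = C ρ := ⟨_, eq_C_of_natDegree_le_zero
    (natDegree_le_iff_coeff_eq_zero.2 fun j hj => by_contra fun h0 => hj.not_ge (sg' j h0).1)⟩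
  rw [sg_C, sub_eq_zero] at h1
  rw [← h1] at hg
  rw [pow_zero, one_mul, mul_comm (X ^ _)] at hf hg
  have ρ0 : ρ ≠ 0 := fun h0 => B0 (by rw [← cx, hf, h0, C_0, zero_mul, map_zero])
  have ρ0' : algebraMap k K ρ ≠ 0 := by simpa using ρ0
  obtain ⟨-, s, hs⟩ := sf 0 (by simpa using ρ0)
  rw [zero_add, zero_add] at hs
  rw [hs] at hf hg
  have kB := congrArg (aeval T) hf
  have kA := congrArg (fun f => aeval T (sg f)) hg
  simp only [cx, cy, map_mul, map_pow, map_sub, map_one, sg_C, sg_X, aeval_C, aeval_X] at kB kA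
  have := core (A1 := C c ^ J * A1) (A2 := C c ^ J * A2) (B1 := C e ^ J * B1)
    (B2 := C e ^ J * B2) hν rfl hf hg
    (by
      refine aeval_inj dT ?_
      simp only [← C_pow, derivative_C_mul]
      simp only [map_sub, map_add, map_mul, map_pow, cx, cy, aeval_X, aeval_C, map_one, ← hx, ← hy]
      refine mul_left_cancel₀ (mul_ne_zero (pow_ne_zero 2 dT) ρ0') ?_
      linear_combination algebraMap k K e ^ J * algebraMap k K c ^ J * e1 -
        (algebraMap k K c * algebraMap k K ν * T ^ (m + 2) * d T) ^ 2 * algebraMap k K e ^ J *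
          (aeval x B1 - y * aeval x (derivative B)) * kA +
        (algebraMap k K e * algebraMap k K ν * (T - 1) ^ (m + 2) * d T) ^ 2 *
          algebraMap k K c ^ J * (aeval y A1 - x * aeval y (derivative A)) * kB)
    (by
      refine aeval_inj dT ?_
      simp only [← C_pow, derivative_C_mul]
      simp only [map_sub, map_add, map_mul, map_pow, cx, cy, aeval_X, aeval_C, map_one, ← hx, ← hy,
        map_ofNat]
      refine mul_left_cancel₀ (mul_ne_zero (pow_ne_zero 4 dT) ρ0') ?_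
      linear_combination algebraMap k K e ^ J * algebraMap k K c ^ J * e2 -
        (algebraMap k K c * algebraMap k K ν * T ^ (m + 2) * d T) ^ 4 * algebraMap k K e ^ J *
          (2 * aeval x B2 - 2 * y * aeval x (derivative B1) +
            y ^ 2 * aeval x (derivative (derivative B))) * kA +
        (algebraMap k K e * algebraMap k K ν * (T - 1) ^ (m + 2) * d T) ^ 4 *
          algebraMap k K c ^ J * (2 * aeval y A2 - 2 * x * aeval y (derivative A1) +
            x ^ 2 * aeval y (derivative (derivative A))) * kB)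
  have μ0 : (((m + 3) * s : ℕ) : k) ≠ 0 := by
    rw [← hs]
    exact Nat.cast_ne_zero.2 (mul_ne_zero (m + 1).succ_ne_zero h.J0.ne')
  exact mul_ne_zero (mul_ne_zero (mul_ne_zero (mul_ne_zero ρ0 μ0) ν0) hc) he this

end Pool.Agent.MP_249f74_an.H53
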