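import Pool.Agent.MP_249f74_an.H53.Spec

/-!
The three top equations of an integral `H (c, z) / z ^ M` on the lines `x = c + z ^ 2 * y`.
-/

open Polynomial IntermediateField

namespace Pool.Agent.MP_249f74_an.H53

open H17 (Der)

namespace Wrap

variable {C K : Type} [Field C] [Field K] [Algebra C K]

/-- Substitution of `x - X ^ 2 * y`. -/
noncomputable def psi (x y : K) (p : C[X]) : K[X] :=
  aeval (Polynomial.C x - X ^ 2 * Polynomial.C y : K[X]) p

lemma coeff_mul_sub (x y : K) (q : K[X]) (j : ℕ) :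
    (q * (Polynomial.C x - X ^ 2 * Polynomial.C y)).coeff (j + 2) =
      q.coeff (j + 2) * x - q.coeff j * y := by
  rw [mul_sub, coeff_sub, coeff_mul_C, ← mul_assoc, coeff_mul_C, coeff_mul_X_pow]

lemma coeff_mul_sub_lt (x y : K) (q : K[X]) (j : ℕ) (hj : j < 2) :
    (q * (Polynomial.C x - X ^ 2 * Polynomial.C y)).coeff j = q.coeff j * x := by
  rw [mul_sub, coeff_sub, coeff_mul_C, ← mul_assoc, coeff_mul_C, coeff_mul_X_pow',
    if_neg (by omega)]
  simp

lemma psi_coeff (x y : K) (p : C[X]) :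
    (psi x y p).coeff 0 = aeval x p ∧ (psi x y p).coeff 1 = 0 ∧
      (psi x y p).coeff 2 = -(y * aeval x (derivative p)) ∧ (psi x y p).coeff 3 = 0 ∧
      2 * (psi x y p).coeff 4 = y ^ 2 * aeval x (derivative (derivative p)) := by
  induction p using Polynomial.induction_on with
  | C a =>
    simp [psi, coeff_C, Polynomial.algebraMap_apply]
  | add p q hp hq =>
    obtain ⟨a0, a1, a2, a3, a4⟩ := hp
    obtain ⟨b0, b1, b2, b3, b4⟩ := hq
    have e : psi x y (p + q) = psi x y p + psi x y q := map_add _ _ _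
    simp only [e, coeff_add, map_add]
    refine ⟨by rw [a0, b0], by rw [a1, b1, add_zero], by rw [a2, b2]; ring,
      by rw [a3, b3, add_zero], by linear_combination a4 + b4⟩
  | monomial n a h =>
    obtain ⟨a0, a1, a2, a3, a4⟩ := h
    set p : C[X] := Polynomial.C a * X ^ n with hp
    have e1 : Polynomial.C a * X ^ (n + 1) = p * X := by rw [hp, pow_succ, mul_assoc]
    have e : psi x y (p * X) = psi x y p * (Polynomial.C x - X ^ 2 * Polynomial.C y) := by
      simp [psi]
    rw [e1, e]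
    refine ⟨?_, ?_, ?_, ?_, ?_⟩
    · rw [coeff_mul_sub_lt _ _ _ _ (by omega), a0]; simp
    · rw [coeff_mul_sub_lt _ _ _ _ (by omega), a1]; simp
    · rw [coeff_mul_sub x y _ 0, a2, a0]
      simp only [derivative_mul, derivative_X, mul_one, map_add, map_mul, aeval_X]
      ring
    · rw [coeff_mul_sub x y _ 1, a3, a1]; simp
    · rw [coeff_mul_sub x y _ 2, a2]
      simp only [derivative_mul, derivative_X, mul_one, map_add, map_mul, aeval_X]
      linear_combination x * a4

/-- The integral along the pencil of lines through `(x, y)`, as a polynomial in the slope. -/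
noncomputable def Phi (x y : K) (H : C[X][X]) : K[X] :=
  aevalAeval (Polynomial.C x - X ^ 2 * Polynomial.C y : K[X]) X H

lemma Phi_coeff (x y : K) (H : C[X][X]) (j : ℕ) :
    (Phi x y H).coeff j =
      ∑ n ∈ Finset.range (j + 1), (psi x y (H.coeff n)).coeff (j - n) := by
  induction H using Polynomial.induction_on' with
  | add p q hp hq =>
    have e : Phi x y (p + q) = Phi x y p + Phi x y q := map_add _ _ _
    rw [e, coeff_add, hp, hq, ← Finset.sum_add_distrib]
    refine Finset.sum_congr rfl fun n _ => ?_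
    rw [coeff_add, ← coeff_add]
    exact congrArg (fun r : K[X] => r.coeff (j - n)) (map_add _ _ _).symm
  | monomial m a =>
    have e : Phi x y (monomial m a) = psi x y a * X ^ m := by
      rw [← C_mul_X_pow_eq_monomial, Phi, map_mul, map_pow, aevalAeval_C, aevalAeval_Y, psi]
    rw [e, coeff_mul_X_pow']
    have z0 : psi x y (0 : C[X]) = 0 := map_zero _
    split_ifs with h
    · rw [Finset.sum_eq_single m]
      · rw [coeff_monomial, if_pos rfl]
      · intro n _ hn
        rw [coeff_monomial, if_neg (Ne.symm hn), z0, coeff_zero]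
      · intro hm
        exact absurd (Finset.mem_range.2 (by omega)) hm
    · refine (Finset.sum_eq_zero fun n hn => ?_).symm
      have := Finset.mem_range.1 hn
      rw [coeff_monomial, if_neg (by omega), z0, coeff_zero]

lemma Phi0 (x y : K) (H : C[X][X]) : (Phi x y H).coeff 0 = aeval x (H.coeff 0) := by
  rw [Phi_coeff]
  simp [(psi_coeff x y _).1]

lemma Phi2 (x y : K) (H : C[X][X]) :
    (Phi x y H).coeff 2 = aeval x (H.coeff 2) - y * aeval x (derivative (H.coeff 0)) := by
  rw [Phi_coeff]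
  simp only [Finset.sum_range_succ, Finset.range_zero, Finset.sum_empty, Nat.reduceSub,
    (psi_coeff x y _).1, (psi_coeff x y _).2.1, (psi_coeff x y _).2.2.1]
  ring

lemma Phi4 (x y : K) (H : C[X][X]) :
    2 * (Phi x y H).coeff 4 = 2 * aeval x (H.coeff 4) - 2 * y * aeval x (derivative (H.coeff 2)) +
      y ^ 2 * aeval x (derivative (derivative (H.coeff 0))) := by
  rw [Phi_coeff]
  simp only [Finset.sum_range_succ, Finset.range_zero, Finset.sum_empty, Nat.reduceSub,
    (psi_coeff x y _).1, (psi_coeff x y _).2.1, (psi_coeff x y _).2.2.1,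
    (psi_coeff x y _).2.2.2.1]
  linear_combination (psi_coeff x y (H.coeff 0)).2.2.2.2

lemma aeval_Phi {Ω : Type} [Field Ω] [Algebra K Ω] [Algebra C Ω] [IsScalarTower C K Ω]
    (x y : K) (z : Ω) (H : C[X][X]) :
    aeval z (Phi x y H) = aevalAeval (algebraMap K Ω x - z ^ 2 * algebraMap K Ω y) z H := by
  have e : ((aeval z : K[X] →ₐ[K] Ω).restrictScalars C).comp
      (aevalAeval (Polynomial.C x - X ^ 2 * Polynomial.C y : K[X]) X) =
      aevalAeval (algebraMap K Ω x - z ^ 2 * algebraMap K Ω y) z := by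
    refine algHom_ext' ?_ ?_
    · ext
      simp only [AlgHom.comp_apply, CAlgHom_apply, aevalAeval_X, AlgHom.restrictScalars_apply,
        map_sub, map_mul, map_pow, aeval_X, aeval_C]
    · simp
  exact congrArg (fun f : C[X][X] →ₐ[C] Ω => f H) e

lemma Phi_X_pow (x y : K) (H : C[X][X]) (n : ℕ) : Phi x y (X ^ n * H) = X ^ n * Phi x y H := by
  rw [Phi, map_mul, map_pow, aevalAeval_Y, Phi]

lemma exists_bound (H : C[X][X]) :
    ∃ N : ℕ, ∀ n k, (H.coeff n).coeff k ≠ 0 → n + 2 * k ≤ N := by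
  refine ⟨H.support.sup fun n => n + 2 * (H.coeff n).natDegree, fun n k h => ?_⟩
  have hn : n ∈ H.support := by
    rw [mem_support_iff]
    intro h0
    rw [h0] at h
    exact h (coeff_zero _)
  have h1 := le_natDegree_of_ne_zero h
  have h2 := Finset.le_sup (f := fun n => n + 2 * (H.coeff n).natDegree) hn
  have h3 : n + 2 * (H.coeff n).natDegree ≤ _ := h2
  omega

/-- The index set of the reflected polynomial. -/
def idx (N : ℕ) : Finset (ℕ × ℕ) :=
  (Finset.range (N + 1) ×ˢ Finset.range (N + 1)).filter fun p => p.1 + 2 * p.2 ≤ N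

lemma mem_idx {N : ℕ} {p : ℕ × ℕ} : p ∈ idx N ↔ p.1 + 2 * p.2 ≤ N := by
  simp only [idx, Finset.mem_filter, Finset.mem_product, Finset.mem_range]
  omega

lemma coeff_mono (m k m' k' : ℕ) (a : C) :
    ((monomial m (monomial k a) : C[X][X]).coeff m').coeff k' =
      if m = m' ∧ k = k' then a else 0 := by
  rw [coeff_monomial]
  by_cases h : m = m'
  · rw [if_pos h, coeff_monomial]
    simp [h]
  · simp [h]

lemma eq_sum {H : C[X][X]} {N : ℕ} (hN : ∀ n k, (H.coeff n).coeff k ≠ 0 → n + 2 * k ≤ N) :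
    H = ∑ p ∈ idx N, monomial p.1 (monomial p.2 ((H.coeff p.1).coeff p.2)) := by
  ext n k
  simp only [finsetSum_coeff, coeff_mono]
  rw [Finset.sum_eq_single (n, k)]
  · simp
  · rintro ⟨a, b⟩ _ h
    rw [if_neg]
    rintro ⟨rfl, rfl⟩
    exact h rfl
  · intro h
    rw [mem_idx] at h
    by_contra h0
    simp only [and_self, ↓reduceIte] at h0
    exact h (hN n k h0)

/-- The reflected polynomial. -/
noncomputable def refl (H : C[X][X]) (N : ℕ) : C[X][X] :=
  ∑ p ∈ idx N, monomial (N - p.1 - 2 * p.2) (monomial p.2 ((-1) ^ p.2 * (H.coeff p.1).coeff p.2))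

lemma refl_coeff (H : C[X][X]) {N n k m : ℕ} (h : n + 2 * k + m = N) :
    ((refl H N).coeff m).coeff k = (-1) ^ k * (H.coeff n).coeff k := by
  simp only [refl, finsetSum_coeff, coeff_mono]
  rw [Finset.sum_eq_single (n, k)]
  · rw [if_pos ⟨by simp only; omega, rfl⟩]
  · rintro ⟨a, b⟩ hp hne
    rw [mem_idx] at hp
    rw [if_neg]
    rintro ⟨h1, h2⟩
    simp only at hp h1 h2
    exact hne (Prod.ext (by simp only; omega) h2)
  · intro h0
    rw [mem_idx] at h0
    exact absurd (by simp only; omega) h0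

lemma refl_bound (H : C[X][X]) {N k m : ℕ} (h : ((refl H N).coeff m).coeff k ≠ 0) :
    m + 2 * k ≤ N := by
  by_contra h0
  apply h
  simp only [refl, finsetSum_coeff, coeff_mono]
  refine Finset.sum_eq_zero fun p hp => ?_
  rw [mem_idx] at hp
  rw [if_neg]
  rintro ⟨h1, h2⟩
  omega

lemma aevalAeval_mono {Ω : Type} [Field Ω] [Algebra C Ω] (c z : Ω) (n k : ℕ) (a : C) :
    aevalAeval c z (monomial n (monomial k a) : C[X][X]) = algebraMap C Ω a * c ^ k * z ^ n := by
  rw [← C_mul_X_pow_eq_monomial, map_mul, map_pow, aevalAeval_C, aevalAeval_Y, aeval_monomial]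

lemma refl_eval {Ω : Type} [Field Ω] [Algebra C Ω] {H : C[X][X]} {N : ℕ}
    (hN : ∀ n k, (H.coeff n).coeff k ≠ 0 → n + 2 * k ≤ N) (x y v u : Ω) (h : v * u = 1) :
    aevalAeval (x - v ^ 2 * y) v H = v ^ N * aevalAeval (y - u ^ 2 * x) u (refl H N) := by
  conv_lhs => rw [eq_sum hN]
  rw [refl, map_sum, map_sum, Finset.mul_sum]
  refine Finset.sum_congr rfl fun p hp => ?_
  rw [mem_idx] at hp
  obtain ⟨m, hm⟩ := Nat.exists_eq_add_of_le hp
  have e : N - p.1 - 2 * p.2 = m := by omega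
  rw [aevalAeval_mono, aevalAeval_mono, e, hm, map_mul, map_pow, map_neg, map_one]
  have e1 : x - v ^ 2 * y = -1 * v ^ 2 * (y - u ^ 2 * x) := by
    linear_combination (-(x * (v * u + 1))) * h
  have e2 : v ^ m * u ^ m = 1 := by rw [← mul_pow, h, one_pow]
  rw [e1, mul_pow, mul_pow, ← pow_mul, pow_add, pow_add]
  linear_combination (-(algebraMap C Ω ((H.coeff p.1).coeff p.2) * (-1) ^ p.2 * v ^ (2 * p.2) *
    (y - u ^ 2 * x) ^ p.2 * v ^ p.1)) * e2

lemma split {R : Type} [CommRing R] {H : R[X]} (h : H ≠ 0) :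
    ∃ (n : ℕ) (H' : R[X]), H = X ^ n * H' ∧ H'.coeff 0 ≠ 0 := by
  obtain ⟨q, hq, hd⟩ := exists_eq_pow_rootMultiplicity_mul_and_not_dvd H h 0
  rw [map_zero, sub_zero] at hq hd
  exact ⟨_, q, hq, fun h0 => hd (X_dvd_iff.2 h0)⟩

lemma X_pow_cancel {a b : ℕ} {P Q : K[X]} (hP : P.coeff 0 ≠ 0) (hQ : Q.coeff 0 ≠ 0)
    (h : X ^ a * P = X ^ b * Q) : a = b ∧ P = Q := by
  have key : ∀ {a b : ℕ} {P Q : K[X]}, P.coeff 0 ≠ 0 → X ^ a * P = X ^ b * Q → b ≤ a := by
    intro a b P Q hP h
    by_contra hlt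
    have e := congrArg (fun r : K[X] => r.coeff a) h
    simp only [coeff_X_pow_mul'] at e
    rw [if_pos le_rfl, if_neg hlt, Nat.sub_self] at e
    exact hP e
  have hab : a = b := le_antisymm (key hQ h.symm) (key hP h)
  subst hab
  exact ⟨rfl, mul_left_cancel₀ (pow_ne_zero _ X_ne_zero) h⟩

lemma le_of_coeff {R : Type} [CommRing R] {H : R[X]} {n m : ℕ} (h : (X ^ n * H).coeff m ≠ 0) :
    n ≤ m := by
  by_contra h0
  rw [coeff_X_pow_mul', if_neg h0] at h
  exact h rfl

end Wrap

open Wrap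

theorem wrap : StmtWRAP := by
  intro C K Ω _ _ _ _ _ _ _ _ _ d x y z z' H M hy hx tx ty tz hz hH hE
  have H0 : H ≠ 0 := fun h => hH 0 (by simp [h])
  obtain ⟨N, hN⟩ := exists_bound H
  obtain ⟨n0, H', eH, h0⟩ := split H0
  obtain ⟨k0, hk0⟩ : ∃ k, (H'.coeff 0).coeff k ≠ 0 := by
    by_contra h
    push Not at h
    exact h0 (Polynomial.ext fun k => by rw [h k, coeff_zero])
  have cH : ∀ j, H.coeff (n0 + j) = H'.coeff j := fun j => by
    rw [eH, add_comm, coeff_X_pow_mul]
  have lowH : ∀ n k, (H.coeff n).coeff k ≠ 0 → n0 ≤ n := fun n k h => by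
    refine le_of_coeff (H := H') fun h1 => h ?_
    rw [eH, h1, coeff_zero]
  have sg : ∀ k : ℕ, ((-1 : C)) ^ k ≠ 0 := fun k => pow_ne_zero _ (by simp)
  have tr : ∀ n k, (H.coeff n).coeff k ≠ 0 →
      ((refl H N).coeff (N - n - 2 * k)).coeff k ≠ 0 := fun n k h => by
    have := hN n k h
    rw [refl_coeff H (n := n) (by omega)]
    exact mul_ne_zero (sg k) h
  have hk0' : (H.coeff n0).coeff k0 ≠ 0 := by
    have := cH 0
    rw [add_zero] at this
    rwa [this]
  have G0 : refl H N ≠ 0 := fun h => tr _ _ hk0' (by rw [h, coeff_zero, coeff_zero])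
  obtain ⟨m0, G', eG, g0⟩ := split G0
  have cG : ∀ j, (refl H N).coeff (m0 + j) = G'.coeff j := fun j => by
    rw [eG, add_comm, coeff_X_pow_mul]
  have lowG : ∀ n k, ((refl H N).coeff n).coeff k ≠ 0 → m0 ≤ n := fun n k h => by
    refine le_of_coeff (H := G') fun h1 => h ?_
    rw [eG, h1, coeff_zero]
  set w : K := d x with hw
  have w0 : algebraMap K Ω w ≠ 0 := by simpa using hx
  have z0 : z ≠ 0 := fun h => w0 (by rw [← hz, h, zero_mul])
  have z0' : z' ≠ 0 := fun h => w0 (by rw [← hz, h, mul_zero])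
  have hu : z' * (algebraMap K Ω w⁻¹ * z) = 1 := by
    rw [map_inv₀, ← hz]
    field_simp
  have B0 : aeval x (H'.coeff 0) ≠ 0 := fun h => h0 ((transcendental_iff.1 tx) _ h)
  have A0 : aeval y (G'.coeff 0) ≠ 0 := fun h => g0 ((transcendental_iff.1 ty) _ h)
  have key : X ^ (n0 + N) * (Polynomial.C (w ^ (M + m0)) * Phi x y H') =
      X ^ (2 * M + m0) * (Polynomial.C (w ^ N) * (Phi y x G').comp (Polynomial.C w⁻¹ * X)) := by
    apply transcendental_iff_injective.1 tz
    rw [refl_eval hN _ _ _ _ hu, ← aeval_Phi, ← aeval_Phi, eG, Phi_X_pow] at hE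
    conv_lhs at hE => rw [eH, Phi_X_pow]
    simp only [map_mul, map_pow, aeval_X, aeval_C, aeval_comp] at hE ⊢
    set P := aeval z (Phi x y H')
    set Q := aeval (algebraMap K Ω w⁻¹ * z) (Phi y x G')
    rw [map_inv₀, ← hz] at hE
    rw [← hz]
    field_simp at hE
    have e3 : z' ^ m0 * (1 / z') ^ m0 = 1 := by rw [← mul_pow, mul_one_div_cancel z0', one_pow]
    simp only [pow_add, mul_pow, two_mul]
    linear_combination (z ^ N * z ^ M * z ^ m0 * z' ^ m0) * hE +
      (z ^ N * z ^ M * z ^ m0 * z ^ M * z' ^ N * Q) * e3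
  obtain ⟨eN, eP⟩ := X_pow_cancel (by
      rw [coeff_C_mul, Phi0]
      exact mul_ne_zero (pow_ne_zero _ hx) B0) (by
      rw [coeff_C_mul, comp_C_mul_X_coeff, Phi0]
      exact mul_ne_zero (pow_ne_zero _ hx) (mul_ne_zero A0 (pow_ne_zero _ (inv_ne_zero hx)))) key
  have bd : ∀ n k, (H.coeff n).coeff k ≠ 0 → n0 ≤ n ∧ n + 2 * k + m0 ≤ N := fun n k h => by
    have h1 := lowH n k h
    have h2 := lowG _ _ (tr n k h)
    have h3 := hN n k h
    omega
  have hM := bd _ _ hk0'
  obtain ⟨J, hJ⟩ : ∃ J, M = n0 + J := Nat.exists_eq_add_of_le (by omega)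
  have eN' : N = M + m0 + J := by omega
  have cj : ∀ j, (Phi x y H').coeff j * w ^ j = w ^ J * (Phi y x G').coeff j := fun j => by
    have e := congrArg (fun r : K[X] => r.coeff j) eP
    simp only [coeff_C_mul, comp_C_mul_X_coeff] at e
    rw [eN', pow_add w (M + m0) J, mul_assoc] at e
    have e' := mul_left_cancel₀ (pow_ne_zero _ hx) e
    have e4 : w⁻¹ ^ j * w ^ j = 1 := by rw [← mul_pow, inv_mul_cancel₀ hx, one_pow]
    rw [e']
    linear_combination (w ^ J * (Phi y x G').coeff j) * e4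
  have c0 := cj 0
  have c2 := cj 2
  have c4 := congrArg (fun t => 2 * t) (cj 4)
  simp only [← mul_assoc] at c4
  rw [mul_comm 2 (w ^ J), mul_assoc (w ^ J), Phi4, Phi4] at c4
  rw [Phi0, Phi0] at c0
  rw [Phi2, Phi2] at c2
  have bH : H'.coeff 0 = H.coeff n0 := by rw [← cH 0, add_zero]
  have bG : G'.coeff 0 = (refl H N).coeff m0 := by rw [← cG 0, add_zero]
  refine ⟨J, G'.coeff 0, G'.coeff 2, G'.coeff 4, H'.coeff 0, H'.coeff 2, H'.coeff 4,
    ⟨?_, hx, by rw [hy]; exact one_ne_zero, g0, h0, ?_, ?_, ?_, ?_⟩, ?_, ?_⟩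
  · refine Nat.pos_of_ne_zero fun J0 => hH ((H.coeff M).coeff 0) ?_
    ext n k
    rw [C_mul_X_pow_eq_monomial, ← monomial_zero_left, coeff_mono]
    split_ifs with h
    · rw [← h.1, ← h.2]
    · by_contra h1
      have := bd n k h1
      omega
  · rw [natDegree_le_iff_coeff_eq_zero]
    intro k hk
    by_contra h1
    rw [bG] at h1
    have h2 := refl_bound H h1
    rw [refl_coeff H (n := N - 2 * k - m0) (by omega)] at h1
    have := bd _ _ (right_ne_zero_of_mul h1)
    omega
  · rw [natDegree_le_iff_coeff_eq_zero]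
    intro k hk
    by_contra h1
    rw [bH] at h1
    have := bd _ _ h1
    omega
  · rw [bH, bG, refl_coeff H (n := n0) (by omega), ← mul_assoc, ← mul_pow]
    simp
  · rw [hy, ← hw]
    linear_combination c0
  · rw [hy, ← hw]
    linear_combination (aeval y (G'.coeff 0)) * c2 -
      (aeval y (G'.coeff 2) - x * aeval y (derivative (G'.coeff 0))) * c0
  · rw [hy, ← hw]
    linear_combination (aeval y (G'.coeff 0)) * c4 -
      (2 * aeval y (G'.coeff 4) - 2 * x * aeval y (derivative (G'.coeff 2)) +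
        x ^ 2 * aeval y (derivative (derivative (G'.coeff 0)))) * c0

end Pool.Agent.MP_249f74_an.H53
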