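import Pool.Agent.MP_249f74_an.H53.Odd
import Pool.Agent.MP_249f74_an.H53.Ex
import Pool.Agent.MP_249f74_an.H53.Nc
import Pool.Agent.MP_249f74_an.H53.Conic
import Pool.Agent.MP_249f74_an.H53.Loc
import Pool.Agent.MP_249f74_an.H53.Unq
import Pool.Agent.MP_249f74_an.H53.Aff
import Pool.Agent.MP_249f74_an.H53.Par
import Pool.Agent.MP_249f74_an.H53.Pow
import Pool.Agent.MP_249f74_an.H53.Pi
import Pool.Agent.MP_249f74_an.H53.Wrap

/-!
A curve whose billiard has a polynomial integral is a conic.
-/

namespace Pool.Agent.MP_249f74_an.H53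

theorem core' : StmtCORE := core nc circ pos tt loc unq den par aff pow pi

theorem cc : StmtCC := cc_of ex wrap core'

theorem ccInv : StmtINV := inv cc

theorem ccOdd : StmtODD := odd cc

end Pool.Agent.MP_249f74_an.H53
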