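import Pool.Agent.MP_249f74_an.H53.Spec
import Pool.Agent.MP_249f74_an.H96.Norm

/-!
Assembly of the modules.
-/

open Polynomial IntermediateField

namespace Pool.Agent.MP_249f74_an.H53

open H17 (Der)
open H88 (cl subset_cl)
open H96 (NC1)

namespace Asm

variable {C K : Type} [Field C] [CharZero C] [IsAlgClosed C] [Field K] [CharZero K] [Algebra C K]
  {d : Der C K} {x y : K} {J : ℕ} {A A1 A2 B B1 B2 : C[X]}

omit [CharZero C] [IsAlgClosed C] in
lemma pole_fin (hB : B ≠ 0) : {a | Pole B B1 a}.Finite :=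
  (finite_setOfPred_isRoot hB).subset fun a ha => by
    by_contra h
    exact ha (by simp [rootMultiplicity_eq_zero h])

omit [CharZero C] [IsAlgClosed C] in
lemma two_top (hB : B ≠ 0) (h : B.natDegree ≤ J) (h2 : Two J B) : B.coeff J ≠ 0 := by
  obtain ⟨a, b, hab, ha, hb⟩ := h2
  have h3 := natDegree_le_of_dvd (((pairwise_coprime_X_sub_C Function.injective_id hab).pow).mul_dvd
    (pow_rootMultiplicity_dvd B a) (pow_rootMultiplicity_dvd B b)) hB
  rw [natDegree_mul (pow_ne_zero _ (X_sub_C_ne_zero _)) (pow_ne_zero _ (X_sub_C_ne_zero _)),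
    natDegree_pow, natDegree_pow, natDegree_X_sub_C, natDegree_X_sub_C] at h3
  rw [show J = B.natDegree by omega]
  exact leadingCoeff_ne_zero.2 hB

omit [CharZero C] [IsAlgClosed C] in
lemma not_two (h : ¬ Two J B) : ∃ a, ∀ c ≠ a, 2 * rootMultiplicity c B < J := by
  by_cases h1 : ∃ a, J ≤ 2 * rootMultiplicity a B
  · obtain ⟨a, ha⟩ := h1
    exact ⟨a, fun c hc => not_le.1 fun h2 => h ⟨c, a, hc, h2, ha⟩⟩
  · exact ⟨0, fun c _ => not_le.1 fun h2 => h1 ⟨c, h2⟩⟩

omit [CharZero C] [IsAlgClosed C] [CharZero K] in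
lemma split (hB : B ≠ 0) (h : B.natDegree ≤ J) (x : K) (a : C) : ∃ (m : ℕ) (q : C[X]),
    q.eval 0 ≠ 0 ∧ aeval x B * (x - algebraMap C K a) ^ m =
      (x - algebraMap C K a) ^ J * aeval (x - algebraMap C K a) q := by
  obtain ⟨q, h1, h2⟩ := exists_eq_pow_rootMultiplicity_mul_and_not_dvd B hB a
  have h3 : rootMultiplicity a B ≤ J := by
    have := natDegree_le_of_dvd (pow_rootMultiplicity_dvd B a) hB
    rw [natDegree_pow, natDegree_X_sub_C] at this
    omega
  obtain ⟨m, hm⟩ := Nat.exists_eq_add_of_le h3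
  refine ⟨m, q.comp (X + Polynomial.C a), by simpa [dvd_iff_isRoot] using h2, ?_⟩
  conv_lhs => rw [h1]
  simp only [hm, aeval_comp, map_mul, map_pow, map_sub, map_add, aeval_X, aeval_C, sub_add_cancel]
  ring

lemma unr_fin (hL : StmtLOC) (hU : StmtUNQ) (h : Eqs d x y J A A1 A2 B B1 B2) (hn : NCP d x y)
    (hp : ∀ a, ¬ Pole B B1 a) (P : Pl d) {a : C} (ha : 2 * rootMultiplicity a B < J)
    (hu : 0 < P.o (x - algebraMap C K a)) :
    ∀ g ∈ C⟮x, y⟯, ∃ j : ℤ, P.o g = j * P.o (x - algebraMap C K a) := by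
  obtain ⟨b, hv⟩ := hn.ex_pt h.dy hu
  obtain ⟨k, hk⟩ : ∃ k : ℕ, P.o (y - algebraMap C K b) = k * P.o (x - algebraMap C K a) := by
    obtain ⟨k, hk | hk⟩ := (hL C K d x y J A A1 A2 B B1 B2 P a b h hu hv).2 (hp a)
    · exact ⟨k, hk⟩
    rcases k with _ | _ | k
    · simp [hk] at hu
    · exact ⟨1, by simpa using hk.symm⟩
    have h1 := h.nu P hu hv
    rw [hk, ← mul_assoc] at h1
    have h2 := mul_right_cancel₀ hv.ne' h1
    have h3 : (2 * rootMultiplicity a B : ℚ) < J := by exact_mod_cast ha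
    have h4 : (0 : ℚ) ≤ rootMultiplicity b A := by positivity
    have h5 : (0 : ℚ) ≤ rootMultiplicity a B := by positivity
    have h6 : (0 : ℚ) ≤ k := by positivity
    push_cast at h2
    nlinarith
  obtain ⟨m, q, q0, hq⟩ := split h.B0 h.dB x a
  obtain ⟨n, r, r0, hr⟩ := split h.A0 h.dA y b
  have u0 := Pl.ne_zero hu.ne'
  have v0 := Pl.ne_zero hv.ne'
  have h1 := h.lam (u := x - algebraMap C K a) (v := y - algebraMap C K b) (by simp) (by simp) v0
  intro g hg
  refine hU C K d P _ _ J m n k r q (by simpa using h.dx) h.J0 hu hv hk r0 q0 ?_ g ?_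
  · refine mul_left_cancel₀ (mul_ne_zero (pow_ne_zero J u0) (pow_ne_zero J v0)) ?_
    generalize x - algebraMap C K a = u at *
    generalize y - algebraMap C K b = v at *
    linear_combination u ^ m * v ^ n * h1 - (u * d v / (v * d u)) ^ J * v ^ n * v ^ J * hq +
      u ^ m * u ^ J * hr
  · refine (adjoin_le_iff.2 ?_ : C⟮x, y⟯ ≤ _) hg
    exact Set.pair_subset
      (by simpa using (add_mem (subset_adjoin C {x - algebraMap C K a, y - algebraMap C K b}
        (Or.inl rfl)) (IntermediateField.algebraMap_mem _ a)))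
      (by simpa using (add_mem (subset_adjoin C {x - algebraMap C K a, y - algebraMap C K b}
        (Or.inr rfl)) (IntermediateField.algebraMap_mem _ b)))

omit [CharZero C] [IsAlgClosed C] [CharZero K] in
lemma refl (h : B.natDegree ≤ J) (x0 : x ≠ 0) : aeval x⁻¹ (reflect J B) = aeval x B / x ^ J := by
  have := invertibleOfNonzero x0
  rw [eq_div_iff (pow_ne_zero _ x0), ← invOf_eq_inv]
  exact eval₂_reflect_mul_pow _ _ _ _ h

lemma unr_inf (hU : StmtUNQ) (h : Eq0 d x y J A B) (hn : NCP d x y) (hB : B.coeff J ≠ 0)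
    (P : Pl d) (hx : P.o x < 0) : ∀ g ∈ C⟮x, y⟯, ∃ j : ℤ, (1 : ℕ) * P.o g = j * P.o x := by
  have h1 := hn P (Or.inl hx)
  have x0 := Pl.ne_zero hx.ne
  have y0 := Pl.ne_zero (h1 ▸ hx).ne
  have h2 := h.lam rfl rfl y0
  have := h.dx
  intro g hg
  obtain ⟨j, hj⟩ := hU C K d P x⁻¹ y⁻¹ J 0 0 1 (reflect J A) (reflect J B)
    (by simp [d.leibniz_inv, x0, this]) h.J0 (by simpa using hx) (by simpa [← h1] using hx)
    (by simp [h1]) (by rw [← coeff_zero_eq_eval_zero]; simpa [h.top] using hB)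
    (by rw [← coeff_zero_eq_eval_zero]; simpa using hB) (by
      rw [refl h.dA y0, refl h.dB x0, show x⁻¹ * d y⁻¹ / (y⁻¹ * d x⁻¹) = x * d y / (y * d x) by
        simp only [d.leibniz_inv, smul_eq_mul]; field_simp]
      generalize x * d y / (y * d x) = l at h2
      field_simp
      linear_combination h2) g ((adjoin_le_iff.2 (Set.pair_subset
        (by simpa using inv_mem (subset_adjoin C {x⁻¹, y⁻¹} (Or.inl rfl)))
        (by simpa using inv_mem (subset_adjoin C {x⁻¹, y⁻¹} (Or.inr rfl)))) : C⟮x, y⟯ ≤ _) hg)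
  exact ⟨-j, by simpa using hj⟩

lemma one_two [IsAlgClosed K] (hL : StmtLOC) (hU : StmtUNQ) (hP : StmtPAR) (hF : Fld d)
    (h : Eqs d x y J A A1 A2 B B1 B2) (hn : NCP d x y) (hp : ∀ a, ¬ Pole B B1 a)
    (hA : Two J A) (hB : ¬ Two J B) : Con C x y := by
  obtain ⟨a, ha⟩ := not_two hB
  obtain ⟨t, -, n, p, h1, h2, h3, h4⟩ := hP C K d x y a 1 hF h.dx h.dy hn one_pos
    (unr_inf hU h.toEq0 hn (by simpa [h.top] using two_top h.A0 h.dA hA))
    fun P c hc => unr_fin hL hU h hn hp P (ha c hc)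
  rcases n with _ | _ | n
  · exact absurd (by simpa using congrArg d h3) h.dx
  · refine Con.line (a := p.coeff 1) (b := p.coeff 0 - p.coeff 1 * a) ?_
    rw [h4, eq_X_add_C_of_natDegree_le_one h2.le, ← pow_one t, ← h3]
    simp
    ring
  · omega

end Asm

open Asm in
theorem core (hN : StmtNC) (hC : StmtCIRC) (hO : StmtPOS) (hT : StmtTT) (hL : StmtLOC)
    (hU : StmtUNQ) (hD : StmtDEN) (hP : StmtPAR) (hA : StmtAFF) (hW : StmtPOW) (hI : StmtPI) :
    StmtCORE := by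
  intro C K _ _ _ _ _ _ _ d x y J A A1 A2 B B1 B2 hF h hs
  have n1 := hN C K d x y hF h.dx h.dy
  have n2 := hN C K d y x hF h.dy h.dx
  by_cases h1 : NC1 C x y
  swap
  · have h2 := mt hs.2 h1
    rw [n1] at h1
    rw [n2] at h2
    push Not at h1 h2
    exact hC C K d x y J A B hF h.toEq0 h1 h2
  have hn : NCP d x y := fun P hP => by
    have e1 := n1.1 h1 P
    have e2 := n2.1 (hs.1 h1) P
    rcases hP with hP | hP
    · exact le_antisymm (e1 ((e2 hP).trans_lt hP)) (e2 hP)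
    · exact le_antisymm (e1 hP) (e2 ((e1 hP).trans_lt hP))
  by_contra hc
  have t2 : ¬ (Two J A ∧ Two J B) := fun t => hc (hT C K d x y J A B hF h.toEq0 hn t.1 t.2)
  by_cases hp : ∃ a, Pole B B1 a
  · exact (hI C K d x y J A B _ _ hF h.toEq0 hn
      (fun a => not_le.1 fun e => hc (hO C K d x y J A B a hF h.toEq0 hn e))
      (fun a => not_le.1 fun e => hc (hO C K d y x J B A a hF h.toEq0.symm hn.symm e).symm)
      (pole_fin h.B0) (pole_fin h.A0) hp
      fun P a b hu hv => (hL C K d x y J A A1 A2 B B1 B2 P a b h hu hv).1).elim hc t2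
  push Not at hp
  have hq : ∀ b, ¬ Pole A A1 b := fun b hb => by
    obtain ⟨P, hv⟩ := hF.ex_fin h.dy b
    obtain ⟨a, hu⟩ := hn.symm.ex_pt h.dx hv
    exact hp a ((hL C K d x y J A A1 A2 B B1 B2 P a b h hu hv).1.2 hb)
  by_cases tA : Two J A
  · exact hc (one_two hL hU hP hF h hn hp tA fun t => t2 ⟨tA, t⟩)
  by_cases tB : Two J B
  · exact hc (one_two hL hU hP hF h.symm hn.symm hq tB tA).symm
  obtain ⟨a, ha⟩ := not_two tB
  obtain ⟨b, hb⟩ := not_two tA
  obtain ⟨N, N0, hN⟩ := hD C K d x y hF h.dx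
  obtain ⟨M, M0, hM⟩ := hD C K d y x hF h.dy
  obtain ⟨t, ht, n, p, -, p1, p2, p3⟩ := hP C K d x y a N hF h.dx h.dy hn N0 hN
    fun P c hc => unr_fin hL hU h hn hp P (ha c hc)
  obtain ⟨s, hs, m, q, -, -, q2, q3⟩ := hP C K d y x b M hF h.dy h.dx hn.symm M0 hM
    fun P c hc => unr_fin hL hU h.symm hn.symm hq P (hb c hc)
  rw [Set.pair_comm] at hs
  rcases hA C K d x y t s a b n m p q hF h.dx ht hs p2 p3 p1 q2 q3 with e | ⟨T, c, e, c0, e0, e1, e2⟩
  · exact hc e
  · exact hc (hW C K d x y T J n A A1 A2 B B1 B2 a b c e h c0 e0 e1 e2)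

lemma nc1_map {C K Ω : Type} [Field C] [Field K] [Field Ω] [Algebra C K] [Algebra C Ω]
    (f : K →ₐ[C] Ω) (x y : K) : NC1 C (f x) (f y) ↔ NC1 C x y := by
  refine exists_congr fun N => ?_
  have e : {g : Ω | ∃ i j : ℕ, i + j ≤ N ∧ j < N ∧ g = f x ^ i * f y ^ j} =
      f.toLinearMap '' {g : K | ∃ i j : ℕ, i + j ≤ N ∧ j < N ∧ g = x ^ i * y ^ j} := by
    ext g
    constructor
    · rintro ⟨i, j, h1, h2, rfl⟩
      exact ⟨_, ⟨i, j, h1, h2, rfl⟩, by simp⟩
    · rintro ⟨_, ⟨i, j, h1, h2, rfl⟩, rfl⟩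
      exact ⟨i, j, h1, h2, by simp⟩
  rw [e, ← map_pow]
  exact Submodule.apply_mem_span_image_iff_mem_span (f := f.toLinearMap) f.toRingHom.injective

theorem cc_of (hE : StmtEX) (hW : StmtWRAP) (hC : StmtCORE) : StmtCC := by
  intro C Ω _ _ _ _ _ _ _ Z x y w z z' H M hy hx hxy w0 hz hzz hs hH hI
  have yK : y ∈ cl C {y} := subset_cl _ rfl
  have hp : H96.Pres (cl C {y}) Z := fun f hf =>
    H17.stab_cl (fun s hs => by rw [hs, hy]; exact one_mem _) hf
  have := H96.Norm.isAlgClosed_cl (C := C) ({y} : Set Ω)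
  have : CharZero (cl C ({y} : Set Ω)) := algebraRat.charZero _
  let d := H96.Norm.res Z hp
  let x' : cl C ({y} : Set Ω) := ⟨x, hxy⟩
  let y' : cl C ({y} : Set Ω) := ⟨y, yK⟩
  have dy : d y' = 1 := Subtype.ext hy
  have dx : d x' ≠ 0 := fun e => w0 (hx ▸ congrArg Subtype.val e)
  have dy0 : d y' ≠ 0 := by rw [dy]; exact one_ne_zero
  have hF : Fld d := hE C _ d y' dy0 fun g => by
    rw [← H17.mem_cl_iff, H17.cl_adjoin]
    by_contra hn
    have h1 := H88.rk_insert hn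
    rw [← H17.rk_map (cl C {y}).val, ← H17.rk_map (cl C {y}).val {y'}, Set.image_insert_eq,
      Set.image_singleton] at h1
    have h2 := H88.rk_le (k := C) (S := {y}) (T := {(g : Ω), y}) (Set.pair_subset g.2 yK)
    exact absurd (h1.symm.le.trans h2)
      (not_le.2 ((ENat.lt_add_one_iff (H17.rk_finite (Set.finite_singleton _))).2 le_rfl))
  obtain ⟨J, A, A1, A2, B, B1, B2, h⟩ := hW C _ Ω d x' y' z z' H M dy dx (transc dx) (transc dy0)
    (fun ha => hz (H96.cl_cl (C := C) {y} ▸ H17.mem_cl_iff.2 ha)) (hzz.trans hx.symm) hH hI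
  obtain ⟨a, b, c, e, f, g, h0, h1⟩ := hC C _ d x' y' J A A1 A2 B B1 B2 hF h
    (((nc1_map (cl C {y}).val x' y').symm.trans hs).trans (nc1_map (cl C {y}).val y' x'))
  exact ⟨a, b, c, e, f, g, h0, by simpa using congrArg Subtype.val h1⟩

end Pool.Agent.MP_249f74_an.H53
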