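import Pool.Agent.MP_249f74_an.H96.Spec

/-!
Places of a one-dimensional differential field, and the three top equations of a polynomial
integral.
-/

open Polynomial IntermediateField

namespace Pool.Agent.MP_249f74_an.H53

open H17 (Der)

variable {C K : Type} [Field C] [Field K] [Algebra C K]

/-- A place: a rational order function with residue field `C`, compatible with `d`. -/
structure Pl [CharZero C] (d : Der C K) where
  o : K → ℚ
  mul : ∀ {a b : K}, a ≠ 0 → b ≠ 0 → o (a * b) = o a + o b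
  add : ∀ {a b : K}, a ≠ 0 → b ≠ 0 → a + b ≠ 0 → min (o a) (o b) ≤ o (a + b)
  cst : ∀ c : C, o (algebraMap C K c) = 0
  res : ∀ {g : K}, o g = 0 → ∃ c : C, g - algebraMap C K c = 0 ∨ 0 < o (g - algebraMap C K c)
  log : ∀ {u g : K}, o u ≠ 0 → g ≠ 0 →
    u * d g / (g * d u) - algebraMap C K ((o g / o u : ℚ) : C) = 0 ∨
      0 < o (u * d g / (g * d u) - algebraMap C K ((o g / o u : ℚ) : C))

/-- A nonzero polynomial of degree at most two vanishes at the point. -/
def Con (C : Type) {K : Type} [Field C] [Field K] [Algebra C K] (x y : K) : Prop :=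
  ∃ a b c e f g : C, ¬ (a = 0 ∧ b = 0 ∧ c = 0 ∧ e = 0 ∧ f = 0 ∧ g = 0) ∧
    algebraMap C K a * x ^ 2 + algebraMap C K b * (x * y) + algebraMap C K c * y ^ 2 +
      algebraMap C K e * x + algebraMap C K f * y + algebraMap C K g = 0

lemma Con.symm {x y : K} (h : Con C x y) : Con C y x := by
  obtain ⟨a, b, c, e, f, g, h0, h⟩ := h
  exact ⟨c, b, a, f, e, g, by tauto, by linear_combination h⟩

lemma Con.line {x y : K} {a b : C} (h : y = algebraMap C K a * x + algebraMap C K b) :
    Con C x y :=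
  ⟨0, 0, 0, a, -1, b, by simp, by simp [h]⟩

namespace Pl

variable [CharZero C] {d : Der C K} (P : Pl d)

/-- Order at least `s`. -/
def G (s : ℚ) (g : K) : Prop := g = 0 ∨ s ≤ P.o g

/-- Order greater than `s`. -/
def L (s : ℚ) (g : K) : Prop := g = 0 ∨ s < P.o g

/-- The residue of `g` is `c`. -/
def R (g : K) (c : C) : Prop := P.L 0 (g - algebraMap C K c)

@[simp] lemma o_zero : P.o 0 = 0 := by simpa using P.cst 0

@[simp] lemma o_one : P.o 1 = 0 := by simpa using P.cst 1

variable {P} {a b g u x y : K} {s t : ℚ} {c e : C}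

lemma ne_zero (h : P.o a ≠ 0) : a ≠ 0 := fun e => h (by simp [e])

@[simp] lemma o_neg (a : K) : P.o (-a) = P.o a := by
  by_cases h : a = 0
  · simp [h]
  · have := P.mul (a := algebraMap C K (-1)) (by simp) h
    rw [P.cst] at this
    simpa using this

@[simp] lemma o_inv (a : K) : P.o a⁻¹ = -P.o a := by
  by_cases h : a = 0
  · simp [h]
  · have := P.mul h (inv_ne_zero h)
    rw [mul_inv_cancel₀ h, o_one] at this
    linarith

lemma o_div (ha : a ≠ 0) (hb : b ≠ 0) : P.o (a / b) = P.o a - P.o b := by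
  rw [div_eq_mul_inv, P.mul ha (inv_ne_zero hb), o_inv, sub_eq_add_neg]

@[simp] lemma o_pow (a : K) (n : ℕ) : P.o (a ^ n) = n * P.o a := by
  by_cases h : a = 0
  · rcases n with _ | n <;> simp [h]
  induction n with
  | zero => simp
  | succ n ih => rw [pow_succ, P.mul (pow_ne_zero _ h) h, ih]; push_cast; ring

lemma o_cmul (hc : c ≠ 0) (a : K) : P.o (algebraMap C K c * a) = P.o a := by
  by_cases h : a = 0
  · simp [h]
  · rw [P.mul (by simpa using hc) h, P.cst, zero_add]

lemma G.zero : P.G s 0 := Or.inl rfl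

lemma L.zero : P.L s 0 := Or.inl rfl

lemma G.of_le (h : s ≤ P.o a) : P.G s a := Or.inr h

lemma L.of_lt (h : s < P.o a) : P.L s a := Or.inr h

lemma G.self (a : K) : P.G (P.o a) a := Or.inr le_rfl

lemma G.le (h : P.G s a) (ha : a ≠ 0) : s ≤ P.o a := h.resolve_left ha

lemma L.lt (h : P.L s a) (ha : a ≠ 0) : s < P.o a := h.resolve_left ha

lemma G_zero_iff : P.G 0 a ↔ 0 ≤ P.o a :=
  ⟨fun h => h.elim (fun e => by simp [e]) id, Or.inr⟩

lemma L.G (h : P.L s a) : P.G s a := h.imp id le_of_lt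

lemma G.mono (h : P.G s a) (ht : t ≤ s) : P.G t a := h.imp id ht.trans

lemma G.L (h : P.G s a) (ht : t < s) : P.L t a := h.imp id ht.trans_le

lemma L.mono (h : P.L s a) (ht : t ≤ s) : P.L t a := h.imp id ht.trans_lt

lemma G.add (ha : P.G s a) (hb : P.G s b) : P.G s (a + b) := by
  by_cases h1 : a = 0
  · simpa [h1] using hb
  by_cases h2 : b = 0
  · simpa [h2] using ha
  by_cases h3 : a + b = 0
  · exact Or.inl h3
  exact Or.inr ((le_min (ha.le h1) (hb.le h2)).trans (P.add h1 h2 h3))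

lemma L.add (ha : P.L s a) (hb : P.L s b) : P.L s (a + b) := by
  by_cases h1 : a = 0
  · simpa [h1] using hb
  by_cases h2 : b = 0
  · simpa [h2] using ha
  by_cases h3 : a + b = 0
  · exact Or.inl h3
  exact Or.inr ((lt_min (ha.lt h1) (hb.lt h2)).trans_le (P.add h1 h2 h3))

lemma G.neg (ha : P.G s a) : P.G s (-a) := ha.imp (by simp) (by simp)

lemma L.neg (ha : P.L s a) : P.L s (-a) := ha.imp (by simp) (by simp)

lemma G.sub (ha : P.G s a) (hb : P.G s b) : P.G s (a - b) := sub_eq_add_neg a b ▸ ha.add hb.neg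

lemma L.sub (ha : P.L s a) (hb : P.L s b) : P.L s (a - b) := sub_eq_add_neg a b ▸ ha.add hb.neg

lemma G.mul (ha : P.G s a) (hb : P.G t b) : P.G (s + t) (a * b) := by
  by_cases h1 : a = 0
  · exact Or.inl (by simp [h1])
  by_cases h2 : b = 0
  · exact Or.inl (by simp [h2])
  exact Or.inr (P.mul h1 h2 ▸ add_le_add (ha.le h1) (hb.le h2))

lemma L.mul (ha : P.L s a) (hb : P.G t b) : P.L (s + t) (a * b) := by
  by_cases h1 : a = 0
  · exact Or.inl (by simp [h1])
  by_cases h2 : b = 0
  · exact Or.inl (by simp [h2])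
  exact Or.inr (P.mul h1 h2 ▸ add_lt_add_of_lt_of_le (ha.lt h1) (hb.le h2))

lemma G.mul0 (ha : P.G s a) (hb : P.G 0 b) : P.G s (a * b) := by simpa using ha.mul hb

lemma L.mul0 (ha : P.L s a) (hb : P.G 0 b) : P.L s (a * b) := by simpa using ha.mul hb

lemma G.div (ha : P.G s a) (b : K) : P.G (s - P.o b) (a / b) := by
  simpa [div_eq_mul_inv, sub_eq_add_neg] using ha.mul (G.self b⁻¹)

lemma L.div (ha : P.L s a) (b : K) : P.L (s - P.o b) (a / b) := by
  simpa [div_eq_mul_inv, sub_eq_add_neg] using ha.mul (G.self b⁻¹)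

lemma G.cst (c : C) : P.G 0 (algebraMap C K c) := Or.inr (P.cst c).ge

lemma G.nat (n : ℕ) : P.G 0 (n : K) := map_natCast (algebraMap C K) n ▸ G.cst (n : C)

lemma G.pow (ha : P.G s a) (n : ℕ) : P.G (n * s) (a ^ n) := by
  induction n with
  | zero => exact Or.inr (by simp)
  | succ n ih => rw [pow_succ]; exact (ih.mul ha).mono (by push_cast; linarith)

lemma G.sum {ι : Type} {S : Finset ι} {f : ι → K} (h : ∀ i ∈ S, P.G s (f i)) :
    P.G s (∑ i ∈ S, f i) :=
  Finset.sum_induction f _ (fun _ _ => G.add) G.zero h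

lemma L.sum {ι : Type} {S : Finset ι} {f : ι → K} (h : ∀ i ∈ S, P.L s (f i)) :
    P.L s (∑ i ∈ S, f i) :=
  Finset.sum_induction f _ (fun _ _ => L.add) L.zero h

lemma G.aeval (ha : P.G 0 a) (p : C[X]) : P.G 0 (aeval a p) := by
  rw [aeval_eq_sum_range]
  exact G.sum fun i _ => by
    rw [Algebra.smul_def]; exact (G.cst _).mul0 (by simpa using ha.pow i)

/-- A smaller term does not change the order. -/
lemma o_add (ha : a ≠ 0) (hb : P.L (P.o a) b) : a + b ≠ 0 ∧ P.o (a + b) = P.o a := by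
  have h1 : ¬ P.L (P.o a) (a + b) := fun h => by
    have := (h.sub hb).lt (by simpa using ha)
    simp at this
  refine ⟨fun h => h1 (Or.inl h), le_antisymm (not_lt.1 fun h => h1 (Or.inr h)) ?_⟩
  exact ((G.self a).add hb.G).le fun h => h1 (Or.inl h)

lemma R.cst (c : C) : P.R (algebraMap C K c) c := Or.inl (sub_self _)

lemma R_zero : P.R a 0 ↔ P.L 0 a := by simp [R]

lemma R.G (h : P.R a c) : P.G 0 a := by simpa using (L.G h).add (G.cst c)

lemma G.exR (h : P.G 0 a) : ∃ c, P.R a c := by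
  rcases (G_zero_iff.1 h).eq_or_lt with h | h
  · exact P.res h.symm
  · exact ⟨0, R_zero.2 (Or.inr h)⟩

lemma R.add (ha : P.R a c) (hb : P.R b e) : P.R (a + b) (c + e) := by
  have := L.add ha hb
  unfold R
  convert this using 1
  rw [map_add]; ring

lemma R.neg (ha : P.R a c) : P.R (-a) (-c) := by
  have := L.neg ha
  unfold R
  convert this using 1
  rw [map_neg]; ring

lemma R.sub (ha : P.R a c) (hb : P.R b e) : P.R (a - b) (c - e) := by
  simpa [sub_eq_add_neg] using ha.add hb.neg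

lemma R.mul (ha : P.R a c) (hb : P.R b e) : P.R (a * b) (c * e) := by
  have := (L.mul0 ha hb.G).add (L.mul0 hb (G.cst c))
  unfold R
  convert this using 1
  rw [map_mul]; ring

lemma R.pow (ha : P.R a c) (n : ℕ) : P.R (a ^ n) (c ^ n) := by
  induction n with
  | zero => simpa using R.cst (P := P) 1
  | succ n ih => rw [pow_succ, pow_succ]; exact ih.mul ha

lemma R.unit (ha : P.R a c) (hc : c ≠ 0) : a ≠ 0 ∧ P.o a = 0 := by
  have := o_add (P := P) (a := algebraMap C K c) (b := a - algebraMap C K c) (by simpa using hc)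
    (by rw [P.cst]; exact ha)
  simpa [P.cst] using this

lemma R.unique (ha : P.R a c) (hb : P.R a e) : c = e := by
  by_contra h
  have := (ha.sub hb).unit (sub_ne_zero.2 h)
  simp at this

lemma R.inv (ha : P.R a c) (hc : c ≠ 0) : P.R a⁻¹ c⁻¹ := by
  obtain ⟨h1, h2⟩ := ha.unit hc
  have h3 : algebraMap C K c ≠ 0 := by simpa using hc
  have := ((L.neg ha).mul0 (G.cst c⁻¹)).div a
  rw [h2, sub_zero] at this
  unfold R
  convert this using 1
  rw [map_inv₀]; field_simp; ring

lemma R.div (ha : P.R a c) (hb : P.R b e) (he : e ≠ 0) : P.R (a / b) (c / e) := by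
  simpa [div_eq_mul_inv] using ha.mul (hb.inv he)

lemma R.aeval (ha : P.R a c) (p : C[X]) : P.R (aeval a p) (p.eval c) := by
  induction p using Polynomial.induction_on' with
  | add p q hp hq => simpa using hp.add hq
  | monomial n e => simpa [aeval_monomial] using (R.cst e).mul (ha.pow n)

/-- The logarithmic derivative of `g` with respect to `u`. -/
lemma R_log (hu : P.o u ≠ 0) (hg : g ≠ 0) :
    P.R (u * d g / (g * d u)) ((P.o g / P.o u : ℚ) : C) := P.log hu hg

/-- The order of a polynomial at a finite place. -/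
lemma o_fin (h : 0 < P.o (x - algebraMap C K c)) {B : C[X]} (hB : B ≠ 0) :
    aeval x B ≠ 0 ∧ P.o (aeval x B) = rootMultiplicity c B * P.o (x - algebraMap C K c) := by
  obtain ⟨q, h1, h2⟩ := exists_eq_pow_rootMultiplicity_mul_and_not_dvd B hB c
  obtain ⟨h3, h4⟩ := (R.aeval (P := P) (Or.inr h) q).unit (by rwa [dvd_iff_isRoot] at h2)
  have h5 : (x - algebraMap C K c) ^ rootMultiplicity c B ≠ 0 := pow_ne_zero _ (ne_zero h.ne')
  have h6 : aeval x B = (x - algebraMap C K c) ^ rootMultiplicity c B * aeval x q := by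
    conv_lhs => rw [h1]
    simp
  rw [h6, P.mul h5 h3, h4, o_pow, add_zero]
  exact ⟨mul_ne_zero h5 h3, rfl⟩

/-- The leading term of a polynomial at a place at infinity. -/
lemma R_inf (h : P.o x < 0) {B : C[X]} {n : ℕ} (hB : B.natDegree ≤ n) :
    P.R (aeval x B / x ^ n) (B.coeff n) := by
  have x0 : x ≠ 0 := ne_zero h.ne
  rw [aeval_eq_sum_range' (Nat.lt_succ_of_le hB), Finset.sum_range_succ, R, add_div,
    Algebra.smul_def (B.coeff n), mul_div_cancel_right₀ _ (pow_ne_zero _ x0), add_sub_cancel_right,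
    Finset.sum_div]
  refine L.sum fun i hi => ?_
  have h1 := ((G.self (P := P) (x ^ i)).mul0 (G.cst (B.coeff i))).div (x ^ n)
  rw [Algebra.smul_def, mul_comm]
  refine h1.L ?_
  have : (i : ℚ) < n := by exact_mod_cast Finset.mem_range.1 hi
  rw [o_pow, o_pow]
  nlinarith

/-- The order of a polynomial at a place at infinity. -/
lemma o_inf (h : P.o x < 0) {B : C[X]} (hB : B ≠ 0) :
    aeval x B ≠ 0 ∧ P.o (aeval x B) = B.natDegree * P.o x := by
  obtain ⟨h1, h2⟩ := (R_inf h le_rfl).unit (leadingCoeff_ne_zero.2 hB)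
  have h3 : aeval x B ≠ 0 := fun e => h1 (by simp [e])
  rw [o_div h3 (pow_ne_zero _ (ne_zero h.ne)), o_pow] at h2
  exact ⟨h3, by linarith⟩

lemma o_sub_inf (h : P.o x < 0) (c : C) : P.o (x - algebraMap C K c) = P.o x := by
  have := o_add (P := P) (b := -algebraMap C K c) (ne_zero h.ne) ((G.cst c).neg.L h)
  simpa [sub_eq_add_neg] using this.2

end Pl

variable [CharZero C]

/-- A differential field of transcendence degree one with constants `C` and enough places. -/
structure Fld (d : Der C K) : Prop where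
  cst : ∀ g, d g = 0 → ∃ c, g = algebraMap C K c
  alg : ∀ u, d u ≠ 0 → ∀ g : K, IsAlgebraic C⟮u⟯ g
  int : ∀ (S : Subalgebra C K) (g : K), (∀ P : Pl d, (∀ r ∈ S, P.G 0 r) → P.G 0 g) →
    IsIntegral S g

omit [CharZero C] in
lemma transc [IsAlgClosed C] {d : Der C K} {x : K} (h : d x ≠ 0) : Transcendental C x := fun ha => by
  obtain ⟨c, rfl⟩ := minpoly.mem_range_of_degree_eq_one C x
    (IsAlgClosed.degree_eq_one_of_irreducible C (minpoly.irreducible ha.isIntegral))
  exact h (d.map_algebraMap c)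

omit [CharZero C] in
lemma aeval_inj [IsAlgClosed C] {d : Der C K} {x : K} (h : d x ≠ 0) {p q : C[X]}
    (e : aeval x p = aeval x q) : p = q :=
  transcendental_iff_injective.1 (transc h) e

namespace Fld

variable {d : Der C K} {g x : K}

lemma const [IsAlgClosed C] (h : Fld d) (hg : ∀ P : Pl d, P.G 0 g) :
    ∃ c, g = algebraMap C K c := by
  refine h.cst g (by_contra fun h0 => transc h0 ?_)
  have h1 := h.int ⊥ g fun P _ => hg P
  have : Algebra.IsIntegral C (⊥ : Subalgebra C K) := ⟨fun r => by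
    obtain ⟨c, rfl⟩ := (Algebra.botEquiv C K).symm.surjective r
    exact (isIntegral_algebraMap (R := C) (A := (⊥ : Subalgebra C K)) (x := c))⟩
  exact (isIntegral_trans g h1).isAlgebraic

lemma ex_inf [IsAlgClosed C] (h : Fld d) (hx : d x ≠ 0) : ∃ P : Pl d, P.o x < 0 := by
  by_contra hn
  push Not at hn
  obtain ⟨c, rfl⟩ := h.const fun P => Pl.G.of_le (hn P)
  exact hx (d.map_algebraMap c)

lemma ex_fin [IsAlgClosed C] (h : Fld d) (hx : d x ≠ 0) (c : C) :
    ∃ P : Pl d, 0 < P.o (x - algebraMap C K c) := by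
  have h0 : x - algebraMap C K c ≠ 0 := fun e => hx (by rw [sub_eq_zero.1 e, d.map_algebraMap])
  obtain ⟨P, hP⟩ := h.ex_inf (x := (x - algebraMap C K c)⁻¹) (by simp [d.leibniz_inv, h0, hx])
  exact ⟨P, by simpa using hP⟩

lemma root [CharZero K] (h : Fld d) {n : ℕ} (hn : n ≠ 0) {c : C} (e : g ^ n = algebraMap C K c) :
    ∃ c, g = algebraMap C K c := by
  by_cases g0 : g = 0
  · exact ⟨0, by simp [g0]⟩
  have := congrArg d e
  rw [d.map_algebraMap, d.leibniz_pow] at this
  exact h.cst g (by simpa [hn, g0] using this)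

end Fld

/-- At a finite place a nonconstant function has a finite value. -/
lemma Pl.ex_pt {d : Der C K} {P : Pl d} {x : K} (hx : d x ≠ 0) (h : 0 ≤ P.o x) :
    ∃ c, 0 < P.o (x - algebraMap C K c) := by
  obtain ⟨c, hc⟩ := (Pl.G.of_le h).exR
  exact ⟨c, Pl.L.lt hc fun e => hx (by rw [sub_eq_zero.1 e, d.map_algebraMap])⟩

/-- The two coordinates have the same poles. -/
def NCP (d : Der C K) (x y : K) : Prop := ∀ P : Pl d, P.o x < 0 ∨ P.o y < 0 → P.o x = P.o y

lemma NCP.symm {d : Der C K} {x y : K} (h : NCP d x y) : NCP d y x :=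
  fun P hP => (h P hP.symm).symm

lemma NCP.ex_pt {d : Der C K} {x y : K} (h : NCP d x y) (hy : d y ≠ 0) {P : Pl d} {c : C}
    (hP : 0 < P.o (x - algebraMap C K c)) : ∃ e, 0 < P.o (y - algebraMap C K e) := by
  refine Pl.ex_pt hy (not_lt.1 fun h1 => ?_)
  have h2 := h P (Or.inr h1)
  rw [Pl.o_sub_inf (h2 ▸ h1)] at hP
  linarith

/-- The top equation. -/
structure Eq0 (d : Der C K) (x y : K) (J : ℕ) (A B : C[X]) : Prop where
  J0 : 0 < J
  dx : d x ≠ 0
  dy : d y ≠ 0
  A0 : A ≠ 0
  B0 : B ≠ 0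
  dA : A.natDegree ≤ J
  dB : B.natDegree ≤ J
  top : B.coeff J = (-1) ^ J * A.coeff J
  e0 : aeval x B * d y ^ J = aeval y A * d x ^ J

/-- The three top equations. -/
structure Eqs (d : Der C K) (x y : K) (J : ℕ) (A A1 A2 B B1 B2 : C[X]) : Prop
    extends Eq0 d x y J A B where
  e1 : d x ^ 2 * (aeval x B1 - y * aeval x (derivative B)) * aeval y A =
    d y ^ 2 * (aeval y A1 - x * aeval y (derivative A)) * aeval x B
  e2 : d x ^ 4 * (2 * aeval x B2 - 2 * y * aeval x (derivative B1) +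
      y ^ 2 * aeval x (derivative (derivative B))) * aeval y A =
    d y ^ 4 * (2 * aeval y A2 - 2 * x * aeval y (derivative A1) +
      x ^ 2 * aeval y (derivative (derivative A))) * aeval x B

section

variable {d : Der C K} {x y : K} {J : ℕ} {A A1 A2 B B1 B2 : C[X]}

omit [CharZero C] in
lemma Eq0.symm (h : Eq0 d x y J A B) : Eq0 d y x J B A :=
  ⟨h.J0, h.dy, h.dx, h.B0, h.A0, h.dB, h.dA, by rw [h.top, ← mul_assoc, ← mul_pow]; simp,
    h.e0.symm⟩

omit [CharZero C] in
lemma Eqs.symm (h : Eqs d x y J A A1 A2 B B1 B2) : Eqs d y x J B B1 B2 A A1 A2 :=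
  ⟨h.toEq0.symm, h.e1.symm, h.e2.symm⟩

omit [CharZero C] in
/-- The top equation in terms of the logarithmic derivative. -/
lemma Eq0.lam (h : Eq0 d x y J A B) {u v : K} (hu : d u = d x) (hv : d v = d y) (v0 : v ≠ 0) :
    aeval x B * (u * d v / (v * d u)) ^ J * v ^ J = aeval y A * u ^ J := by
  have := h.dx
  rw [hu, hv, div_pow, mul_pow, mul_pow]
  field_simp
  linear_combination u ^ J * h.e0

/-- Orders in the top equation. -/
lemma Eq0.ord [IsAlgClosed C] (h : Eq0 d x y J A B) (P : Pl d) {a b : C}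
    (hu : P.o (x - algebraMap C K a) ≠ 0) (hv : P.o (y - algebraMap C K b) ≠ 0) :
    P.o (aeval x B) + J * P.o (y - algebraMap C K b) =
      P.o (aeval y A) + J * P.o (x - algebraMap C K a) := by
  have h1 := h.lam (u := x - algebraMap C K a) (v := y - algebraMap C K b) (by simp) (by simp)
    (Pl.ne_zero hv)
  obtain ⟨h2, h3⟩ := (Pl.R_log hu (Pl.ne_zero hv)).unit (by simp [hu, hv])
  have hB : aeval x B ≠ 0 := fun e => h.B0 (aeval_inj h.dx (by simpa using e))
  have hA : aeval y A ≠ 0 := fun e => h.A0 (aeval_inj h.dy (by simpa using e))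
  have h4 := congrArg P.o h1
  rwa [P.mul (mul_ne_zero hB (pow_ne_zero _ h2)) (pow_ne_zero _ (Pl.ne_zero hv)),
    P.mul hB (pow_ne_zero _ h2), P.mul hA (pow_ne_zero _ (Pl.ne_zero hu)), Pl.o_pow, Pl.o_pow,
    Pl.o_pow, h3, mul_zero, add_zero] at h4

/-- Cone angles at a finite place. -/
lemma Eq0.nu [IsAlgClosed C] (h : Eq0 d x y J A B) (P : Pl d) {a b : C}
    (hu : 0 < P.o (x - algebraMap C K a)) (hv : 0 < P.o (y - algebraMap C K b)) :
    ((J : ℚ) - rootMultiplicity a B) * P.o (x - algebraMap C K a) =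
      ((J : ℚ) - rootMultiplicity b A) * P.o (y - algebraMap C K b) := by
  have := h.ord P hu.ne' hv.ne'
  rw [(Pl.o_fin hu h.B0).2, (Pl.o_fin hv h.A0).2] at this
  linarith

end

/-- `B1 / B` has a pole of order at least two at `a`. -/
def Pole (B B1 : C[X]) (a : C) : Prop := ¬ (X - Polynomial.C a) ^ (rootMultiplicity a B - 1) ∣ B1

/-- Two roots of multiplicity at least `J / 2`. -/
def Two (J : ℕ) (B : C[X]) : Prop :=
  ∃ a b : C, a ≠ b ∧ J ≤ 2 * rootMultiplicity a B ∧ J ≤ 2 * rootMultiplicity b B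

end Pool.Agent.MP_249f74_an.H53
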