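import Pool.Agent.MP_249f74_an.H53.Core

/-!
Invariant finite families of curves of lines.
-/

open Polynomial IntermediateField

namespace Pool.Agent.MP_249f74_an.H53

open H17 (Der)
open H88 (cl subset_cl)
open H96 (NC1)
open Polynomial.Bivariate (swap swap_swap_apply aevalAeval_swap)

/-- A family of curves of lines whose trace on the pencil of the point is stable. -/
def StmtINV : Prop :=
  ∀ (C Ω : Type) [Field C] [CharZero C] [IsAlgClosed C] [Field Ω] [CharZero Ω] [IsAlgClosed Ω]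
    [Algebra C Ω] (Z : Der C Ω) (x y w z : Ω) (F : C[X][X]), Z y = 1 → Z x = w →
    x ∈ cl C {y} → w ≠ 0 → z ∉ cl C {y} → (NC1 C x y ↔ NC1 C y x) → F ≠ 0 →
    (∀ s ∈ cl C {y}, s ≠ 0 → s ^ 2 ≠ w → aevalAeval (x - s ^ 2 * y) s F = 0 →
      aevalAeval (x - (w / s) ^ 2 * y) (w / s) F = 0) →
    Con C x y ∨ ∃ (a : C) (k : ℕ), F = Polynomial.C (Polynomial.C a) * X ^ k

/-- A square relation between a line and the reflected line. -/
def StmtODD : Prop :=
  ∀ (C Ω : Type) [Field C] [CharZero C] [IsAlgClosed C] [Field Ω] [CharZero Ω] [IsAlgClosed Ω]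
    [Algebra C Ω] (Z : Der C Ω) (x y w z z' κ r : Ω) (f g : C[X][X]) (e : ℕ), Z y = 1 → Z x = w →
    x ∈ cl C {y} → w ≠ 0 → z ∉ cl C {y} → z * z' = w → (NC1 C x y ↔ NC1 C y x) → f ≠ 0 → g ≠ 0 →
    κ ∈ cl C {y} → κ ≠ 0 → r ∈ cl C {y} ⊔ C⟮z⟯ →
    κ * z ^ e * aevalAeval (x - z ^ 2 * y) z f * aevalAeval (x - z' ^ 2 * y) z' g = r ^ 2 →
    Con C x y ∨ ∃ (a : C) (k : ℕ) (h : C[X][X]), f = Polynomial.C (Polynomial.C a) * X ^ k * h ^ 2

namespace Ov

variable {C K : Type} [Field C]

lemma map_ev {A B : Type} [CommRing A] [CommRing B] [Algebra C A] [Algebra C B] (g : A →ₐ[C] B)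
    (a b : A) (F : C[X][X]) : g (aevalAeval a b F) = aevalAeval (g a) (g b) F := by
  have := (aevalAevalEquiv C B).right_inv (g.comp (aevalAeval a b))
  rw [← AlgHom.comp_apply, ← this]
  simp

lemma chain {A : Type} [CommRing A] [Algebra C A] (δ : Derivation C A A) (a b : A) (F : C[X][X]) :
    δ (aevalAeval a b F) = aevalAeval a b (swap (derivative (swap F))) * δ a +
      aevalAeval a b (derivative F) * δ b := by
  induction F using Polynomial.induction_on' with
  | add p q hp hq => simp only [map_add, hp, hq]; ring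
  | monomial n p =>
    rw [aevalAeval_swap, Bivariate.swap_monomial, ← C_mul_X_pow_eq_monomial]
    have e : ∀ q : C[X], aevalAeval b a (q.map Polynomial.C) = aeval a q := fun q => by
      rw [← Bivariate.swap_C, aevalAeval_swap, aevalAeval_C]
    simp only [derivative_mul, derivative_C, derivative_map, derivative_X, map_one, map_mul, map_add,
      map_pow, e, aevalAeval_C, aevalAeval_Y, aeval_X, map_zero, map_natCast, δ.leibniz,
      δ.leibniz_pow, δ.map_aeval, smul_eq_mul, nsmul_eq_mul, derivative_pow]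
    ring

lemma sqf {R : Type} [CommRing R] [IsDomain R] [UniqueFactorizationMonoid R] {f : R} (hf : f ≠ 0) :
    ∃ a b : R, Squarefree a ∧ f = a * b ^ 2 := by
  induction f using UniqueFactorizationMonoid.induction_on_prime with
  | h₁ => exact absurd rfl hf
  | h₂ u hu => exact ⟨u, 1, hu.squarefree, by simp⟩
  | h₃ f p f0 hp ih =>
    obtain ⟨a, b, ha, rfl⟩ := ih f0
    by_cases h : p ∣ a
    · obtain ⟨c, rfl⟩ := h
      exact ⟨c, p * b, ha.of_mul_right, by ring⟩
    · exact ⟨p * a, b, squarefree_mul_iff.2 ⟨hp.irreducible.isRelPrime_iff_not_dvd.2 h,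
        hp.squarefree, ha⟩, by ring⟩

variable [Field K] [Algebra C K]

lemma cop1 {a b : K} (ha : Transcendental C a) {p q : C[X][X]} (hp : Irreducible p)
    (h1 : aevalAeval a b p = 0) (h2 : aevalAeval a b q = 0) : p ∣ q := by
  have inj := transcendental_iff_injective.1 ha
  let θ : FractionRing C[X] →+* K := IsFractionRing.lift (g := (aeval a : C[X] →ₐ[C] K).toRingHom) inj
  have e : ∀ F : C[X][X], eval₂ θ b (F.map (algebraMap _ (FractionRing C[X]))) =
      aevalAeval a b F := fun F => by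
    induction F using Polynomial.induction_on' with
    | add p q hp hq => simp only [Polynomial.map_add, eval₂_add, map_add, hp, hq]
    | monomial n p => simp [← C_mul_X_pow_eq_monomial, θ]
  have h3 : p.natDegree ≠ 0 := fun h => by
    rw [eq_C_of_natDegree_eq_zero h, aevalAeval_C] at h1
    exact hp.ne_zero (by rw [eq_C_of_natDegree_eq_zero h, inj (h1.trans (map_zero _).symm), C_0])
  have h4 := hp.isPrimitive h3
  have h5 := (h4.irreducible_iff_irreducible_map_fraction_map (K := FractionRing C[X])).1 hp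
  refine h4.dvd_of_fraction_map_dvd_fraction_map (K := FractionRing C[X]) (by_contra fun hn => ?_)
  obtain ⟨u, v, huv⟩ := (h5.coprime_iff_not_dvd.2 hn)
  simpa [eval₂_add, eval₂_mul, e, h1, h2] using congrArg (eval₂ θ b) huv

lemma cop {a b : K} (ha : Transcendental C a ∨ Transcendental C b) {p q : C[X][X]}
    (hp : Irreducible p) (h1 : aevalAeval a b p = 0) (h2 : aevalAeval a b q = 0) : p ∣ q := by
  rcases ha with ha | ha
  · exact cop1 ha hp h1 h2
  · exact (map_dvd_iff swap).1 (cop1 (b := a) ha ((MulEquiv.irreducible_iff swap).2 hp)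
      (by rwa [aevalAeval_swap]) (by rwa [aevalAeval_swap]))

lemma sing [CharZero C] {a b : K} (ha : Transcendental C a ∨ Transcendental C b) {F : C[X][X]}
    (hF : Squarefree F) (h0 : aevalAeval a b F = 0) (h1 : aevalAeval a b (derivative F) = 0)
    (h2 : aevalAeval a b (swap (derivative (swap F))) = 0) : False := by
  obtain ⟨p, hp, p0, q, rfl⟩ : ∃ p, Irreducible p ∧ aevalAeval a b p = 0 ∧ p ∣ F := by
    have := hF.ne_zero
    clear hF h1 h2
    induction F using WfDvdMonoid.induction_on_irreducible with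
    | zero => exact absurd rfl this
    | unit u hu => exact absurd h0 (hu.map _).ne_zero
    | mul f p f0 hp ih =>
      rcases mul_eq_zero.1 ((map_mul _ _ _).symm.trans h0) with h | h
      · exact ⟨p, hp, h, dvd_mul_right _ _⟩
      · obtain ⟨q, a1, a2, a3⟩ := ih h f0
        exact ⟨q, a1, a2, a3.mul_left _⟩
  have q0 : aevalAeval a b q ≠ 0 := fun h =>
    hp.not_isUnit (hF p (mul_dvd_mul_left p (cop ha hp p0 h)))
  simp only [derivative_mul, map_mul, map_add, swap_swap_apply, p0, zero_mul, add_zero,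
    mul_eq_zero, q0, or_false] at h1 h2
  have k : ∀ r : C[X][X], r ∣ derivative r → r = Polynomial.C (r.coeff 0) := fun r hr =>
    eq_C_of_derivative_eq_zero (by_contra fun h =>
      absurd (degree_le_of_dvd hr h) (not_le.2 (degree_derivative_lt fun e => h (by simp [e]))))
  have k1 := k p (cop ha hp p0 h1)
  have k2 := k (swap p) (by simpa [swap_swap_apply] using map_dvd swap (cop ha hp p0 h2))
  rw [k1, Bivariate.swap_C] at k2
  have k3 : (p.coeff 0).natDegree = 0 := by
    simpa [natDegree_map_eq_of_injective C_injective] using congrArg natDegree k2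
  rw [eq_C_of_natDegree_eq_zero k3] at k1
  rw [k1, aevalAeval_C, aeval_C, map_eq_zero] at p0
  exact hp.ne_zero (by rw [k1, p0]; simp)

/-- The trace on the pencil. -/
noncomputable def ph (x y : K) : C[X][X] →ₐ[C] K[X] :=
  aevalAeval (Polynomial.C x - X ^ 2 * Polynomial.C y) X

lemma aeval_ph {Ω : Type} [Field Ω] [Algebra C Ω] [Algebra K Ω] [IsScalarTower C K Ω] (x y : K)
    (z : Ω) (F : C[X][X]) : aeval z (ph x y F) =
      aevalAeval (algebraMap K Ω x - z ^ 2 * algebraMap K Ω y) z F := by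
  refine (map_ev ((aeval z : K[X] →ₐ[K] Ω).restrictScalars C) _ X F).trans ?_
  simp only [AlgHom.restrictScalars_apply, map_sub, map_mul, map_pow, aeval_X, aeval_C]

lemma eval_ph (x y s : K) (F : C[X][X]) :
    (ph x y F).eval s = aevalAeval (x - s ^ 2 * y) s F := by simpa using aeval_ph x y s F

variable [CharZero C] [IsAlgClosed C] {d : Der C K} {x y : K}

lemma simple (hy : d y = 1) {F : C[X][X]} (hF : Squarefree F) {s : K} (hs : s ^ 2 ≠ d x)
    (h0 : (ph x y F).eval s = 0) : (derivative (ph x y F)).eval s ≠ 0 := fun h1 => by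
  have e1 := congrArg (eval s) (chain ((derivative' (R := K)).restrictScalars C)
    (Polynomial.C x - X ^ 2 * Polynomial.C y) X F)
  have e2 := chain d (x - s ^ 2 * y) s F
  rw [← eval_ph, h0, map_zero] at e2
  change (derivative (ph x y F)).eval s = (ph x y _ * derivative _ + ph x y _ * derivative _).eval s
    at e1
  simp only [h1, eval_add, eval_mul, eval_ph, derivative_sub, derivative_mul, derivative_C,
    derivative_X_pow, derivative_X, eval_sub, eval_zero, eval_one, eval_C, eval_pow, eval_X] at e1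
  have e3 : d (x - s ^ 2 * y) = d x - s ^ 2 - 2 * s * y * d s := by
    simp only [map_sub, d.leibniz, d.leibniz_pow, hy, smul_eq_mul, nsmul_eq_mul]
    push_cast
    ring
  have e4 : aevalAeval (x - s ^ 2 * y) s (swap (derivative (swap F))) = 0 := by
    refine (mul_eq_zero.1 (?_ : _ * (d x - s ^ 2) = 0)).resolve_right (sub_ne_zero.2 hs.symm)
    rw [e3] at e2
    push_cast at e1
    linear_combination d s * e1 - e2
  rw [e4] at e1
  refine sing ?_ hF (by rw [← eval_ph, h0]) (by linear_combination -e1) e4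
  by_cases h : d s = 0
  · exact Or.inl (transc (d := d) (by rw [e3, h]; simpa using sub_ne_zero.2 hs.symm))
  · exact Or.inr (transc h)

lemma mult_le (hy : d y = 1) {F : C[X][X]} (hF : Squarefree F) {s : K} (hs : s ^ 2 ≠ d x) :
    rootMultiplicity s (ph x y F) ≤ 1 := by
  by_contra h
  have h1 := (one_lt_rootMultiplicity_iff_isRoot (fun e => h (by simp [e]))).1 (not_le.1 h)
  exact simple hy hF hs h1.1 h1.2

lemma ph_ne [CharZero K] (hy : d y = 1) {F : C[X][X]} (hF : F ≠ 0) : ph x y F ≠ 0 := by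
  induction F using WfDvdMonoid.induction_on_irreducible with
  | zero => exact absurd rfl hF
  | unit u hu => exact (hu.map _).ne_zero
  | mul f p f0 hp ih =>
    rw [map_mul]
    refine mul_ne_zero (fun h => ?_) (ih f0)
    have := fun s (hs : s ^ 2 ≠ d x) => simple hy hp.squarefree hs (by simp [h]) (by simp [h])
    by_cases h0 : d x = 0
    · exact this 1 (by simp [h0])
    · exact this 0 (by simpa using Ne.symm h0)

omit [CharZero C] [IsAlgClosed C] in
lemma star [IsAlgClosed K] {w : K} (hw : w ≠ 0) {Q : K[X]} (hQ : Q ≠ 0) :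
    ∃ (R : K[X]) (n : ℕ), R ≠ 0 ∧ (∀ s ≠ 0, rootMultiplicity s R = rootMultiplicity (w / s) Q) ∧
      ∀ (Ω : Type) [Field Ω] [Algebra K Ω] (z z' : Ω), z * z' = algebraMap K Ω w →
        aeval z R = z ^ n * aeval z' Q := by
  classical
  induction Q using WfDvdMonoid.induction_on_irreducible with
  | zero => exact absurd rfl hQ
  | unit u hu =>
    obtain ⟨c, -, rfl⟩ := Polynomial.isUnit_iff.1 hu
    exact ⟨_, 0, hQ, by simp, by simp⟩
  | mul f p f0 hp ih =>
    obtain ⟨R, n, R0, h1, h2⟩ := ih f0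
    have h3 := eq_X_add_C_of_degree_eq_one (IsAlgClosed.degree_eq_one_of_irreducible K hp)
    have h4 : p.leadingCoeff ≠ 0 := leadingCoeff_ne_zero.2 hp.ne_zero
    generalize p.leadingCoeff = a, p.coeff 0 = b at h3 h4
    subst h3
    have h5 : Polynomial.C b * X + Polynomial.C (a * w) ≠ 0 := fun e => by
      simpa [h4, hw] using congrArg (eval 0) e
    have h6 : ∀ (q : K[X]) (s : K), q ≠ 0 → q.natDegree ≤ 1 →
        rootMultiplicity s q = if q.eval s = 0 then 1 else 0 := fun q s q0 hq => by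
      split_ifs with h
      · have := natDegree_le_of_dvd (pow_rootMultiplicity_dvd q s) q0
        rw [natDegree_pow, natDegree_X_sub_C] at this
        have := (rootMultiplicity_pos q0).2 h
        omega
      · exact rootMultiplicity_eq_zero h
    refine ⟨_ * R, n + 1, mul_ne_zero h5 R0, fun s hs => ?_, fun Ω _ _ z z' hz => ?_⟩
    · rw [rootMultiplicity_mul (mul_ne_zero h5 R0), rootMultiplicity_mul hQ, h1 s hs,
        h6 _ _ h5 natDegree_linear_le, h6 _ _ hp.ne_zero natDegree_linear_le]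
      congr 2
      simp only [eval_add, eval_mul, eval_C, eval_X, eq_iff_iff]
      field_simp
      rw [add_comm, mul_zero]
    · simp only [map_mul, map_add, aeval_C, aeval_X, h2 Ω z z' hz, ← hz]
      ring

omit [CharZero C] [IsAlgClosed C] in
lemma sym [IsAlgClosed K] {w : K} (hw : w ≠ 0) {Q : K[X]} (hQ : Q ≠ 0)
    (h : ∀ s ≠ 0, rootMultiplicity s Q = rootMultiplicity (w / s) Q) : ∃ j M : ℕ,
      ∀ (Ω : Type) [Field Ω] [Algebra K Ω] (z z' : Ω), z * z' = algebraMap K Ω w →
        aeval z Q ^ 2 * z ^ j / z ^ M = aeval z' Q ^ 2 * z' ^ j / z' ^ M := by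
  classical
  obtain ⟨R, n, R0, h1, h2⟩ := star hw hQ
  have e : (Q * X ^ rootMultiplicity 0 R).roots = (R * X ^ rootMultiplicity 0 Q).roots := by
    ext s
    rw [count_roots, count_roots, rootMultiplicity_mul (by simp [hQ]),
      rootMultiplicity_mul (by simp [R0])]
    by_cases hs : s = 0
    · have := fun k => rootMultiplicity_X_sub_C_pow (0 : K) k
      simp only [C_0, sub_zero] at this
      rw [hs, this, this, add_comm]
    · rw [h s hs, h1 s hs, rootMultiplicity_eq_zero (p := X ^ _) (by simp [hs]),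
        rootMultiplicity_eq_zero (p := X ^ _) (by simp [hs])]
  have e1 := (IsAlgClosed.splits (Q * X ^ rootMultiplicity 0 R)).eq_prod_roots
  have e2 := (IsAlgClosed.splits (R * X ^ rootMultiplicity 0 Q)).eq_prod_roots
  have a0 : (R * X ^ rootMultiplicity 0 Q).leadingCoeff ≠ 0 := by simp [R0]
  rw [e] at e1
  generalize rootMultiplicity 0 Q = i, rootMultiplicity 0 R = j at e1 e2 a0
  generalize (Q * X ^ j).leadingCoeff = a, (R * X ^ i).leadingCoeff = b,
    ((R * X ^ i).roots.map fun a => X - Polynomial.C a).prod = T at e1 e2 a0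
  refine ⟨j, n + i, fun Ω _ _ z z' hz => ?_⟩
  have k : ∀ z z' : Ω, z * z' = algebraMap K Ω w → algebraMap K Ω b * (aeval z Q * z ^ j) =
      algebraMap K Ω a * (z ^ n * aeval z' Q * z ^ i) := fun z z' hz => by
    have k1 := congrArg (aeval z) e1
    have k2 := congrArg (aeval z) e2
    simp only [map_mul, map_pow, aeval_X, aeval_C, h2 Ω z z' hz] at k1 k2
    rw [k1, k2]; ring
  have hz0 : z * z' ≠ 0 := by simpa [hz] using hw
  rw [div_eq_div_iff (pow_ne_zero _ (left_ne_zero_of_mul hz0))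
    (pow_ne_zero _ (right_ne_zero_of_mul hz0))]
  refine mul_left_cancel₀ ((_root_.map_ne_zero (algebraMap K Ω)).2 a0) ?_
  linear_combination aeval z Q * z' ^ (n + i) * k z z' hz -
    aeval z' Q * z ^ (n + i) * k z' z (by rwa [mul_comm])

omit [CharZero C] [IsAlgClosed C] in
lemma dvd_mon {f : C[X][X]} {c : C} {k : ℕ} (hc : c ≠ 0)
    (h : f ∣ Polynomial.C (Polynomial.C c) * X ^ k) :
    ∃ (a : C) (k : ℕ), f = Polynomial.C (Polynomial.C a) * X ^ k := by
  rw [(isUnit_C.2 (isUnit_C.2 hc.isUnit)).dvd_mul_left, dvd_prime_pow prime_X] at h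
  obtain ⟨i, -, u, hu⟩ := h
  obtain ⟨p, hp, e⟩ := Polynomial.isUnit_iff.1 u⁻¹.isUnit
  obtain ⟨a, -, rfl⟩ := Polynomial.isUnit_iff.1 hp
  exact ⟨a, i, by rw [e, ← hu, mul_comm, Units.mul_inv_cancel_right]⟩

variable {Ω : Type} [Field Ω] [CharZero Ω] [IsAlgClosed Ω] [Algebra C Ω] {Z : Der C Ω}
  {x y w z : Ω}

lemma fin (hC : StmtCC) (hy : Z y = 1) (hx : Z x = w) (hxy : x ∈ cl C {y}) (w0 : w ≠ 0)
    (hz : z ∉ cl C {y}) (hs : NC1 C x y ↔ NC1 C y x) {x' y' w' : cl C ({y} : Set Ω)}
    (ex : x' = x) (ey : y' = y) (ew : w' = w) {F : C[X][X]} (F0 : F ≠ 0) (h0 : ph x' y' F ≠ 0)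
    (h : ∀ s ≠ 0, rootMultiplicity s (ph x' y' F) = rootMultiplicity (w' / s) (ph x' y' F)) :
    Con C x y ∨ ∀ f, f ∣ F → ∃ (a : C) (k : ℕ), f = Polynomial.C (Polynomial.C a) * X ^ k := by
  have := H96.Norm.isAlgClosed_cl (C := C) ({y} : Set Ω)
  have z0 : z ≠ 0 := fun e => hz (e ▸ zero_mem _)
  have hz' : z * (w / z) = w := mul_div_cancel₀ _ z0
  obtain ⟨j, M, e⟩ := sym (w := w') (fun e => w0 (by rw [← ew, e]; rfl)) h0 h
  refine or_iff_not_imp_left.2 fun hn f hf => ?_
  by_contra hf'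
  refine hn (hC C Ω Z x y w z (w / z) (F ^ 2 * X ^ j) M hy hx hxy w0 hz hz' hs (fun c hc => ?_) ?_)
  · refine hf' (dvd_mon (c := c) (k := M) (fun c0 => ?_) (hc ▸ (hf.trans (dvd_pow_self _ two_ne_zero)).mul_right _))
    simp [c0, F0] at hc
  · have := e Ω z (w / z) (hz'.trans ew.symm)
    rw [aeval_ph, aeval_ph, show algebraMap _ Ω x' = x from ex, show algebraMap _ Ω y' = y from ey]
      at this
    simpa only [map_mul, map_pow, aevalAeval_Y] using this

end Ov

open Ov

theorem inv (hC : StmtCC) : StmtINV := by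
  intro C Ω _ _ _ _ _ _ _ Z x y w z F hy hx hxy w0 hz hs F0 h
  have yK : y ∈ cl C {y} := subset_cl _ rfl
  have hp : H96.Pres (cl C {y}) Z := fun f hf =>
    H17.stab_cl (fun s hs => by rw [hs, hy]; exact one_mem _) hf
  have : CharZero (cl C ({y} : Set Ω)) := algebraRat.charZero _
  let d := H96.Norm.res Z hp
  let x' : cl C ({y} : Set Ω) := ⟨x, hxy⟩
  let y' : cl C ({y} : Set Ω) := ⟨y, yK⟩
  have dy : d y' = 1 := Subtype.ext hy
  have dx : (d x' : Ω) = w := hx
  have dx0 : d x' ≠ 0 := fun e => w0 (by rw [← dx, e]; rfl)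
  obtain ⟨G, n, G1, G2, G3⟩ := exists_squarefree_dvd_pow_of_ne_zero F0
  have G0 := ph_ne (x := x') dy G1.ne_zero
  have k : ∀ s : cl C ({y} : Set Ω), s ≠ 0 → s ^ 2 ≠ d x' → (ph x' y' G).eval s = 0 →
      (ph x' y' G).eval (d x' / s) = 0 := fun s s0 s1 s2 => by
    obtain ⟨q, hq⟩ := G2
    obtain ⟨r, hr⟩ := G3
    have ev : ∀ (t : cl C ({y} : Set Ω)) (H : C[X][X]), (((ph x' y' H).eval t : cl C {y}) : Ω) =
        aevalAeval (x - (t : Ω) ^ 2 * y) (t : Ω) H := fun t H => by
      rw [eval_ph]; exact map_ev (cl C {y}).val _ _ H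
    have a1 := h s s.2 (by simpa using s0) (fun e => s1 (Subtype.ext (e.trans dx.symm)))
      (by rw [← ev, hq, map_mul, eval_mul, s2]; simp)
    have a2 : (ph x' y' F).eval (d x' / s) = 0 := Subtype.ext ((ev _ _).trans (by rw [← dx] at a1; exact a1))
    have a3 := congrArg (fun H => (ph x' y' H).eval (d x' / s)) hr
    simp only [map_mul, map_pow, eval_mul, eval_pow, a2, zero_mul] at a3
    exact pow_eq_zero_iff (fun e => by simp [e] at a3) |>.1 a3
  refine (fin hC hy hx hxy w0 hz hs (x' := x') (y' := y') rfl rfl dx G1.ne_zero G0 fun s s0 => ?_).imp_right fun e => ?_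
  · by_cases s1 : s ^ 2 = d x'
    · rw [← s1, sq, mul_div_cancel_right₀ _ s0]
    have s2 : (d x' / s) ^ 2 ≠ d x' := fun e => s1 (by field_simp at e; exact e.symm)
    have b1 := mult_le dy G1 s1
    have b2 := mult_le dy G1 s2
    have b3 := rootMultiplicity_pos (x := s) G0
    have b4 := rootMultiplicity_pos (x := d x' / s) G0
    have b5 := k s s0 s1
    have b6 := k _ (div_ne_zero dx0 s0) s2
    rw [div_div_cancel₀ dx0] at b6
    unfold IsRoot at b3 b4
    by_cases b : (ph x' y' G).eval s = 0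
    · have := b3.2 b
      have := b4.2 (b5 b)
      omega
    · have := mt b3.1 b
      have := mt b4.1 (mt b6 b)
      omega
  · obtain ⟨a, j, rfl⟩ := e G dvd_rfl
    refine dvd_mon (c := a ^ n) (k := j * n) (pow_ne_zero _ fun a0 => G1.ne_zero (by simp [a0])) ?_
    simpa [mul_pow, pow_mul] using G3

theorem odd (hC : StmtCC) : StmtODD := by
  intro C Ω _ _ _ _ _ _ _ Z x y w z z' κ r f g e hy hx hxy w0 hz hzz hs f0 g0 hκ κ0 hr h
  have yK : y ∈ cl C {y} := subset_cl _ rfl
  have hp : H96.Pres (cl C {y}) Z := fun f hf =>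
    H17.stab_cl (fun s hs => by rw [hs, hy]; exact one_mem _) hf
  have : CharZero (cl C ({y} : Set Ω)) := algebraRat.charZero _
  have := H96.Norm.isAlgClosed_cl (C := C) ({y} : Set Ω)
  let d := H96.Norm.res Z hp
  let x' : cl C ({y} : Set Ω) := ⟨x, hxy⟩
  let y' : cl C ({y} : Set Ω) := ⟨y, yK⟩
  have dy : d y' = 1 := Subtype.ext hy
  have dx : (d x' : Ω) = w := hx
  have dx0 : d x' ≠ 0 := fun e => w0 (by rw [← dx, e]; rfl)
  have zt : Transcendental (cl C ({y} : Set Ω)) z := fun ha =>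
    hz (H96.cl_cl (C := C) {y} ▸ H17.mem_cl_iff.2 ha)
  obtain ⟨f1, f2, hf, rfl⟩ := sqf f0
  obtain ⟨g1, g2, hg, rfl⟩ := sqf g0
  have a1 := ph_ne (x := x') dy hf.ne_zero
  have a2 := ph_ne (x := x') dy hg.ne_zero
  obtain ⟨R, n, R0, h1, h2⟩ := star dx0 (ph_ne (x := x') dy g0)
  obtain ⟨p, q, hpq⟩ := (mem_adjoin_simple_iff (cl C ({y} : Set Ω)) (α := z) r).1 (by
    refine (sup_le (fun t ht => ?_) (adjoin_simple_le_iff.2 ?_) :
      _ ≤ restrictScalars C (cl C ({y} : Set Ω))⟮z⟯) hr
    · exact IntermediateField.algebraMap_mem _ (⟨t, ht⟩ : cl C ({y} : Set Ω))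
    · exact mem_adjoin_simple_self _ z)
  have z0 : z ≠ 0 := fun e => hz (e ▸ zero_mem _)
  have inj := transcendental_iff_injective.1 zt
  have h3 := h2 Ω z z' (hzz.trans dx.symm)
  rw [aeval_ph] at h3
  have h4 := aeval_ph x' y' z (f1 * f2 ^ 2)
  have a3 := ph_ne (x := x') dy f0
  have h5 : κ * z ^ e * aeval z (ph x' y' (f1 * f2 ^ 2)) * aeval z R = z ^ n * r ^ 2 := by
    rw [h3, h4, ← h]
    exact (by intros; ring : ∀ a b c e : Ω, a * b * (c * e) = c * (a * b * e)) _ _ _ _
  have r0 : r ≠ 0 := fun e => by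
    rw [e] at h5
    simp only [ne_eq, OfNat.ofNat_ne_zero, not_false_eq_true, zero_pow, mul_zero, mul_eq_zero, κ0,
      pow_eq_zero_iff', z0, false_and, false_or] at h5
    exact h5.elim (fun e => a3 (inj (e.trans (map_zero _).symm)))
      fun e => R0 (inj (e.trans (map_zero _).symm))
  have q0 : aeval z q ≠ 0 := fun e => r0 (by simp [hpq, e])
  have q1 : q ≠ 0 := fun e => q0 (by simp [e])
  have p1 : p ≠ 0 := fun e => r0 (by simp [hpq, e])
  have κ1 : (⟨κ, hκ⟩ : cl C ({y} : Set Ω)) ≠ 0 := fun e => κ0 (congrArg Subtype.val e)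
  have h6 : Polynomial.C ⟨κ, hκ⟩ * X ^ e * (ph x' y' (f1 * f2 ^ 2) * R * (q * q)) =
      X ^ n * (p * p) := inj (by
    simp only [map_mul (aeval z), map_pow (aeval z), aeval_X, aeval_C]
    rw [hpq, div_pow, ← mul_div_assoc, eq_div_iff (pow_ne_zero _ q0)] at h5
    rw [show algebraMap (cl C ({y} : Set Ω)) Ω ⟨κ, hκ⟩ = κ from rfl]
    linear_combination h5)
  have m2 : ∀ (s : cl C ({y} : Set Ω)) (a b : C[X][X]), a * b ^ 2 ≠ 0 →
      rootMultiplicity s (ph x' y' (a * b ^ 2)) =
        rootMultiplicity s (ph x' y' a) + 2 * rootMultiplicity s (ph x' y' b) := fun s a b h => by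
    have := ph_ne (x := x') dy h
    rw [map_mul, sq, map_mul] at this ⊢
    rw [rootMultiplicity_mul this, rootMultiplicity_mul (right_ne_zero_of_mul this), two_mul]
  have k : ∀ s : cl C ({y} : Set Ω), s ≠ 0 → s ^ 2 ≠ d x' →
      rootMultiplicity s (ph x' y' f1) = rootMultiplicity (d x' / s) (ph x' y' g1) := by
    intro s s0 s1
    have s2 : (d x' / s) ^ 2 ≠ d x' := fun e => s1 (by field_simp at e; exact e.symm)
    have b1 := mult_le dy hf s1
    have b2 := mult_le dy hg s2
    have b3 := congrArg (rootMultiplicity s) h6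
    rw [rootMultiplicity_mul (h6 ▸ by simp [p1]), rootMultiplicity_mul (p := X ^ n) (by simp [p1]),
      rootMultiplicity_mul (mul_ne_zero (mul_ne_zero a3 R0) (mul_ne_zero q1 q1)),
      rootMultiplicity_mul (mul_ne_zero a3 R0), rootMultiplicity_mul (mul_ne_zero q1 q1),
      rootMultiplicity_mul (mul_ne_zero p1 p1), h1 s s0, m2 _ _ _ f0, m2 _ _ _ g0,
      rootMultiplicity_eq_zero (p := X ^ n) (by simp [s0]),
      rootMultiplicity_eq_zero (p := _ * X ^ e) (by simp [s0, κ1])] at b3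
    omega
  refine (fin hC hy hx hxy w0 hz hs (x' := x') (y' := y') rfl rfl dx (mul_ne_zero hf.ne_zero hg.ne_zero)
    (ph_ne dy (mul_ne_zero hf.ne_zero hg.ne_zero)) fun s s0 => ?_).imp_right fun e => ?_
  · by_cases s1 : s ^ 2 = d x'
    · rw [← s1, sq, mul_div_cancel_right₀ _ s0]
    have s2 : (d x' / s) ^ 2 ≠ d x' := fun e => s1 (by field_simp at e; exact e.symm)
    have b := k _ (div_ne_zero dx0 s0) s2
    rw [div_div_cancel₀ dx0] at b
    rw [map_mul, rootMultiplicity_mul (mul_ne_zero a1 a2), rootMultiplicity_mul (mul_ne_zero a1 a2),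
      k s s0 s1, b, add_comm]
  · obtain ⟨a, j, rfl⟩ := e f1 (dvd_mul_right _ _)
    exact ⟨a, j, f2, rfl⟩

end Pool.Agent.MP_249f74_an.H53
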