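import Pool.Agent.MP_249f74_an.H53.Defs

/-!
Statements of the modules: a curve whose billiard has a polynomial integral is a conic.
-/

open Polynomial IntermediateField

namespace Pool.Agent.MP_249f74_an.H53

open H17 (Der)
open H88 (cl)
open H96 (NC1)

/-- Existence of places. -/
def StmtEX : Prop :=
  ∀ (C K : Type) [Field C] [CharZero C] [IsAlgClosed C] [Field K] [CharZero K] [Algebra C K]
    (d : Der C K) (y : K), d y ≠ 0 → (∀ g : K, IsAlgebraic C⟮y⟯ g) → Fld d

/-- Points at infinity of the axes, through places. -/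
def StmtNC : Prop :=
  ∀ (C K : Type) [Field C] [CharZero C] [IsAlgClosed C] [Field K] [CharZero K] [Algebra C K]
    (d : Der C K) (x y : K), Fld d → d x ≠ 0 → d y ≠ 0 →
    (NC1 C x y ↔ ∀ P : Pl d, P.o y < 0 → P.o x ≤ P.o y)

/-- Through both circular points: a circle. -/
def StmtCIRC : Prop :=
  ∀ (C K : Type) [Field C] [CharZero C] [IsAlgClosed C] [Field K] [CharZero K] [Algebra C K]
    (d : Der C K) (x y : K) (J : ℕ) (A B : C[X]), Fld d → Eq0 d x y J A B →
    (∃ P : Pl d, P.o y < 0 ∧ P.o y < P.o x) → (∃ P : Pl d, P.o x < 0 ∧ P.o x < P.o y) → Con C x y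

/-- A root of full multiplicity: a line. -/
def StmtPOS : Prop :=
  ∀ (C K : Type) [Field C] [CharZero C] [IsAlgClosed C] [Field K] [CharZero K] [Algebra C K]
    (d : Der C K) (x y : K) (J : ℕ) (A B : C[X]) (a : C), Fld d → Eq0 d x y J A B → NCP d x y →
    J ≤ rootMultiplicity a B → Con C x y

/-- Two roots of half multiplicity on both sides: a central conic. -/
def StmtTT : Prop :=
  ∀ (C K : Type) [Field C] [CharZero C] [IsAlgClosed C] [Field K] [CharZero K] [Algebra C K]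
    (d : Der C K) (x y : K) (J : ℕ) (A B : C[X]), Fld d → Eq0 d x y J A B → NCP d x y →
    Two J A → Two J B → Con C x y

/-- Orders in the second equation at a finite place. -/
def StmtLOC : Prop :=
  ∀ (C K : Type) [Field C] [CharZero C] [IsAlgClosed C] [Field K] [CharZero K] [Algebra C K]
    (d : Der C K) (x y : K) (J : ℕ) (A A1 A2 B B1 B2 : C[X]) (P : Pl d) (a b : C),
    Eqs d x y J A A1 A2 B B1 B2 → 0 < P.o (x - algebraMap C K a) →
    0 < P.o (y - algebraMap C K b) → (Pole B B1 a ↔ Pole A A1 b) ∧ (¬ Pole B B1 a →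
      ∃ k : ℕ, P.o (y - algebraMap C K b) = k * P.o (x - algebraMap C K a) ∨
        P.o (x - algebraMap C K a) = k * P.o (y - algebraMap C K b))

/-- A branch with integral leading exponent is not ramified. -/
def StmtUNQ : Prop :=
  ∀ (C K : Type) [Field C] [CharZero C] [IsAlgClosed C] [Field K] [CharZero K] [Algebra C K]
    (d : Der C K) (P : Pl d) (u v : K) (J m n k : ℕ) (A B : C[X]), d u ≠ 0 → 0 < J →
    0 < P.o u → 0 < P.o v → P.o v = k * P.o u → A.eval 0 ≠ 0 → B.eval 0 ≠ 0 →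
    (u * d v / (v * d u)) ^ J * v ^ n * aeval u B = u ^ m * aeval v A →
    ∀ g ∈ C⟮u, v⟯, ∃ j : ℤ, P.o g = j * P.o u

/-- Bounded ramification. -/
def StmtDEN : Prop :=
  ∀ (C K : Type) [Field C] [CharZero C] [IsAlgClosed C] [Field K] [CharZero K] [Algebra C K]
    (d : Der C K) (x y : K), Fld d → d x ≠ 0 → ∃ N : ℕ, 0 < N ∧ ∀ P : Pl d, P.o x < 0 →
    ∀ g ∈ C⟮x, y⟯, ∃ j : ℤ, N * P.o g = j * P.o x

/-- Ramification over one finite point only. -/
def StmtPAR : Prop :=
  ∀ (C K : Type) [Field C] [CharZero C] [IsAlgClosed C] [Field K] [CharZero K] [IsAlgClosed K]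
    [Algebra C K] (d : Der C K) (x y : K) (a : C) (N : ℕ), Fld d → d x ≠ 0 → d y ≠ 0 →
    NCP d x y → 0 < N → (∀ P : Pl d, P.o x < 0 → ∀ g ∈ C⟮x, y⟯, ∃ j : ℤ, N * P.o g = j * P.o x) →
    (∀ (P : Pl d) (c : C), c ≠ a → 0 < P.o (x - algebraMap C K c) →
      ∀ g ∈ C⟮x, y⟯, ∃ j : ℤ, P.o g = j * P.o (x - algebraMap C K c)) →
    ∃ t ∈ C⟮x, y⟯, ∃ (n : ℕ) (p : C[X]), n ≤ N ∧ p.natDegree = n ∧
      x - algebraMap C K a = t ^ n ∧ y = aeval t p

/-- Two parametrizations by roots. -/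
def StmtAFF : Prop :=
  ∀ (C K : Type) [Field C] [CharZero C] [IsAlgClosed C] [Field K] [CharZero K] [Algebra C K]
    (d : Der C K) (x y t s : K) (a b : C) (n m : ℕ) (p q : C[X]), Fld d → d x ≠ 0 →
    t ∈ C⟮x, y⟯ → s ∈ C⟮x, y⟯ → x - algebraMap C K a = t ^ n → y = aeval t p → p.natDegree = n →
    y - algebraMap C K b = s ^ m → x = aeval s q → Con C x y ∨ ∃ (T : K) (c e : C),
      c ≠ 0 ∧ e ≠ 0 ∧ x = algebraMap C K a + algebraMap C K c * T ^ n ∧
        y = algebraMap C K b + algebraMap C K e * (T - 1) ^ n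

/-- The curves `x = T ^ n`, `y = (T - 1) ^ n`. -/
def StmtPOW : Prop :=
  ∀ (C K : Type) [Field C] [CharZero C] [IsAlgClosed C] [Field K] [CharZero K] [Algebra C K]
    (d : Der C K) (x y T : K) (J n : ℕ) (A A1 A2 B B1 B2 : C[X]) (a b c e : C),
    Eqs d x y J A A1 A2 B B1 B2 → c ≠ 0 → e ≠ 0 →
    x = algebraMap C K a + algebraMap C K c * T ^ n →
    y = algebraMap C K b + algebraMap C K e * (T - 1) ^ n → Con C x y

/-- A finite totally invariant set. -/
def StmtPI : Prop :=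
  ∀ (C K : Type) [Field C] [CharZero C] [IsAlgClosed C] [Field K] [CharZero K] [Algebra C K]
    (d : Der C K) (x y : K) (J : ℕ) (A B : C[X]) (S T : Set C), Fld d → Eq0 d x y J A B →
    NCP d x y → (∀ a, rootMultiplicity a B < J) → (∀ b, rootMultiplicity b A < J) →
    S.Finite → T.Finite → S.Nonempty → (∀ (P : Pl d) (a b : C), 0 < P.o (x - algebraMap C K a) →
      0 < P.o (y - algebraMap C K b) → (a ∈ S ↔ b ∈ T)) → Con C x y ∨ Two J A ∧ Two J B

/-- The core statement. -/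
def StmtCORE : Prop :=
  ∀ (C K : Type) [Field C] [CharZero C] [IsAlgClosed C] [Field K] [CharZero K] [IsAlgClosed K]
    [Algebra C K] (d : Der C K) (x y : K) (J : ℕ) (A A1 A2 B B1 B2 : C[X]), Fld d →
    Eqs d x y J A A1 A2 B B1 B2 → (NC1 C x y ↔ NC1 C y x) → Con C x y

/-- The three top equations of an integral `H (c, z) / z ^ M` on the lines `x = c + z ^ 2 * y`. -/
def StmtWRAP : Prop :=
  ∀ (C K Ω : Type) [Field C] [CharZero C] [Field K] [CharZero K] [Algebra C K] [Field Ω]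
    [Algebra K Ω] [Algebra C Ω] [IsScalarTower C K Ω] (d : Der C K) (x y : K) (z z' : Ω)
    (H : C[X][X]) (M : ℕ), d y = 1 → d x ≠ 0 → Transcendental C x → Transcendental C y →
    Transcendental K z → z * z' = algebraMap K Ω (d x) →
    (∀ c : C, H ≠ Polynomial.C (Polynomial.C c) * X ^ M) →
    aevalAeval (algebraMap K Ω x - z ^ 2 * algebraMap K Ω y) z H / z ^ M =
      aevalAeval (algebraMap K Ω x - z' ^ 2 * algebraMap K Ω y) z' H / z' ^ M →
    ∃ (J : ℕ) (A A1 A2 B B1 B2 : C[X]), Eqs d x y J A A1 A2 B B1 B2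

/-- A curve whose billiard has a polynomial integral is a conic. -/
def StmtCC : Prop :=
  ∀ (C Ω : Type) [Field C] [CharZero C] [IsAlgClosed C] [Field Ω] [CharZero Ω] [IsAlgClosed Ω]
    [Algebra C Ω] (Z : Der C Ω) (x y w z z' : Ω) (H : C[X][X]) (M : ℕ), Z y = 1 → Z x = w →
    x ∈ cl C {y} → w ≠ 0 → z ∉ cl C {y} → z * z' = w → (NC1 C x y ↔ NC1 C y x) →
    (∀ c : C, H ≠ Polynomial.C (Polynomial.C c) * X ^ M) →
    aevalAeval (x - z ^ 2 * y) z H / z ^ M = aevalAeval (x - z' ^ 2 * y) z' H / z' ^ M →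
    Con C x y

end Pool.Agent.MP_249f74_an.H53
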