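import Pool.Agent.MP_249f74_an.H32.Bas
import Pool.Agent.MP_249f74_an.H17.CmBer
import Pool.Agent.MP_249f74_an.H74.Gen

/-!
Mirrors whose tangent hyperplanes lie in a space of dimension three: the dual conics.
-/

open Matrix MvPolynomial

namespace Pool.Agent.MP_249f74_an.H53

open H17 (Der)
open H17.Cm (grad hat tg aff quad sp Conf aeval_tg aeval_aff aff_eq_zero td_aff_le dual_aux
  eq_smul_quad hat_dot)
open H74 (GenK cv par1 eq_zero_of_dot symm_dot dv_mulVec dv_vecMul const_of_kil dv_cv cv_eq_zero)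
open H90 (dv dv_apply dv_dot dv_smul)
open H32 (Mir Cm Qd)

variable {k C Ω ι : Type} [Field k] [Algebra k ℝ] [Field C] [Algebra k C] [Field Ω] [Algebra C Ω]

lemma par_of_cross {x y : Fin 3 → Ω} (h : x ⨯₃ y = 0) (y0 : y ≠ 0) : ∃ s : Ω, x = s • y :=
  par1 fun w hw => by
    have := cross_cross_eq_smul_sub_smul x y w
    rw [h, hw, zero_smul, sub_zero, LinearMap.map_zero₂, eq_comm] at this
    exact (smul_eq_zero.1 this).resolve_right y0

/-- Two vectors that are orthogonal to a plane are parallel. -/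
lemma par3 {u v x y : Fin 3 → Ω} (u0 : u ≠ 0) (h : ∀ s : Ω, v ≠ s • u) (y0 : y ≠ 0)
    (xu : x ⬝ᵥ u = 0) (xv : x ⬝ᵥ v = 0) (yu : y ⬝ᵥ u = 0) (yv : y ⬝ᵥ v = 0) :
    ∃ s : Ω, x = s • y := by
  have z0 : v ⨯₃ u ≠ 0 := fun e => (par_of_cross e u0).elim h
  have e : ∀ x : Fin 3 → Ω, x ⬝ᵥ u = 0 → x ⬝ᵥ v = 0 → ∃ s : Ω, x = s • v ⨯₃ u := fun x a b =>
    par_of_cross (by rw [cross_cross_eq_smul_sub_smul', a, dotProduct_comm, b]; simp) z0
  obtain ⟨a, ha⟩ := e x xu xv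
  obtain ⟨b, hb⟩ := e y yu yv
  have b0 : b ≠ 0 := by rintro rfl; exact y0 (by simpa using hb)
  exact ⟨a / b, by rw [ha, hb, smul_smul, div_mul_cancel₀ _ b0]⟩

/-- A vector that is parallel to all its derivatives has a constant direction. -/
lemma par_const [IsAlgClosed C] [CharZero Ω] {κ : Type} {N : κ → Ω}
    (h : ∀ θ : Der C Ω, ∃ s : Ω, dv N θ = s • N) : ∃ (μ : Ω) (c : κ → C), N = μ • cv Ω c := by
  by_cases h0 : N = 0
  · exact ⟨0, 0, by simp [h0]⟩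
  obtain ⟨j, hj⟩ := Function.ne_iff.1 h0
  have hj' : N j ≠ 0 := hj
  have : ∀ i, ∃ c, algebraMap C Ω c = N i / N j := fun i => const_of_kil fun θ => by
    obtain ⟨s, hs⟩ := h θ
    have e : ∀ i, θ (N i) = s * N i := congrFun hs
    rw [Derivation.leibniz_div, e, e]
    simp only [smul_eq_mul]
    ring
  choose c hc using this
  exact ⟨N j, c, funext fun i => by simp [hc, mul_div_cancel₀ _ hj']⟩

variable [Fintype ι] [DecidableEq ι]

/-- The tangent hyperplane at a point. -/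
noncomputable abbrev tvv (F : MvPolynomial ι C) (q : ι → Ω) : Option ι → Ω :=
  fun o => aeval q (tg F o)

lemma sp_tvv (F : MvPolynomial ι C) (q : ι → Ω) : sp (tvv F q) = grad F q :=
  funext fun i => aeval_tg F q (some i)

lemma tvv_hat (F : MvPolynomial ι C) (q : ι → Ω) : tvv F q ⬝ᵥ hat q = 0 := by
  rw [dotProduct_comm, hat_dot, sp_tvv]; simp [tvv, aeval_tg]

lemma tvv_dv {F : MvPolynomial ι C} {q : ι → Ω} (h : GenK F q) (θ : Der C Ω) :
    tvv F q ⬝ᵥ dv (hat q) θ = 0 := by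
  rw [← h.tan θ, ← sp_tvv]
  simp [dotProduct, hat, sp]

lemma no_aff {F : MvPolynomial ι C} {q : ι → Ω} (h : GenK F q) (h2 : 2 ≤ F.totalDegree)
    {c : Option ι → C} (hc : cv Ω c ⬝ᵥ hat q = 0) : c = 0 :=
  aff_eq_zero (by_contra fun hn => by
    have := (totalDegree_le_of_dvd_of_isDomain ((h (aff c)).1
      (by rw [aeval_aff, dotProduct_comm]; exact hc)) hn).trans (td_aff_le c)
    omega)

lemma cv_vecMul {α β : Type} [Fintype α] (c : α → C) (B : Matrix α β C) :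
    cv Ω c ᵥ* B.map (algebraMap C Ω) = cv Ω (c ᵥ* B) := by
  ext; simp [vecMul, dotProduct]

variable [IsAlgClosed C] [CharZero Ω]

/-- A conic that contains the tangent hyperplanes is regular and dual to the hypersurface. -/
lemma dual3 {F : MvPolynomial ι C} {q : ι → Ω} (h : GenK F q) (hp : Prime F)
    (h2 : 2 ≤ F.totalDegree) {B : Matrix (Fin 3) (Option ι) C} (hB : ∀ c, c ᵥ* B = 0 → c = 0)
    {N : Fin 3 → Ω} (hN : tvv F q = N ᵥ* B.map (algebraMap C Ω)) {b : Matrix (Fin 3) (Fin 3) C}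
    (hb : b.IsSymm) (b0 : b ≠ 0) (h0 : N ⬝ᵥ b.map (algebraMap C Ω) *ᵥ N = 0) :
    IsUnit b.det ∧ N ᵥ* B.map (algebraMap C Ω) ≠ 0 ∧
      N ⬝ᵥ B.map (algebraMap C Ω) *ᵥ hat q = 0 ∧ ∃ s : Ω, s ≠ 0 ∧
      b.map (algebraMap C Ω) *ᵥ N = s • (B.map (algebraMap C Ω) *ᵥ hat q) := by
  have T0 : N ᵥ* B.map (algebraMap C Ω) ≠ 0 := fun e =>
    h.grad_ne hp (by rw [← sp_tvv, hN, e]; rfl)
  have N0 : N ≠ 0 := fun e => T0 (by simp [e])
  have a3 : ∀ c, cv Ω c ⬝ᵥ B.map (algebraMap C Ω) *ᵥ hat q = 0 → c = 0 := fun c e =>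
    hB c (no_aff h h2 (by rwa [dotProduct_mulVec, cv_vecMul] at e))
  have a1 : N ⬝ᵥ B.map (algebraMap C Ω) *ᵥ hat q = 0 := by rw [dotProduct_mulVec, ← hN, tvv_hat]
  have a2 : ∀ θ : Der C Ω, dv N θ ⬝ᵥ B.map (algebraMap C Ω) *ᵥ hat q = 0 := fun θ => by
    have := dv_dot (tvv F q) (hat q) θ
    rwa [tvv_hat, map_zero, tvv_dv h, add_zero, hN, dv_vecMul, ← dotProduct_mulVec, eq_comm] at this
  generalize B.map (algebraMap C Ω) *ᵥ hat q = p at a1 a2 a3 ⊢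
  have a4 : ∃ θ : Der C Ω, ∀ s : Ω, dv N θ ≠ s • N := by
    by_contra! hn
    obtain ⟨μ, c, e⟩ := par_const hn
    rw [e, smul_dotProduct, smul_eq_mul, mul_eq_zero] at a1
    exact N0 (a1.elim (fun e1 => by simp [e, e1]) fun e1 => by simp [e, a3 c e1, cv_eq_zero.2])
  have a5 : ∀ (c : Fin 3 → C) (s : Ω), p ≠ s • cv Ω c := fun c s e => by
    have e1 : ∀ w, c ⨯₃ w = 0 := fun w => a3 _ (by
      rw [e, dotProduct_smul, H74.cv_dot, dotProduct_comm, dot_self_cross]; simp)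
    have e2 : c = 0 := by
      have k1 := congrFun (e1 ![1, 0, 0])
      have k2 := congrFun (e1 ![0, 1, 0])
      ext i
      fin_cases i
      · simpa [cross_apply] using k2 2
      · simpa [cross_apply] using k1 2
      · simpa [cross_apply] using k1 1
    exact one_ne_zero (congrFun (a3 1 (by simp [e, e2, cv_eq_zero.2])) 0)
  have a6 : ∀ c : Fin 3 → C, cv Ω c ⬝ᵥ N = 0 → c = 0 := fun c e => by_contra fun c0 => by
    obtain ⟨θ, hθ⟩ := a4
    have e1 := dv_dot (cv Ω c) N θ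
    rw [e, map_zero, dv_cv, zero_dotProduct, zero_add] at e1
    exact (par3 (u := cv Ω c) (fun e => c0 (cv_eq_zero.1 e)) (a5 c) N0 ((dotProduct_comm _ _).trans e1.symm)
      (a2 θ) ((dotProduct_comm _ _).trans e) a1).elim hθ
  obtain ⟨θ, hθ⟩ := a4
  have e1 := dv_dot N (b.map (algebraMap C Ω) *ᵥ N) θ
  rw [h0, map_zero, dv_mulVec, symm_dot (hb.map _) N, ← two_mul, eq_comm,
    mul_eq_zero, or_iff_right two_ne_zero] at e1
  obtain ⟨s, hs⟩ := par3 N0 hθ (fun e => a5 0 0 (by simpa using e))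
    ((dotProduct_comm _ _).trans h0) ((dotProduct_comm _ _).trans e1)
    ((dotProduct_comm _ _).trans a1) ((dotProduct_comm _ _).trans (a2 θ))
  have s0 : s ≠ 0 := fun e => b0 (Matrix.ext fun i => congrFun (a6 (b i)
    ((congrFun hs i).trans (by simp [e]))))
  refine ⟨Ne.isUnit fun e => ?_, T0, a1, s, s0, hs⟩
  obtain ⟨c, c0, hc⟩ := exists_vecMul_eq_zero_iff.2 e
  have e2 := dotProduct_mulVec (cv Ω c) (b.map (algebraMap C Ω)) N
  rw [hs, cv_vecMul, hc, cv_eq_zero.2 rfl, zero_dotProduct, dotProduct_smul, smul_eq_mul] at e2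
  exact c0 (a3 c ((mul_eq_zero.1 e2).resolve_left s0))

omit [IsAlgClosed C] [CharZero Ω] in
lemma dot_abs {α : Type} [Fintype α] (B : Matrix α (Option ι) C) (N M : α → Ω) :
    N ⬝ᵥ (B * H17.Cm.J ι C * Bᵀ).map (algebraMap C Ω) *ᵥ M =
      sp (N ᵥ* B.map (algebraMap C Ω)) ⬝ᵥ sp (M ᵥ* B.map (algebraMap C Ω)) := by
  rw [Matrix.map_mul, Matrix.map_mul, ← mulVec_mulVec, ← mulVec_mulVec, dotProduct_mulVec,
    H17.Cm.J_map, H17.Cm.J_mulVec, transpose_map, mulVec_transpose, dotProduct_comm,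
    H17.Cm.vec_dot, dotProduct_comm]

/-- Two mirrors whose tangent hyperplanes lie on confocal conics. -/
theorem fin3 {m m2 : Mir k C ι} {B : Matrix (Fin 3) (Option ι) C} (hB : ∀ c, c ᵥ* B = 0 → c = 0)
    {a : Matrix (Fin 3) (Fin 3) C} {lam : C} (ha : a.IsSymm) (a0 : a ≠ 0) {q y : ι → Ω}
    {N M : Fin 3 → Ω} (hq : m.On q) (hN : tvv m.f q = N ᵥ* B.map (algebraMap C Ω))
    (h1 : N ⬝ᵥ a.map (algebraMap C Ω) *ᵥ N = 0) (hy : m2.On y)
    (hM : tvv m2.f y = M ᵥ* B.map (algebraMap C Ω))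
    (h2 : M ⬝ᵥ a.map (algebraMap C Ω) *ᵥ M =
      algebraMap C Ω lam * M ⬝ᵥ (B * H17.Cm.J ι C * Bᵀ).map (algebraMap C Ω) *ᵥ M) :
    Cm m m2 ∨ (m2 = m ∧ Qd m) := by
  have : CharZero C := (algebraMap C Ω).charZero
  rcases eq_or_ne lam 0 with rfl | l0
  · rw [map_zero, zero_mul] at h2
    obtain ⟨u, t0, k0, s, s0, hs⟩ := dual3 hq m.prime m.deg hB hN ha a0 h1
    obtain ⟨-, t0', k0', s', s0', hs'⟩ := dual3 hy m2.prime m2.deg hB hM ha a0 h2
    obtain ⟨b1, b2⟩ := dual_aux B u s0 hs t0 k0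
    obtain ⟨-, b3⟩ := dual_aux B u s0' hs' t0' k0'
    have sy : (Bᵀ * a⁻¹ * B).IsSymm := by
      rw [Matrix.IsSymm, transpose_mul, transpose_mul, transpose_transpose, transpose_nonsing_inv,
        ha.eq, Matrix.mul_assoc]
    obtain ⟨d, c, hc⟩ := eq_smul_quad sy b1 ((hq _).1 b2) m.deg
    obtain ⟨-, c', hc'⟩ := eq_smul_quad sy b1 ((hy _).1 b3) m2.deg
    exact .inr ⟨Mir.ext_of_associated (associated_of_dvd_dvd
      ((hy _).1 (by rw [hc, map_smul, b3, smul_zero]))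
      ((hq _).1 (by rw [hc', map_smul, b2, smul_zero]))), d⟩
  have se : (B * H17.Cm.J ι C * Bᵀ).IsSymm := by
    rw [Matrix.IsSymm, transpose_mul, transpose_mul, transpose_transpose, H17.Cm.J_symm.eq,
      Matrix.mul_assoc]
  have e1 : ∀ x : Fin 3 → Ω, x ⬝ᵥ (lam⁻¹ • a).map (algebraMap C Ω) *ᵥ x =
      (algebraMap C Ω lam)⁻¹ * x ⬝ᵥ a.map (algebraMap C Ω) *ᵥ x := fun x => by
    rw [show (lam⁻¹ • a).map (algebraMap C Ω) = (algebraMap C Ω lam)⁻¹ • a.map (algebraMap C Ω) by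
      ext; simp, smul_mulVec, dotProduct_smul, smul_eq_mul]
  have h3 : N ⬝ᵥ (lam⁻¹ • a).map (algebraMap C Ω) *ᵥ N = 0 := by rw [e1, h1, mul_zero]
  obtain ⟨u, t0, k0, s, s0, hs⟩ := dual3 hq m.prime m.deg hB hN (ha.smul lam⁻¹)
    (smul_ne_zero (inv_ne_zero l0) a0) h3
  obtain ⟨u', t0', k0', s', s0', hs'⟩ := dual3 hy m2.prime m2.deg hB hM ((ha.smul lam⁻¹).sub se)
    (fun e => hq.nn (by rwa [sub_eq_zero.1 e, dot_abs, ← hN, sp_tvv] at h3)) (by
      rw [Matrix.map_sub _ (map_sub _), sub_mulVec, dotProduct_sub, e1, h2,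
        inv_mul_cancel_left₀ ((map_ne_zero _).2 l0), sub_self])
  have := Conf.of_dual B (ha.smul lam⁻¹) (sub_sub_cancel _ _) u u' (fun W => (hq W).1)
    (fun W => (hy W).1) m.deg m2.deg s0 s0' hs hs' t0 t0' k0 k0'
  rcases eq_or_ne m m2 with rfl | e
  exacts [.inr ⟨rfl, this.1⟩, .inl ⟨e, .inl this⟩]

end Pool.Agent.MP_249f74_an.H53
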