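import Pool.Agent.MP_249f74_an.H53.V3b
import Pool.Agent.MP_249f74_an.H17.CmBerq
import Pool.Agent.MP_249f74_an.H18.Spec

/-!
Cones with a common vertex space of codimension three: reduction to the dynamical statement.
-/

open Matrix MvPolynomial

namespace Pool.Agent.MP_249f74_an.H53

open H74 (cv mem_of_ann)
open H32 (Mir Cm Qd)

variable {k C ι : Type} [Field k] [Algebra k ℝ] [Field C] [Algebra k C] [Fintype ι]
  [DecidableEq ι]

/-- The tangent hyperplanes lie in the row space of `B`. -/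
def Row3 (m : Mir k C ι) (B : Matrix (Fin 3) (Option ι) C) : Prop :=
  ∀ (Ω : Type) [Field Ω] [Algebra C Ω] (q : ι → Ω), m.On q →
    ∃ N : Fin 3 → Ω, tvv m.f q = N ᵥ* B.map (algebraMap C Ω)

omit [DecidableEq ι] in
lemma row3_of {m : Mir k C ι} {B : Matrix (Fin 3) (Option ι) C}
    {S : Matrix (Option ι) (Fin 3) C} (hS : B * S = 1)
    (h : ∀ Y : Option ι → C, B *ᵥ Y = 0 →
      m.f ∣ H17.Cm.tg m.f ⬝ᵥ fun o => MvPolynomial.C (Y o)) : Row3 m B := fun Ω _ _ q hq => by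
  classical
  refine ⟨tvv m.f q ᵥ* S.map (algebraMap C Ω), funext fun o => ?_⟩
  have h1 := (hq _).2 (h ((1 - S * B) *ᵥ Pi.single o 1) (by
    rw [mulVec_mulVec, Matrix.mul_sub, ← Matrix.mul_assoc, hS, Matrix.mul_one, Matrix.one_mul,
      sub_self, zero_mulVec]))
  have h2 : tvv m.f q ⬝ᵥ cv Ω ((1 - S * B) *ᵥ Pi.single o 1) = 0 := by
    rw [← h1]; simp [dotProduct]
  rw [← H74.cv_mulVec, H74.cv_single, dotProduct_mulVec, dotProduct_single_one,
    Matrix.map_sub _ (map_sub _), Matrix.map_one _ (map_zero _) (map_one _), vecMul_sub,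
    vecMul_one, Matrix.map_mul, ← vecMul_vecMul] at h2
  exact sub_eq_zero.1 h2

omit [DecidableEq ι] in
lemma row3_of_v3 {m m' : Mir k C ι} (h : H18.V3 m.f m'.f) :
    ∃ (B : Matrix (Fin 3) (Option ι) C) (S : Matrix (Option ι) (Fin 3) C),
      B * S = 1 ∧ Row3 m B ∧ Row3 m' B := by
  obtain ⟨b, hb, h⟩ := h
  have : ∀ j : Fin 3, ∃ x, of b *ᵥ x = Pi.single j 1 := fun j =>
    mem_of_ann (U := LinearMap.range (of b).mulVecLin) fun v hv => by
      have e : v ᵥ* of b = 0 := H74.eq_zero_of_dot fun w => by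
        rw [← dotProduct_mulVec, dotProduct_comm]; exact hv _ ⟨w, rfl⟩
      have := Fintype.linearIndependent_iff.1 hb v (by
        rw [← e]; ext o; simp [vecMul, dotProduct]) j
      simpa using this
  choose x hx using this
  have hS : of b * (of x)ᵀ = 1 := by
    ext i j
    exact (congrFun (hx j) i).trans (by rw [Matrix.one_apply, Pi.single_apply])
  exact ⟨of b, (of x)ᵀ, hS, row3_of hS fun Y hY => (h Y (congrFun hY)).1,
    row3_of hS fun Y hY => (h Y (congrFun hY)).2⟩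

variable [IsAlgClosed C] [CharZero C]

lemma Row3.rk {m : Mir k C ι} {B : Matrix (Fin 3) (Option ι) C} (h : Row3 m B) (l : Fin 3 → C) :
    B * H17.Cm.J ι C * Bᵀ ≠ vecMulVec l l := by
  obtain ⟨K, _, _, y, hy⟩ := H17.Cm.exists_gen_pt m.prime
  have : CharZero K := charZero_of_injective_algebraMap (algebraMap C K).injective
  obtain ⟨N, hN⟩ := h K y hy
  exact rk2 hy hN l

variable (k C ι) in
/-- The dynamical statement. -/
def DYN : Prop :=
  ∀ (m m' : Mir k C ι) (B : Matrix (Fin 3) (Option ι) C) (S : Matrix (Option ι) (Fin 3) C) H,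
    B * S = 1 → Row3 m B → Row3 m' B → (∀ l, B * H17.Cm.J ι C * Bᵀ ≠ vecMulVec l l) →
    H18.Cls m m' H → ∃ (Ω : Type) (_ : Field Ω) (_ : Algebra C Ω) (_ : IsAlgClosed Ω)
      (_ : CharZero Ω) (a : Matrix (Fin 3) (Fin 3) C) (lam : C) (q y : ι → Ω) (N M : Fin 3 → Ω),
      a.IsSymm ∧ a ≠ 0 ∧ m.On q ∧ tvv m.f q = N ᵥ* B.map (algebraMap C Ω) ∧
      N ⬝ᵥ a.map (algebraMap C Ω) *ᵥ N = 0 ∧ m'.On y ∧ tvv m'.f y = M ᵥ* B.map (algebraMap C Ω) ∧
      M ⬝ᵥ a.map (algebraMap C Ω) *ᵥ M =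
        algebraMap C Ω lam * M ⬝ᵥ (B * H17.Cm.J ι C * Bᵀ).map (algebraMap C Ω) *ᵥ M

theorem two_of (h : DYN k C ι) : H18.TWO k C ι := fun m m' H ne hv hH => by
  obtain ⟨B, S, hS, h1, h2⟩ := row3_of_v3 hv
  obtain ⟨Ω, _, _, _, _, a, lam, q, y, N, M, a1, a2, a3, a4, a5, a6, a7, a8⟩ :=
    h m m' B S H hS h1 h2 h1.rk hH
  exact (fin3 (fun c e => by rw [← vecMul_one c, ← hS, ← vecMul_vecMul, e, zero_vecMul])
    a1 a2 a3 a4 a5 a6 a7 a8).elim (·.2) fun e => absurd e.1.symm ne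

end Pool.Agent.MP_249f74_an.H53
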