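import Pool.Agent.MP_249f74_an.H53.V3c
import Pool.Agent.MP_249f74_an.H22.Root
import Pool.Agent.MP_249f74_an.H97.Poly

/-!
The hyperplanes on whose lines a polynomial vanishes.
-/

open Matrix MvPolynomial

namespace Pool.Agent.MP_249f74_an.H53

open H17.Cm (hat sp hat_dot)
open H97 (hz map_hz hz_eq aeval_smul_homog)
open H74 (cv)

variable {C Ω ι : Type} [Field C] [Field Ω] [Algebra C Ω] [Fintype ι]

/-- The polynomial `H` vanishes on the lines of the hyperplane `T`. -/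
def Zh (H : MvPolynomial (ι ⊕ ι) C) (T : Option ι → Ω) : Prop :=
  ∀ x u : ι → Ω, T ⬝ᵥ hat x = 0 → sp T ⬝ᵥ u = 0 → H65.ev x u H = 0

/-- The numerator of the orthogonal projection of an edge to a hyperplane. -/
def cor {R : Type} [CommRing R] (T : Option ι → R) (z : ι ⊕ ι → R) : ι ⊕ ι → R :=
  Sum.elim (fun i => -(T ⬝ᵥ hat fun j => z (.inl j)) * T (some i))
    fun i => -(sp T ⬝ᵥ fun j => z (.inr j)) * T (some i)

lemma map_cor {R S : Type} [CommRing R] [CommRing S] (φ : R →+* S) (T : Option ι → R)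
    (z : ι ⊕ ι → R) (o : ι ⊕ ι) : φ (cor T z o) = cor (fun o => φ (T o)) (fun o => φ (z o)) o := by
  cases o <;> simp [cor, dotProduct, hat, sp]

lemma zh_iff [CharZero C] {H : MvPolynomial (ι ⊕ ι) C} {T : Option ι → Ω} (h : sp T ⬝ᵥ sp T ≠ 0) :
    Zh H T ↔ ∀ a : ι ⊕ ι → C,
      aeval (fun o => cv Ω a o + (sp T ⬝ᵥ sp T)⁻¹ * cor T (cv Ω a) o) H = 0 := by
  classical
  refine ⟨fun hz a => ?_, fun ha x u h1 h2 => ?_⟩
  · have := hz ((fun j => cv Ω a (.inl j)) -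
        ((sp T ⬝ᵥ sp T)⁻¹ * T ⬝ᵥ hat fun j => cv Ω a (.inl j)) • sp T)
      ((fun j => cv Ω a (.inr j)) - ((sp T ⬝ᵥ sp T)⁻¹ * sp T ⬝ᵥ fun j => cv Ω a (.inr j)) • sp T)
      (by
        simp only [dotProduct_comm T, hat_dot, sub_dotProduct, smul_dotProduct, smul_eq_mul]
        field_simp
        ring) (by
        simp only [dotProduct_sub, dotProduct_smul, smul_eq_mul]
        field_simp
        ring)
    rw [← this, H65.ev]
    congr 2
    ext (i | i) <;> simp [cor, sp, sub_eq_add_neg, mul_assoc]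
  · let W : MvPolynomial (ι ⊕ ι) Ω := aeval (fun o => X o + MvPolynomial.C (sp T ⬝ᵥ sp T)⁻¹ *
      cor (fun o => MvPolynomial.C (T o)) X o) H
    have e : ∀ z, eval z W = aeval (fun o => z o + (sp T ⬝ᵥ sp T)⁻¹ * cor T z o) H := fun z => by
      have := comp_aeval_apply (f := fun o => X o + MvPolynomial.C (sp T ⬝ᵥ sp T)⁻¹ *
        cor (fun o => MvPolynomial.C (T o)) X o) ((aeval z).restrictScalars C) H
      refine this.trans ?_
      congr 2
      ext o
      have := map_cor (eval z) (fun o => MvPolynomial.C (T o)) X o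
      simp only [eval_C, eval_X] at this
      simp [← this]
    have e0 : W = 0 := funext_set (fun _ => Set.range (algebraMap C Ω))
      (fun _ => Set.infinite_range_of_injective (algebraMap C Ω).injective) fun z hz => by
        choose a ha' using fun o => hz o (Set.mem_univ o)
        obtain rfl : z = cv Ω a := funext fun o => (ha' o).symm
        rw [e, ha, map_zero]
    have := e (Sum.elim x u)
    rw [e0, map_zero] at this
    rw [this, H65.ev]
    congr 2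
    ext (i | i)
    · simp [cor, h1]
    · simp [cor, h2]

lemma ex_fam [CharZero C] (H : MvPolynomial (ι ⊕ ι) C) (B : Matrix (Fin 3) (Option ι) C) :
    ∃ (P : (ι ⊕ ι → C) → MvPolynomial (Fin 3) C) (n : ℕ), (∀ a, (P a).IsHomogeneous n) ∧
      ∀ M : Fin 3 → Ω, sp (M ᵥ* B.map (algebraMap C Ω)) ⬝ᵥ sp (M ᵥ* B.map (algebraMap C Ω)) ≠ 0 →
        (Zh H (M ᵥ* B.map (algebraMap C Ω)) ↔ ∀ a, aeval M (P a) = 0) := by
  let T : Option ι → MvPolynomial (Fin 3) C := X ᵥ* B.map MvPolynomial.C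
  have t1 : ∀ o, (T o).IsHomogeneous 1 := fun o => .sum _ _ _ fun i _ => by
    simpa using (isHomogeneous_X C i).mul (isHomogeneous_C _ (B i o))
  have t2 : (sp T ⬝ᵥ sp T).IsHomogeneous 2 := .sum _ _ _ fun i _ => (t1 _).mul (t1 _)
  have t3 : ∀ (a : ι ⊕ ι → C) o, (cor T (fun o => MvPolynomial.C (a o)) o).IsHomogeneous 2 := by
    rintro a (i | i)
    · refine (IsHomogeneous.neg (n := 1) (.sum _ _ _ fun o _ => ?_)).mul (t1 _)
      cases o
      · simpa [hat] using t1 none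
      · exact (t1 _).mul (isHomogeneous_C _ _)
    · exact (IsHomogeneous.neg (n := 1) (.sum _ _ _ fun o _ =>
        (t1 _).mul (isHomogeneous_C _ _))).mul (t1 _)
  refine ⟨fun a => hz H (sp T ⬝ᵥ sp T) (fun o => MvPolynomial.C (a o))
    (cor T fun o => MvPolynomial.C (a o)), 2 * H.totalDegree, fun a => .sum _ _ _ fun j hj => ?_,
    fun M hM => (zh_iff hM).trans (forall_congr' fun a => ?_)⟩
  · have := (t2.pow (H.totalDegree - j)).mul ((homogeneousComponent_isHomogeneous j H).aeval _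
      fun o => (t2.mul (isHomogeneous_C _ (a o))).add (t3 a o))
    rwa [add_zero, ← mul_add, Nat.sub_add_cancel (Nat.lt_succ_iff.1 (Finset.mem_range.1 hj))] at this
  · have e : ∀ o, aeval M (T o) = (M ᵥ* B.map (algebraMap C Ω)) o := fun o => by
      simp [T, vecMul, dotProduct]
    have e1 : aeval M (sp T ⬝ᵥ sp T) =
        sp (M ᵥ* B.map (algebraMap C Ω)) ⬝ᵥ sp (M ᵥ* B.map (algebraMap C Ω)) := by
      simp [dotProduct, sp, e]
    have e2 := fun o => map_cor (aeval M : MvPolynomial (Fin 3) C →ₐ[C] Ω).toRingHom T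
      (fun o => MvPolynomial.C (a o)) o
    simp only [AlgHom.toRingHom_eq_coe, RingHom.coe_coe, e, aeval_C] at e2
    rw [map_hz, e1, hz_eq H (mul_inv_cancel₀ hM), mul_eq_zero, or_iff_right (pow_ne_zero _ hM)]
    simp only [e2, aeval_C]
    rfl

lemma ex_gcd {R A : Type} [CommMonoidWithZero R] [IsCancelMulZero R] [WfDvdMonoid R] {P : A → R}
    {a0 : A} (h : P a0 ≠ 0) :
    ∃ F, (∀ a, F ∣ P a) ∧ ∀ π, Prime π → (∀ a, π ∣ P a) → π ∣ F := by
  obtain ⟨c, ⟨F, h1, h2⟩, hm⟩ := WellFounded.has_min wellFounded_dvdNotUnit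
    {c | ∃ F, (∀ a, F ∣ P a) ∧ P a0 = F * c} ⟨P a0, 1, fun _ => one_dvd _, (one_mul _).symm⟩
  refine ⟨F, h1, fun π hπ hd => by_contra fun hn => ?_⟩
  obtain ⟨c', rfl⟩ := (hπ.dvd_or_dvd (h2 ▸ hd a0)).resolve_left hn
  refine hm c' ⟨F * π, fun a => ?_, by rw [h2, mul_assoc]⟩
    ⟨fun e => h (by simp [h2, e]), π, hπ.not_isUnit, mul_comm _ _⟩
  obtain ⟨b, hb⟩ := h1 a
  rw [hb]
  exact mul_dvd_mul_left _ ((hπ.dvd_or_dvd (hb ▸ hd a)).resolve_left hn)

/-- The equation of the curve of the hyperplanes on whose lines `H` vanishes. -/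
lemma ex_form [IsAlgClosed C] [CharZero C] [CharZero Ω] {H : MvPolynomial (ι ⊕ ι) C}
    {B : Matrix (Fin 3) (Option ι) C} {M0 : Fin 3 → Ω}
    (h0 : sp (M0 ᵥ* B.map (algebraMap C Ω)) ⬝ᵥ sp (M0 ᵥ* B.map (algebraMap C Ω)) ≠ 0)
    (h1 : ¬Zh H (M0 ᵥ* B.map (algebraMap C Ω))) :
    ∃ (F : MvPolynomial (Fin 3) C) (n : ℕ), F ≠ 0 ∧ F.IsHomogeneous n ∧
      ∀ M : Fin 3 → Ω, sp (M ᵥ* B.map (algebraMap C Ω)) ⬝ᵥ sp (M ᵥ* B.map (algebraMap C Ω)) ≠ 0 →
        (aeval M F = 0 → Zh H (M ᵥ* B.map (algebraMap C Ω))) ∧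
        ((∀ (μ : Ω) (c : Fin 3 → C), M ≠ μ • cv Ω c) → Zh H (M ᵥ* B.map (algebraMap C Ω)) →
          aeval M F = 0) := by
  obtain ⟨P, n, hP, h⟩ := ex_fam (Ω := Ω) H B
  obtain ⟨a0, ha⟩ := not_forall.1 (mt (h M0 h0).2 h1)
  have p0 : P a0 ≠ 0 := fun e => ha (by rw [e, map_zero])
  obtain ⟨F, f1, f2⟩ := ex_gcd p0
  obtain ⟨G, hG⟩ := f1 a0
  obtain ⟨d, hd⟩ := H22.hom_of_mul (hG ▸ hP a0) (hG ▸ p0)
  refine ⟨F, d, left_ne_zero_of_mul (hG ▸ p0), hd, fun M hM => ⟨fun e => (h M hM).2 fun a => ?_,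
    fun hc hz => ?_⟩⟩
  · obtain ⟨b, hb⟩ := f1 a
    rw [hb, map_mul, e, zero_mul]
  have hy := H22.gen_cone (y := M) hc
  have e : ∀ {Q : MvPolynomial (Fin 3) C} {j : ℕ}, Q.IsHomogeneous j → (aeval (fun i => RatFunc.X *
      algebraMap Ω (RatFunc Ω) (M i)) Q = 0 ↔ aeval M Q = 0) := fun {Q j} hQ => by
    rw [aeval_smul_homog hQ, mul_eq_zero, or_iff_right (pow_ne_zero _ RatFunc.X_ne_zero)]
    exact (aeval_algebraMap_apply (RatFunc Ω) M Q).congr_left.trans (map_eq_zero _)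
  have e1 := fun a => (e (hP a)).2 ((h M hM).1 hz a)
  obtain ⟨π, h2, h3⟩ : ∃ π : MvPolynomial (Fin 3) C, Irreducible π ∧
      aeval (fun i => RatFunc.X * algebraMap Ω (RatFunc Ω) (M i)) π = 0 := by
    have := e1 a0
    clear ha hG f1 f2
    generalize P a0 = Q at p0 this
    induction Q using WfDvdMonoid.induction_on_irreducible with
    | zero => exact absurd rfl p0
    | unit u hu => exact absurd this (hu.map _).ne_zero
    | mul f p f0 hp ih =>
      exact (mul_eq_zero.1 ((map_mul _ _ _).symm.trans this)).elim (fun h => ⟨p, hp, h⟩) (ih f0)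
  obtain ⟨b, hb⟩ := f2 π h2.prime fun a => H88.dvd_of_gen hy h2 h3 (e1 a)
  exact (e hd).1 (by rw [hb, map_mul, h3, zero_mul])

end Pool.Agent.MP_249f74_an.H53
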